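import Pool.Agent.R624.FS.NDefs

/-!
Piece comb: the saturation argument.
-/

namespace R624FS

theorem comb_erase {g g' : ℕ → ℕ} {T F : Finset ℕ} (h : ∀ i, i ∉ T → g' i = g i) (hT : T ⊆ F) :
    erase g' (↑F : Set ℕ) = erase g ↑F := by
  classical
  funext n
  unfold erase
  by_cases hn : n ∈ (↑F : Set ℕ)
  · rw [if_pos hn, if_pos hn]
  · rw [if_neg hn, if_neg hn, h n fun h1 => hn (Finset.mem_coe.2 (hT h1))]

theorem comb_DD {R : Op} {B : Finset ℕ} {m k : ℕ} {g g' : ℕ → ℕ} {T S : Finset ℕ}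
    (h : ∀ i, i ∉ T → g' i = g i) (hT : T ⊆ S) : DD R B m k g' S = DD R B m k g S := by
  funext x b
  unfold DD
  apply propext
  refine and_congr_right fun _ => exists_congr fun S' => and_congr_right fun hS' => ?_
  rw [comb_erase h ((hT.trans hS').trans Finset.subset_union_right)]

theorem comb_TT {R : Op} {B : Finset ℕ} {m k : ℕ} {g g' : ℕ → ℕ} {T S : Finset ℕ}
    (h : ∀ i, i ∉ T → g' i = g i) (hT : T ⊆ S) (s r : ℕ) :
    TT R B m k g' S s r = TT R B m k g S s r := by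
  funext τ
  have h1 := comb_DD (R := R) (B := B) (m := m) (k := k) h hT
  unfold TT Bad
  rw [h1]

theorem comb_RelL_mono {R : Op} {l l' : List (Option ℕ)} (h : l <+: l') {x y : ℕ}
    (hl : RelL R l x y) : RelL R l' x y := by
  obtain ⟨σ, hσ, hR⟩ := hl
  exact ⟨σ, hσ.trans h, hR⟩

/-- saturation along a finite list of pairs -/
theorem comb_sat (R' : Op) (P : List (Option ℕ) → Prop) (ps : List (List (Option ℕ) × ℕ))
    {τ0 : List (Option ℕ)} (h0 : P τ0) :
    ∃ τ, τ0 <+: τ ∧ P τ ∧ ∀ p ∈ ps, (∃ y, RelL R' (p.1 ++ τ) p.2 y) ∨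
      ∀ τ', τ <+: τ' → P τ' → ∀ y, ¬ RelL R' (p.1 ++ τ') p.2 y := by
  induction ps with
  | nil => exact ⟨τ0, List.prefix_rfl, h0, fun p hp => absurd hp List.not_mem_nil⟩
  | cons p ps ih =>
    obtain ⟨τ, h1, h2, h3⟩ := ih
    by_cases h : ∃ τ', τ <+: τ' ∧ P τ' ∧ ∃ y, RelL R' (p.1 ++ τ') p.2 y
    · obtain ⟨τ', hτ', hP, hy⟩ := h
      refine ⟨τ', h1.trans hτ', hP, fun p' hp' => ?_⟩
      rcases List.mem_cons.1 hp' with rfl | hp'
      · exact Or.inl hy
      · rcases h3 p' hp' with ⟨y, hy⟩ | h4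
        · exact Or.inl ⟨y, comb_RelL_mono ((List.prefix_append_right_inj _).2 hτ') hy⟩
        · exact Or.inr fun τ'' h5 h6 => h4 τ'' (hτ'.trans h5) h6
    · refine ⟨τ, h1, h2, fun p' hp' => ?_⟩
      rcases List.mem_cons.1 hp' with rfl | hp'
      · refine Or.inr fun τ' h5 h6 y hy => h ⟨τ', h5, h6, y, hy⟩
      · exact h3 p' hp'

theorem comb_finite (s : ℕ) : {κ : List (Option ℕ) | κ.length = s ∧
    ∀ a ∈ κ, a = none ∨ a = some 0 ∨ a = some 1}.Finite := by
  let c : Fin 3 → Option ℕ := ![none, some 0, some 1]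
  refine Set.Finite.subset (Set.finite_range fun f : Fin s → Fin 3 => List.ofFn fun i => c (f i)) ?_
  rintro κ ⟨hl, hκ⟩
  subst hl
  have h : ∀ i : Fin κ.length, ∃ j : Fin 3, c j = κ[i] := by
    intro i
    rcases hκ κ[i] (List.getElem_mem i.2) with h | h | h
    · exact ⟨0, by rw [h]; rfl⟩
    · exact ⟨1, by rw [h]; rfl⟩
    · exact ⟨2, by rw [h]; rfl⟩
  choose f hf using h
  refine ⟨f, ?_⟩
  show List.ofFn (fun i => c (f i)) = κ
  have h1 : (fun i => c (f i)) = fun i : Fin κ.length => κ[i] := funext hf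
  rw [h1]
  exact List.ofFn_getElem

theorem s_comb : S_comb := by
  classical
  intro R' R B m k S N r g L hk hP
  set q := max N L with hq
  obtain ⟨s, hs, hT0⟩ := hP q (le_max_left _ _)
  set T : Finset ℕ := Seg k q with hT
  set P : List (Option ℕ) → Prop := TT R B m k g (S ∪ T) s r with hPd
  -- the finitely many pairs
  set K : Finset (List (Option ℕ)) := (comb_finite s).toFinset with hK
  obtain ⟨τ, -, hτ, hsat⟩ := comb_sat R' P (K ×ˢ T).toList hT0
  have hsat' : ∀ κ ∈ K, ∀ n ∈ T, (∃ y, RelL R' (κ ++ τ) n y) ∨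
      ∀ τ', τ <+: τ' → P τ' → ∀ y, ¬ RelL R' (κ ++ τ') n y := fun κ hκ n hn =>
    hsat (κ, n) (Finset.mem_toList.2 (Finset.mem_product.2 ⟨hκ, hn⟩))
  let Y : List (Option ℕ) → ℕ → ℕ := fun κ n =>
    if h : ∃ y, RelL R' (κ ++ τ) n y then h.choose else 0
  have hY : ∀ κ n, (∃ y, RelL R' (κ ++ τ) n y) → RelL R' (κ ++ τ) n (Y κ n) := by
    intro κ n h
    simp only [Y]
    rw [dif_pos h]
    exact h.choose_spec
  let g' : ℕ → ℕ := fun n => if n ∈ T then (∑ κ ∈ K, Y κ n) + 1 else g n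
  have hg' : ∀ i, i ∉ T → g' i = g i := fun i hi => if_neg hi
  have hTT := comb_TT (R := R) (B := B) (m := m) (k := k) hg'
    (Finset.subset_union_right : T ⊆ S ∪ T) s r
  refine ⟨g', ?_, ⟨(4 * k + 1) * q, ?_⟩, q, le_max_left _ _, s, hs, τ, ?_, ?_⟩
  · intro i hi
    apply hg'
    rw [hT]
    unfold Seg
    rw [Finset.mem_Ico]
    rintro ⟨h1, -⟩
    have h2 : L ≤ q := le_max_right _ _
    have h3 : q ≤ 4 * k * q := by nlinarith
    omega
  · intro i hi
    apply hg'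
    rw [hT]
    unfold Seg
    rw [Finset.mem_Ico]
    rintro ⟨-, h1⟩
    omega
  · rw [hTT]
    exact hτ
  · intro κ hκl hκ n hn
    have hκK : κ ∈ K := by
      rw [hK, Set.Finite.mem_toFinset]
      exact ⟨hκl, hκ⟩
    rcases hsat' κ hκK n hn with h | h
    · left
      refine ⟨Y κ n, ?_, hY κ n h⟩
      have h1 : g' n = (∑ κ ∈ K, Y κ n) + 1 := if_pos hn
      have h2 : Y κ n ≤ ∑ κ ∈ K, Y κ n :=
        Finset.single_le_sum (f := fun κ => Y κ n) (fun _ _ => Nat.zero_le _) hκK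
      omega
    · right
      intro τ' h1 h2
      rw [hTT] at h2
      exact h τ' h1 h2 _

end R624FS
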