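import Pool.Agent.R624.FS.NDefs

/-!
The construction of a description from the stage property.
-/

namespace R624FS

/-! ### small lemmas -/

theorem DD_anti {R : Op} {B : Finset ℕ} {m k : ℕ} {g : ℕ → ℕ} {S T : Finset ℕ} (h : S ⊆ T)
    {x b : ℕ} (hd : DD R B m k g T x b) : DD R B m k g S x b := by
  obtain ⟨hb, S', hS', ha, hr⟩ := hd
  exact ⟨hb, S', h.trans hS', ha, hr⟩

theorem pre_length {α : Type} (d : ℕ → α) (s : ℕ) : (pre d s).length = s := by
  simp [pre]

theorem pre_getElem? {α : Type} (d : ℕ → α) (s i : ℕ) :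
    (pre d s)[i]? = if i < s then some (d i) else none := by
  unfold pre
  by_cases h : i < s
  · simp [h]
  · simp [h]

theorem pre_prefix {α : Type} (d : ℕ → α) {s t : ℕ} (h : s ≤ t) : pre d s <+: pre d t := by
  rw [List.prefix_iff_getElem?]
  intro i hi
  rw [pre_length] at hi
  rw [pre_getElem?, if_pos (lt_of_lt_of_le hi h)]
  simp [pre]

theorem eq_pre_of_prefix {α : Type} (d : ℕ → α) {s : ℕ} {σ : List α} (h : σ <+: pre d s) :
    σ = pre d σ.length := by
  have h1 : σ.length ≤ s := by simpa [pre_length] using h.length_le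
  apply List.ext_getElem?
  intro i
  rw [pre_getElem?]
  by_cases hi : i < σ.length
  · rw [if_pos hi]
    have h2 := (List.prefix_iff_getElem?.1 h) i hi
    rw [pre_getElem?, if_pos (lt_of_lt_of_le hi h1)] at h2
    rw [List.getElem?_eq_getElem hi]
    exact h2.symm
  · rw [if_neg hi]
    exact List.getElem?_eq_none (not_lt.1 hi)

theorem Rel_of_RelL {R : Op} {X : ℕ → Option ℕ} {s x y : ℕ} (h : RelL R (pre X s) x y) :
    Rel R X x y := by
  obtain ⟨σ, hσ, hm⟩ := h
  refine ⟨σ.length, ?_⟩
  rw [← eq_pre_of_prefix X hσ]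
  exact hm

theorem pre_append {α : Type} (d : ℕ → α) (s n : ℕ) :
    pre d s ++ (List.range n).map (fun x => d (s + x)) = pre d (s + n) := by
  unfold pre
  rw [List.range_add, List.map_append, List.map_map]
  rfl

theorem seqex {X : Type} (x0 : X) (P : ℕ → X → X → Prop) (h : ∀ n x, ∃ y, P n x y) :
    ∃ f : ℕ → X, f 0 = x0 ∧ ∀ n, P n (f n) (f (n + 1)) := by
  choose F hF using h
  refine ⟨fun n => Nat.rec x0 (fun n x => F n x) n, rfl, fun n => hF n _⟩

/-- `2 k`-allowed sets stay allowed when a far segment is added -/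
theorem Alw_union {k m : ℕ} (hk : 1 ≤ k) {S : Finset ℕ} (hS : Alw (2 * k) m S) {q : ℕ}
    (h1 : S.card ≤ q) (h2 : m ≤ q) : Alw (2 * k) m (S ∪ Seg k q) := by
  constructor
  · intro n hn
    rcases Finset.mem_union.1 hn with hn | hn
    · exact hS.1 n hn
    · have : 4 * k * q ≤ n := (Finset.mem_Ico.1 hn).1
      nlinarith
  · intro t
    by_cases ht : t ≤ 4 * k * q
    · have : (S ∪ Seg k q).filter (· < t) = S.filter (· < t) := by
        ext n
        simp only [Finset.mem_filter, Finset.mem_union, Seg, Finset.mem_Ico]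
        constructor
        · rintro ⟨hn | hn, hlt⟩
          · exact ⟨hn, hlt⟩
          · omega
        · rintro ⟨hn, hlt⟩
          exact ⟨Or.inl hn, hlt⟩
      rw [this]
      exact hS.2 t
    · push Not at ht
      have hc : ((S ∪ Seg k q).filter (· < t)).card ≤ q + q := by
        calc ((S ∪ Seg k q).filter (· < t)).card ≤ (S ∪ Seg k q).card :=
              Finset.card_filter_le _ _
          _ ≤ S.card + (Seg k q).card := Finset.card_union_le _ _
          _ ≤ q + q := by
              have : (Seg k q).card = q := by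
                simp only [Seg, Nat.card_Ico]
                have : (4 * k + 1) * q = 4 * k * q + q := by ring
                omega
              omega
      calc 2 * k * ((S ∪ Seg k q).filter (· < t)).card ≤ 2 * k * (q + q) :=
            Nat.mul_le_mul_left _ hc
        _ = 4 * k * q := by ring
        _ ≤ t := ht.le

/-- counting form of density zero -/
theorem Dz_fin {F : Set ℕ} (h : Dz F) (K : ℕ) : ∃ t₀ : ℕ, ∀ t ≥ t₀, ∀ G : Finset ℕ,
    (∀ x ∈ G, x ∈ F ∧ x < t) → K * G.card ≤ t := by
  obtain ⟨t₀, h0⟩ := h K
  refine ⟨t₀, fun t ht G hG => le_trans (Nat.mul_le_mul_left _ ?_) (h0 t ht)⟩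
  rw [← Set.ncard_coe_finset G]
  apply Set.ncard_le_ncard
  · intro x hx
    exact ⟨(hG x hx).1, (hG x hx).2⟩
  · exact (Set.finite_Iio t).subset Set.inter_subset_right

theorem Dz_of_fin {F : Set ℕ} (h : ∀ K : ℕ, ∃ t₀ : ℕ, ∀ t ≥ t₀, ∀ G : Finset ℕ,
    (∀ x ∈ G, x ∈ F ∧ x < t) → K * G.card ≤ t) : Dz F := by
  intro K
  obtain ⟨t₀, h0⟩ := h K
  refine ⟨t₀, fun t ht => ?_⟩
  have hfin : (F ∩ Set.Iio t).Finite := (Set.finite_Iio t).subset Set.inter_subset_right
  rw [Set.ncard_eq_toFinset_card _ hfin]
  apply h0 t ht
  intro x hx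
  have : x ∈ F ∩ Set.Iio t := by simpa using hx
  exact ⟨this.1, this.2⟩

open Classical in
/-- the filling with an output value -/
noncomputable def fill (R : Op) (B : Finset ℕ) (m k : ℕ) (g : ℕ → ℕ) (S : Finset ℕ) (x : ℕ) :
    Option ℕ :=
  if h : ∃ b, DD R B m k g S x b then some h.choose else none

theorem fill_some {R : Op} {B : Finset ℕ} {m k : ℕ} {g : ℕ → ℕ} {S : Finset ℕ} {x b : ℕ}
    (h : fill R B m k g S x = some b) : DD R B m k g S x b := by
  unfold fill at h
  split at h
  · rename_i h'
    have := h'.choose_spec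
    rw [Option.some.injEq] at h
    rwa [h] at this
  · simp at h

theorem fill_none {R : Op} {B : Finset ℕ} {m k : ℕ} {g : ℕ → ℕ} {S : Finset ℕ} {x : ℕ} :
    fill R B m k g S x = none ↔ ∀ b, ¬ DD R B m k g S x b := by
  unfold fill
  split
  · rename_i h
    constructor
    · intro h'
      simp at h'
    · intro h'
      obtain ⟨b, hb⟩ := h
      exact absurd hb (h' b)
  · rename_i h
    constructor
    · intro _ b hb
      exact h ⟨b, hb⟩
    · intro _
      rfl

/-- states of the construction -/
structure St where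
  S : Finset ℕ
  u : ℕ
  f : ℕ → Option ℕ

/-- invariant of a state -/
def StOk (R : Op) (B : Finset ℕ) (m k : ℕ) (g : ℕ → ℕ) (a : St) : Prop :=
  Alw (2 * k) m a.S ∧ ∀ x ≥ a.u, a.f x = fill R B m k g a.S x

/-- one step of the construction -/
def StStep (fam : ℕ → Op) (R : Op) (B : Finset ℕ) (m k : ℕ) (g : ℕ → ℕ) (j : ℕ) (a b : St)
    (s q : ℕ) (τ : List (Option ℕ)) : Prop :=
  b.S = a.S ∪ Seg k q ∧ b.u = s + τ.length ∧
  (∀ x, b.f x = if x < s then a.f x else if x < s + τ.length then τ.getD (x - s) none
    else fill R B m k g b.S x) ∧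
  TT R B m k g b.S s (2 ^ j) τ ∧
  Gd (fam j.unpair.1) R B m k g b.S s (2 ^ j) (Seg k q) τ ∧
  a.u ≤ s ∧ j < s ∧ j < q ∧
  ∀ t ≥ s, ∀ G : Finset ℕ, (∀ x ∈ G, a.f x = none ∧ x < t) → 2 * 2 ^ j * G.card ≤ t

theorem st_step (fam : ℕ → Op) (g : ℕ → ℕ) (hst : Stage fam g) (e : ℕ) (B : Finset ℕ) (m k : ℕ)
    (hk : 1 ≤ k)
    (hβ : ∀ S, Alw (2 * k) m S → Dz {x | ∀ b, ¬ DD (fam e) B m k g S x b})
    (j : ℕ) (a : St) (ha : StOk (fam e) B m k g a) :
    ∃ b : St, StOk (fam e) B m k g b ∧ ∃ s q τ, StStep fam (fam e) B m k g j a b s q τ := by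
  obtain ⟨haS, hau⟩ := ha
  -- density of the undefined part of `a.f`
  have hdz : Dz {x | a.f x = none} := by
    apply Dz_of_fin
    intro K
    obtain ⟨t₀, h0⟩ := Dz_fin (hβ a.S haS) (2 * K)
    refine ⟨max t₀ (2 * K * a.u), fun t ht G hG => ?_⟩
    have h1 := h0 t (le_trans (le_max_left _ _) ht) (G.filter (a.u ≤ ·)) (by
      intro x hx
      rw [Finset.mem_filter] at hx
      refine ⟨?_, (hG x hx.1).2⟩
      have h2 : a.f x = none := (hG x hx.1).1
      rw [hau x hx.2] at h2
      exact fill_none.1 h2)
    have h3 : (G.filter (fun x => ¬ a.u ≤ x)).card ≤ a.u := by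
      have : G.filter (fun x => ¬ a.u ≤ x) ⊆ Finset.range a.u := by
        intro x hx
        rw [Finset.mem_filter] at hx
        rw [Finset.mem_range]
        omega
      simpa using Finset.card_le_card this
    have h4 : (G.filter (a.u ≤ ·)).card + (G.filter (fun x => ¬ a.u ≤ x)).card = G.card :=
      Finset.card_filter_add_card_filter_not _
    have h5 : 2 * K * a.u ≤ t := le_trans (le_max_right _ _) ht
    have h6 : 2 * K * (G.filter (fun x => ¬ a.u ≤ x)).card ≤ 2 * K * a.u :=
      Nat.mul_le_mul_left _ h3
    have h7 : 2 * K * G.card ≤ 2 * t := by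
      rw [← h4, mul_add]
      omega
    have h8 : 2 * (K * G.card) ≤ 2 * t := by
      rw [← mul_assoc]; exact h7
    omega
  obtain ⟨t₁, ht₁⟩ := Dz_fin hdz (2 * 2 ^ j)
  set N := a.u + a.S.card + m + (j + 1) + t₁ with hN
  have hprem : Prem (fam e) B m k a.S N (2 ^ j) g := by
    intro q hq
    have hA := Alw_union hk haS (q := q) (by omega) (by omega)
    obtain ⟨t₂, ht₂⟩ := Dz_fin (hβ _ hA) (2 ^ j)
    refine ⟨max N t₂, le_max_left _ _, ?_, ?_⟩
    · intro i b h
      simp at h
    · intro t F hF
      by_cases hFe : F = ∅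
      · simp [hFe]
      · obtain ⟨x, hx⟩ := Finset.nonempty_iff_ne_empty.2 hFe
        have h1 := hF x hx
        apply ht₂ t (by
          have := le_max_right N t₂
          omega)
        intro y hy
        obtain ⟨h2, h3, h4⟩ := hF y hy
        refine ⟨?_, h3⟩
        rcases h4 with h4 | h4
        · simp at h4
        · exact h4.2
  obtain ⟨q, hq, s, hs, τ, hTT, hGd⟩ := hst e B m k a.S j.unpair.1 N (2 ^ j) hk hprem
  have hA := Alw_union hk haS (q := q) (by omega) (by omega)
  refine ⟨⟨a.S ∪ Seg k q, s + τ.length, fun x => if x < s then a.f x else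
    if x < s + τ.length then τ.getD (x - s) none else fill (fam e) B m k g (a.S ∪ Seg k q) x⟩,
    ⟨hA, ?_⟩, s, q, τ, rfl, rfl, fun x => rfl, hTT, hGd, by omega, by omega, by omega, ?_⟩
  · intro x hx
    have hx' : s + τ.length ≤ x := hx
    simp only
    rw [if_neg (by omega), if_neg (by omega)]
  · intro t ht G hG
    apply ht₁ t (by omega)
    intro x hx
    exact hG x hx

theorem s_con : S_con := by
  intro fam g hst e B m k hk hβ
  -- the sequence of states
  obtain ⟨a, ha0, hstep⟩ := seqex (X := {a : St // StOk (fam e) B m k g a})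
    ⟨⟨∅, 0, fun x => fill (fam e) B m k g ∅ x⟩, ⟨⟨by simp, by simp⟩, fun x _ => rfl⟩⟩
    (fun j a b => ∃ s q τ, StStep fam (fam e) B m k g j a.1 b.1 s q τ) (by
      intro j a
      obtain ⟨b, hb, h⟩ := st_step fam g hst e B m k hk hβ j a.1 a.2
      exact ⟨⟨b, hb⟩, h⟩)
  choose s q τ hst using hstep
  set S : ℕ → Finset ℕ := fun j => (a j).1.S with hS
  set u : ℕ → ℕ := fun j => (a j).1.u with hu
  set f : ℕ → ℕ → Option ℕ := fun j => (a j).1.f with hf
  have hS0 : S 0 = ∅ := by simp [hS, ha0]
  have hf0 : ∀ x, f 0 x = fill (fam e) B m k g ∅ x := by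
    intro x; simp [hf, ha0]
  have hfu : ∀ j x, u j ≤ x → f j x = fill (fam e) B m k g (S j) x := fun j x hx =>
    (a j).2.2 x hx
  have hSs : ∀ j, S (j + 1) = S j ∪ Seg k (q j) := fun j => (hst j).1
  have hus : ∀ j, u (j + 1) = s j + (τ j).length := fun j => (hst j).2.1
  have hfs : ∀ j x, f (j + 1) x = if x < s j then f j x else
      if x < s j + (τ j).length then (τ j).getD (x - s j) none
      else fill (fam e) B m k g (S (j + 1)) x := fun j => (hst j).2.2.1
  have hTT : ∀ j, TT (fam e) B m k g (S (j + 1)) (s j) (2 ^ j) (τ j) := fun j => (hst j).2.2.2.1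
  have hGd : ∀ j, Gd (fam j.unpair.1) (fam e) B m k g (S (j + 1)) (s j) (2 ^ j) (Seg k (q j))
      (τ j) := fun j => (hst j).2.2.2.2.1
  have hle : ∀ j, u j ≤ s j := fun j => (hst j).2.2.2.2.2.1
  have hjs : ∀ j, j < s j := fun j => (hst j).2.2.2.2.2.2.1
  have hjq : ∀ j, j < q j := fun j => (hst j).2.2.2.2.2.2.2.1
  have hcount : ∀ j, ∀ t ≥ s j, ∀ G : Finset ℕ, (∀ x ∈ G, f j x = none ∧ x < t) →
      2 * 2 ^ j * G.card ≤ t := fun j => (hst j).2.2.2.2.2.2.2.2
  clear_value S u f
  clear hst ha0
  -- monotonicity
  have hss : ∀ j, s j ≤ s (j + 1) := fun j => by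
    have h1 := hle (j + 1)
    rw [hus j] at h1
    omega
  have hsmono : Monotone s := monotone_nat_of_le_succ hss
  have hSmono : Monotone S := monotone_nat_of_le_succ fun j => by
    rw [hSs j]
    exact Finset.subset_union_left
  have humono : ∀ i j, i + 1 ≤ j → u (i + 1) ≤ u j := by
    intro i j hij
    obtain ⟨d, rfl⟩ := Nat.exists_eq_add_of_le hij
    induction d with
    | zero => exact le_refl _
    | succ d ih =>
      have h1 := ih (by omega)
      have h2 := hle (i + 1 + d)
      have h3 := hus (i + 1 + d)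
      have h4 : i + 1 + (d + 1) = i + 1 + d + 1 := by omega
      rw [h4, h3]
      omega
  -- stability of values
  have hstab : ∀ j x, x < s j → ∀ d, f (j + d) x = f j x := by
    intro j x hx d
    induction d with
    | zero => rfl
    | succ d ih =>
      have h1 : j + (d + 1) = (j + d) + 1 := by omega
      rw [h1, hfs, if_pos (lt_of_lt_of_le hx (hsmono (by omega))), ih]
  set C : ℕ → Option ℕ := fun x => f (x + 1) x with hC
  have hCf : ∀ j x, x < s j → C x = f j x := by
    intro j x hx
    have h1 : x < s (x + 1) := by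
      have := hjs (x + 1)
      omega
    rcases le_total j (x + 1) with h | h
    · obtain ⟨d, hd⟩ := Nat.exists_eq_add_of_le h
      change f (x + 1) x = f j x
      rw [hd]
      exact hstab j x hx d
    · obtain ⟨d, hd⟩ := Nat.exists_eq_add_of_le h
      change f (x + 1) x = f j x
      rw [hd]
      exact (hstab (x + 1) x h1 d).symm
  -- values beyond `s i`
  have hgetD : ∀ (l : List (Option ℕ)) i b, l.getD i none = some b → l[i]? = some (some b) := by
    intro l i b h
    rw [List.getD_eq_getElem?_getD] at h
    rcases h' : l[i]? with _ | v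
    · rw [h'] at h
      simp at h
    · rw [h'] at h
      simp at h
      rw [h]
  have hval : ∀ i d x b, s i ≤ x → f (i + 1 + d) x = some b →
      DD (fam e) B m k g (S (i + 1)) x b := by
    intro i d
    induction d with
    | zero =>
      intro x b hx h
      rw [Nat.add_zero, hfs, if_neg (by omega)] at h
      split_ifs at h with h1
      · have h2 := (hTT i).1 (x - s i) b (hgetD _ _ _ h)
        rwa [Nat.add_sub_cancel' hx] at h2
      · exact fill_some h
    | succ d ih =>
      intro x b hx h
      have h0 : i + 1 + (d + 1) = (i + 1 + d) + 1 := by omega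
      rw [h0, hfs] at h
      split_ifs at h with h1 h2
      · exact ih x b hx h
      · have h3 := (hTT (i + 1 + d)).1 (x - s (i + 1 + d)) b (hgetD _ _ _ h)
        rw [Nat.add_sub_cancel' (not_lt.1 h1)] at h3
        exact DD_anti (hSmono (by omega)) h3
      · exact DD_anti (hSmono (by omega)) (fill_some h)
  have hval0 : ∀ j x b, f j x = some b → DD (fam e) B m k g ∅ x b := by
    intro j
    induction j with
    | zero =>
      intro x b h
      rw [hf0] at h
      exact fill_some h
    | succ j ih =>
      intro x b h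
      rw [hfs] at h
      split_ifs at h with h1 h2
      · exact ih x b h
      · have h3 := (hTT j).1 (x - s j) b (hgetD _ _ _ h)
        rw [Nat.add_sub_cancel' (not_lt.1 h1)] at h3
        exact DD_anti (Finset.empty_subset _) h3
      · exact DD_anti (Finset.empty_subset _) (fill_some h)
  -- counting undefined places beyond `s i`
  have hK0 : ∀ i t, ∀ F : Finset ℕ, (∀ x ∈ F, s i ≤ x ∧ x < t ∧ f (i + 1) x = none) →
      2 ^ i * F.card ≤ t := by
    intro i t F hF
    apply (hTT i).2 t F
    intro x hx
    obtain ⟨h1, h2, h3⟩ := hF x hx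
    refine ⟨h1, h2, ?_⟩
    rw [hfs, if_neg (by omega)] at h3
    split_ifs at h3 with h4
    · left
      have h5 : x - s i < (τ i).length := by omega
      rw [List.getD_eq_getElem?_getD, List.getElem?_eq_getElem h5] at h3
      rw [List.getElem?_eq_getElem h5]
      simpa using h3
    · right
      exact ⟨not_lt.1 h4, fill_none.1 h3⟩
  have hK : ∀ i d t, ∀ F : Finset ℕ, (∀ x ∈ F, s i ≤ x ∧ x < t ∧ f (i + 1 + d) x = none) →
      2 ^ i * F.card ≤ t := by
    intro i d
    induction d with
    | zero => exact hK0 i
    | succ d ih =>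
      intro t F hF
      set j := i + 1 + d with hj
      have h0 : i + 1 + (d + 1) = j + 1 := by omega
      rw [h0] at hF
      rcases le_total t (s j) with ht | ht
      · apply ih t F
        intro x hx
        obtain ⟨h1, h2, h3⟩ := hF x hx
        refine ⟨h1, h2, ?_⟩
        rw [hfs, if_pos (by omega)] at h3
        exact h3
      · have h1 : 2 * 2 ^ j * (F.filter (· < s j)).card ≤ s j := by
          apply hcount j (s j) le_rfl
          intro x hx
          rw [Finset.mem_filter] at hx
          obtain ⟨h2, h3, h4⟩ := hF x hx.1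
          rw [hfs, if_pos hx.2] at h4
          exact ⟨h4, hx.2⟩
        have h2 : 2 ^ j * (F.filter (fun x => ¬ x < s j)).card ≤ t := by
          apply hK0 j t
          intro x hx
          rw [Finset.mem_filter] at hx
          obtain ⟨h2, h3, h4⟩ := hF x hx.1
          exact ⟨not_lt.1 hx.2, h3, h4⟩
        have h3 : (F.filter (· < s j)).card + (F.filter (fun x => ¬ x < s j)).card = F.card :=
          Finset.card_filter_add_card_filter_not _
        have h4 : 2 * 2 ^ i ≤ 2 ^ j := by
          rw [← pow_succ']
          exact Nat.pow_le_pow_right (by omega) (by omega)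
        have h5 : 2 * 2 ^ i * (F.filter (fun x => ¬ x < s j)).card ≤ t :=
          le_trans (Nat.mul_le_mul_right _ h4) h2
        have h6 : 2 * 2 ^ i * (F.filter (· < s j)).card ≤ t := by
          refine le_trans (Nat.mul_le_mul_right _ ?_) (h1.trans ht)
          have : 2 ^ j ≤ 2 * 2 ^ j := by omega
          omega
        have h7 : 2 * 2 ^ i * F.card ≤ 2 * t := by
          rw [← h3, mul_add]
          omega
        have h8 : 2 * (2 ^ i * F.card) ≤ 2 * t := by
          rw [← mul_assoc]; exact h7
        omega
  -- the description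
  refine ⟨C, fun x b h => hval0 (x + 1) x b h, ?_, ?_⟩
  · apply Dz_of_fin
    intro K
    refine ⟨2 * K * s (2 * K), fun t ht G hG => ?_⟩
    set i := 2 * K with hi
    have h2i : i ≤ 2 ^ i := Nat.lt_two_pow_self.le
    -- choose `j ≥ i + 1` with `t ≤ s j`
    have h1 : i * (G.filter (s i ≤ ·)).card ≤ t := by
      refine le_trans (Nat.mul_le_mul_right _ h2i) ?_
      apply hK i t t
      intro x hx
      rw [Finset.mem_filter] at hx
      obtain ⟨h2, h3⟩ := hG x hx.1
      refine ⟨hx.2, h3, ?_⟩
      rw [← hCf (i + 1 + t) x (by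
        have := hjs (i + 1 + t)
        omega)]
      exact h2
    have h3 : (G.filter (fun x => ¬ s i ≤ x)).card ≤ s i := by
      have : G.filter (fun x => ¬ s i ≤ x) ⊆ Finset.range (s i) := by
        intro x hx
        rw [Finset.mem_filter] at hx
        rw [Finset.mem_range]
        omega
      simpa using Finset.card_le_card this
    have h4 : (G.filter (s i ≤ ·)).card + (G.filter (fun x => ¬ s i ≤ x)).card = G.card :=
      Finset.card_filter_add_card_filter_not _
    have h6 : i * (G.filter (fun x => ¬ s i ≤ x)).card ≤ i * s i :=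
      Nat.mul_le_mul_left _ h3
    have h7 : i * G.card ≤ 2 * t := by
      rw [← h4, mul_add]
      omega
    have h8 : 2 * (K * G.card) ≤ 2 * t := by
      rw [← mul_assoc]; exact h7
    omega
  · rintro e' ⟨hsv, hdz⟩
    obtain ⟨t₀, ht₀⟩ := Dz_fin hdz (4 * k + 2)
    set j := Nat.pair e' t₀ with hj
    have hje : j.unpair.1 = e' := by rw [hj, Nat.unpair_pair]
    have hjt : t₀ ≤ j := Nat.right_le_pair _ _
    have hqj := hjq j
    -- the prefix of `C`
    have hCτ : pre C (s j) ++ τ j = pre C (u (j + 1)) := by
      rw [hus j, ← pre_append]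
      congr 1
      apply List.ext_getElem?
      intro x
      by_cases hx : x < (τ j).length
      · rw [List.getElem?_map, List.getElem?_range hx]
        simp only [Option.map_some]
        rw [hCf (j + 1) (s j + x) (by
          have h1 := hle (j + 1)
          rw [hus j] at h1
          omega), hfs, if_neg (by omega), if_pos (by omega), Nat.add_sub_cancel_left,
          List.getD_eq_getElem?_getD, List.getElem?_eq_getElem hx]
        rfl
      · rw [List.getElem?_eq_none (not_lt.1 hx), List.getElem?_eq_none]
        simpa using hx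
    have hall : ∀ n ∈ Seg k (q j), ¬ Rel (fam e') C n (g n) := by
      intro n hn hrel
      have hg := hGd j (pre C (s j)) (pre_length _ _) (by
        intro c hc
        unfold pre at hc
        rw [List.mem_map] at hc
        obtain ⟨x, hx, rfl⟩ := hc
        rcases hv : C x with _ | b
        · left; rfl
        · have := (hval0 (x + 1) x b hv).1
          interval_cases b <;> simp) n hn
      rw [hje] at hg
      rcases hg with ⟨y, hy, hr⟩ | hg
      · rw [hCτ] at hr
        exact hy (hsv n y (g n) (Rel_of_RelL hr) hrel)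
      · obtain ⟨s₀, hs₀⟩ := hrel
        -- choose a late stage
        set d := s₀ with hd
        set j' := j + 1 + (d + 1) with hj'
        have hu1 : s₀ ≤ u j' := by
          have h1 : j' = (j + 1 + d) + 1 := by omega
          rw [h1, hus]
          have := hjs (j + 1 + d)
          omega
        have hu2 : u (j + 1) ≤ u j' := humono j j' (by omega)
        have hu3 : s j ≤ u j' := by
          have := hus j
          omega
        set τ' : List (Option ℕ) := (List.range (u j' - s j)).map (fun x => C (s j + x)) with hτ'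
        have hCτ' : pre C (s j) ++ τ' = pre C (u j') := by
          rw [hτ', pre_append, Nat.add_sub_cancel' hu3]
        have hpref : τ j <+: τ' := by
          have h1 : pre C (s j) ++ τ j <+: pre C (s j) ++ τ' := by
            rw [hCτ, hCτ']
            exact pre_prefix C hu2
          exact (List.prefix_append_right_inj _).1 h1
        have hget : ∀ x v, τ'[x]? = some v → s j + x < u j' ∧ C (s j + x) = v := by
          intro x v h
          rw [hτ'] at h
          by_cases hx : x < u j' - s j
          · rw [List.getElem?_map, List.getElem?_range hx] at h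
            simp at h
            exact ⟨by omega, h⟩
          · rw [List.getElem?_eq_none (by simpa using hx)] at h
            simp at h
        have hTT' : TT (fam e) B m k g (S (j + 1)) (s j) (2 ^ j) τ' := by
          constructor
          · intro x b h
            obtain ⟨h1, h2⟩ := hget x _ h
            rw [hCf j' (s j + x) (lt_of_lt_of_le h1 (hle j'))] at h2
            exact hval j (d + 1) _ b (by omega) h2
          · intro t F hF
            apply hK j (d + 1) t F
            intro x hx
            obtain ⟨h1, h2, h3⟩ := hF x hx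
            refine ⟨h1, h2, ?_⟩
            rcases h3 with h3 | ⟨h3, h4⟩
            · obtain ⟨h5, h6⟩ := hget _ _ h3
              rw [Nat.add_sub_cancel' h1] at h5 h6
              rw [← hCf j' x (lt_of_lt_of_le h5 (hle j'))]
              exact h6
            · have h5 : u j' ≤ x := by
                have : τ'.length = u j' - s j := by simp [hτ']
                omega
              change f j' x = none
              rw [hfu j' x h5, fill_none]
              intro b hb
              exact h4 b (DD_anti (hSmono (by omega)) hb)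
        refine hg τ' hpref hTT' ⟨pre C s₀, ?_, hs₀⟩
        rw [hCτ']
        exact pre_prefix C hu1
    have hfin := ht₀ ((4 * k + 1) * q j) (by nlinarith) (Seg k (q j)) (by
      intro n hn
      exact ⟨hall n hn, (Finset.mem_Ico.1 hn).2⟩)
    have hcard : (Seg k (q j)).card = q j := by
      simp only [Seg, Nat.card_Ico]
      have : (4 * k + 1) * q j = 4 * k * q j + q j := by ring
      omega
    rw [hcard] at hfin
    nlinarith

end R624FS
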