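import Pool.Agent.R624.FS.EncComp

/-!
Computability of the decoder.
-/

namespace R624FS.YD

open Primrec R624FS R624FS.YC

variable {α : Type} [Primcodable α]

/-- the function given by a list -/
abbrev Dl (σ : List ℕ) : ℕ → ℕ := fun x => σ.getD x 0

lemma ico_card (l h : ℕ) (p : ℕ → Prop) [DecidablePred p] :
    ((Finset.range h).filter (fun x => l ≤ x ∧ p x)).card = ((Finset.Ico l h).filter p).card := by
  congr 1
  ext x
  simp only [Finset.mem_filter, Finset.mem_range, Finset.mem_Ico]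
  tauto

lemma p_ones {σ : α → List ℕ} {s : α → ℕ} (hσ : Primrec σ) (hs : Primrec s) :
    Primrec fun a => ones (Dl (σ a)) (s a) := by
  refine (cnt (p := fun a x => lo (s a) ≤ x ∧ (x % 2 = 0 ∧ (σ a).getD x 0 = 1)) (p_hi hs)
    ?_).of_eq (fun a => ?_)
  · exact PrimrecPred.and (le' (p_lo (hs.comp fst)) snd)
      (PrimrecPred.and (eq' (md snd (const 2)) (const 0))
        (eq' (gt (hσ.comp fst) snd) (const 1)))
  · rw [ico_card]; rfl

lemma p_sco {σ : α → List ℕ} {k s n v : α → ℕ} (hσ : Primrec σ) (hk : Primrec k)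
    (hs : Primrec s) (hn : Primrec n) (hv : Primrec v) (b : Bool) :
    Primrec fun a => sco (Dl (σ a)) (k a) (s a) (n a) (v a) b := by
  refine (cnt (p := fun a x => lo (s a) ≤ x ∧ (x % 2 = 1 ∧ x / 2 ^ (s a + 2) % 2 ^ k a = n a ∧
    (σ a).getD x 0 = 1 ∧ x.testBit (v a + 1) = b)) (p_hi hs) ?_).of_eq (fun a => ?_)
  · exact PrimrecPred.and (le' (p_lo (hs.comp fst)) snd)
      (PrimrecPred.and (eq' (md snd (const 2)) (const 1))
        (PrimrecPred.and (eq' (md (dv snd (pw (const 2) (ad (hs.comp fst) (const 2))))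
            (pw (const 2) (hk.comp fst))) (hn.comp fst))
          (PrimrecPred.and (eq' (gt (hσ.comp fst) snd) (const 1))
            (eq' (tb snd (succ.comp (hv.comp fst))) (const b)))))
  · rw [ico_card]; rfl

lemma p_low {σ : α → List ℕ} {j k i : α → ℕ} (hσ : Primrec σ) (hj : Primrec j)
    (hk : Primrec k) (hi : Primrec i) :
    PrimrecPred fun a => low (Dl (σ a)) (j a) (k a) (i a) := by
  unfold low
  exact lt' (ml (pw (const 2) (succ.comp hj)) (p_ones hσ (pr hk hi)))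
    (sb (p_hi (pr hk hi)) (p_lo (pr hk hi)))

lemma p_shown {σ : α → List ℕ} {j k i n v : α → ℕ} (hσ : Primrec σ) (hj : Primrec j)
    (hk : Primrec k) (hi : Primrec i) (hn : Primrec n) (hv : Primrec v) :
    PrimrecPred fun a => shown (Dl (σ a)) (j a) (k a) (i a) (n a) (v a) := by
  unfold shown
  exact lt' (sb (p_hi (pr hk hi)) (p_lo (pr hk hi)))
    (ml (pw (const 2) (ad (ad hk hj) (const 4)))
      (sb (p_sco hσ hk (pr hk hi) hn hv true) (p_sco hσ hk (pr hk hi) hn hv false)))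

open Classical in
/-- bounded search for the least element -/
noncomputable def mn (p : ℕ → Prop) (N : ℕ) : ℕ := Nat.findGreatest (fun y => ∀ z < y, ¬ p z) N

lemma mn_eq {p : ℕ → Prop} {N m : ℕ} (h1 : p m) (h2 : m ≤ N) (h3 : ∀ z < m, ¬ p z) :
    mn p N = m := by
  classical
  unfold mn
  rw [Nat.findGreatest_eq_iff]
  exact ⟨h2, fun _ => h3, fun n hn _ h => h m hn h1⟩

lemma p_mn {f : α → ℕ} {R : α → ℕ → Prop} (hf : Primrec f) (hR : PrimrecRel R) :
    Primrec fun a => mn (R a) (f a) := by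
  classical
  unfold mn
  refine nat_findGreatest hf (p := fun a y => ∀ z < y, ¬ R a z) ?_
  refine ball (α := α × ℕ) (R := fun q z => ¬ R q.1 z) snd ?_
  exact PrimrecPred.not (hR.comp (fst.comp fst) snd)

/-- first visit -/
noncomputable def visB (σ : List ℕ) (j k : ℕ) : ℕ :=
  mn (fun i => 1 ≤ i ∧ low (Dl σ) j k i) σ.length

/-- something is shown -/
def hasB (σ : List ℕ) (k n j : ℕ) : Prop :=
  ∃ v < visB σ j k - 1 + 1, shown (Dl σ) j k (visB σ j k - 1) n v

/-- the value shown -/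
noncomputable def valB (σ : List ℕ) (k n j : ℕ) : ℕ :=
  mn (fun v => shown (Dl σ) j k (visB σ j k - 1) n v) (visB σ j k - 1)

open Classical in
/-- the decoder on lists -/
noncomputable def decB (σ : List ℕ) (m : ℕ) : ℕ :=
  if ∃ j < Nat.log 2 m + 1, 1 ≤ j ∧ hasB σ (Nat.log 2 m) (m - 2 ^ Nat.log 2 m) j then
    valB σ (Nat.log 2 m) (m - 2 ^ Nat.log 2 m)
      (mn (fun j => 1 ≤ j ∧ hasB σ (Nat.log 2 m) (m - 2 ^ Nat.log 2 m) j) (Nat.log 2 m))
  else 0

/-- the list is long enough -/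
def okB (σ : List ℕ) (m : ℕ) : Prop :=
  ∀ j < Nat.log 2 m + 1, 1 ≤ j → ∃ i < σ.length, 1 ≤ i ∧
    hi (Nat.pair (Nat.log 2 m) i) ≤ σ.length ∧ low (Dl σ) j (Nat.log 2 m) i

lemma p_vis {σ : α → List ℕ} {j k : α → ℕ} (hσ : Primrec σ) (hj : Primrec j)
    (hk : Primrec k) : Primrec fun a => visB (σ a) (j a) (k a) := by
  unfold visB
  refine p_mn (R := fun a i => 1 ≤ i ∧ low (Dl (σ a)) (j a) (k a) i) (list_length.comp hσ) ?_
  exact PrimrecPred.and (le' (const 1) snd)
    (p_low (hσ.comp fst) (hj.comp fst) (hk.comp fst) snd)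

lemma p_has {σ : α → List ℕ} {k n j : α → ℕ} (hσ : Primrec σ) (hk : Primrec k)
    (hn : Primrec n) (hj : Primrec j) : PrimrecPred fun a => hasB (σ a) (k a) (n a) (j a) := by
  unfold hasB
  refine bex (R := fun a v => shown (Dl (σ a)) (j a) (k a) (visB (σ a) (j a) (k a) - 1) (n a) v)
    (succ.comp (sb (p_vis hσ hj hk) (const 1))) ?_
  exact p_shown (hσ.comp fst) (hj.comp fst) (hk.comp fst)
    (sb (p_vis (hσ.comp fst) (hj.comp fst) (hk.comp fst)) (const 1)) (hn.comp fst) snd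

lemma p_val {σ : α → List ℕ} {k n j : α → ℕ} (hσ : Primrec σ) (hk : Primrec k)
    (hn : Primrec n) (hj : Primrec j) : Primrec fun a => valB (σ a) (k a) (n a) (j a) := by
  unfold valB
  refine p_mn (R := fun a v => shown (Dl (σ a)) (j a) (k a) (visB (σ a) (j a) (k a) - 1) (n a) v)
    (sb (p_vis hσ hj hk) (const 1)) ?_
  exact p_shown (hσ.comp fst) (hj.comp fst) (hk.comp fst)
    (sb (p_vis (hσ.comp fst) (hj.comp fst) (hk.comp fst)) (const 1)) (hn.comp fst) snd

lemma p_dec : Primrec fun q : List ℕ × ℕ => decB q.1 q.2 := by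
  classical
  have hk : Primrec fun q : List ℕ × ℕ => Nat.log 2 q.2 := lg snd
  have hn : Primrec fun q : List ℕ × ℕ => q.2 - 2 ^ Nat.log 2 q.2 :=
    sb snd (pw (const 2) hk)
  have hR : PrimrecRel fun (q : List ℕ × ℕ) (j : ℕ) =>
      1 ≤ j ∧ hasB q.1 (Nat.log 2 q.2) (q.2 - 2 ^ Nat.log 2 q.2) j :=
    PrimrecPred.and (le' (const 1) snd)
      (p_has (fst.comp fst) (hk.comp fst) (hn.comp fst) snd)
  unfold decB
  refine Primrec.ite ?_ ?_ (const 0)
  · exact bex (succ.comp hk) hR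
  · exact p_val fst hk hn (p_mn hk hR)

lemma p_ok : PrimrecPred fun q : List ℕ × ℕ => okB q.1 q.2 := by
  have hk : Primrec fun q : List ℕ × ℕ => Nat.log 2 q.2 := lg snd
  unfold okB
  refine ball (R := fun (q : List ℕ × ℕ) (j : ℕ) => 1 ≤ j → ∃ i < q.1.length, 1 ≤ i ∧
    hi (Nat.pair (Nat.log 2 q.2) i) ≤ q.1.length ∧ low (Dl q.1) j (Nat.log 2 q.2) i)
    (succ.comp hk) ?_
  have h1 : PrimrecPred fun r : (List ℕ × ℕ) × ℕ => ¬ (1 ≤ r.2) :=
    PrimrecPred.not (le' (const 1) snd)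
  have h2 : PrimrecPred fun r : (List ℕ × ℕ) × ℕ => ∃ i < r.1.1.length, 1 ≤ i ∧
      hi (Nat.pair (Nat.log 2 r.1.2) i) ≤ r.1.1.length ∧ low (Dl r.1.1) r.2 (Nat.log 2 r.1.2) i := by
    refine bex (R := fun (r : (List ℕ × ℕ) × ℕ) (i : ℕ) => 1 ≤ i ∧
      hi (Nat.pair (Nat.log 2 r.1.2) i) ≤ r.1.1.length ∧ low (Dl r.1.1) r.2 (Nat.log 2 r.1.2) i)
      (list_length.comp (fst.comp fst)) ?_
    have hk2 : Primrec fun t : ((List ℕ × ℕ) × ℕ) × ℕ => Nat.log 2 t.1.1.2 :=
      lg (snd.comp (fst.comp fst))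
    have hs2 : Primrec fun t : ((List ℕ × ℕ) × ℕ) × ℕ => t.1.1.1 := fst.comp (fst.comp fst)
    exact PrimrecPred.and (le' (const 1) snd)
      (PrimrecPred.and (le' (p_hi (pr hk2 snd)) (list_length.comp hs2))
        (p_low hs2 (snd.comp fst) hk2 snd))
  exact (PrimrecPred.or h1 h2).of_eq (fun r => by
    constructor
    · rintro (h | h) h3
      · exact absurd h3 h
      · exact h
    · intro h
      by_cases h3 : 1 ≤ r.2
      · exact Or.inr (h h3)
      · exact Or.inl h3)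

/-! ### locality -/

lemma ones_congr {D D' : ℕ → ℕ} {s : ℕ} (h : ∀ x < hi s, D x = D' x) : ones D s = ones D' s := by
  unfold ones
  congr 1
  apply Finset.filter_congr
  intro x hx
  rw [Finset.mem_Ico] at hx
  rw [h x hx.2]

lemma sco_congr {D D' : ℕ → ℕ} {s : ℕ} (h : ∀ x < hi s, D x = D' x) (k n v : ℕ) (b : Bool) :
    sco D k s n v b = sco D' k s n v b := by
  unfold sco
  congr 1
  apply Finset.filter_congr
  intro x hx
  rw [Finset.mem_Ico] at hx
  rw [h x hx.2]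

lemma low_congr {D D' : ℕ → ℕ} {k i : ℕ} (h : ∀ x < hi (Nat.pair k i), D x = D' x) (j : ℕ) :
    low D j k i ↔ low D' j k i := by
  unfold low
  rw [ones_congr h]

lemma shown_congr {D D' : ℕ → ℕ} {k i : ℕ} (h : ∀ x < hi (Nat.pair k i), D x = D' x)
    (j n v : ℕ) : shown D j k i n v ↔ shown D' j k i n v := by
  unfold shown
  rw [sco_congr h, sco_congr h]

lemma hi_mono {k i i' : ℕ} (h : i ≤ i') : hi (Nat.pair k i) ≤ hi (Nat.pair k i') := by
  have h1 : Nat.pair k i ≤ Nat.pair k i' := by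
    rcases Nat.eq_or_lt_of_le h with rfl | h2
    · exact le_rfl
    · exact (Nat.pair_lt_pair_right k h2).le
  unfold hi
  apply Nat.pow_le_pow_right (by norm_num)
  apply Nat.mul_le_mul_left
  exact Nat.pow_le_pow_left (by omega) 2

lemma main {D : ℕ → ℕ} {s m : ℕ} (hok : okB (pre D s) m) : decB (pre D s) m = dec D m := by
  classical
  have hloc : ∀ t ≤ s, ∀ x < t, (Dl (pre D s)) x = D x := fun t ht x hx =>
    pre_getD D s x (by omega)
  -- the visits
  have hvis : ∀ j, 1 ≤ j → j ≤ Nat.log 2 m →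
      visB (pre D s) j (Nat.log 2 m) = vis D j (Nat.log 2 m) ∧
      hi (Nat.pair (Nat.log 2 m) (vis D j (Nat.log 2 m) - 1)) ≤ s := by
    intro j hj1 hj2
    obtain ⟨i0, hi0, hi1, hi2, hi3⟩ := hok j (by omega) hj1
    rw [pre_length] at hi0 hi2
    rw [low_congr (hloc _ hi2)] at hi3
    have hex : ∃ i, 1 ≤ i ∧ low D j (Nat.log 2 m) i := ⟨i0, hi1, hi3⟩
    have hv : vis D j (Nat.log 2 m) = Nat.find hex := by
      unfold vis
      rw [dif_pos hex]
    have hle : Nat.find hex ≤ i0 := Nat.find_min' hex ⟨hi1, hi3⟩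
    have hspec := Nat.find_spec hex
    refine ⟨?_, ?_⟩
    · rw [hv]
      apply mn_eq
      · refine ⟨hspec.1, ?_⟩
        rw [low_congr (hloc _ ((hi_mono hle).trans hi2))]
        exact hspec.2
      · rw [pre_length]; omega
      · rintro z hz ⟨hz1, hz2⟩
        rw [low_congr (hloc _ ((hi_mono (by omega)).trans hi2))] at hz2
        exact Nat.find_min hex hz ⟨hz1, hz2⟩
    · rw [hv]
      exact (hi_mono (by omega)).trans hi2
  have hsh : ∀ j, 1 ≤ j → j ≤ Nat.log 2 m → ∀ n v,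
      (shown (Dl (pre D s)) j (Nat.log 2 m) (visB (pre D s) j (Nat.log 2 m) - 1) n v ↔
        shown D j (Nat.log 2 m) (vis D j (Nat.log 2 m) - 1) n v) := by
    intro j hj1 hj2 n v
    obtain ⟨h1, h2⟩ := hvis j hj1 hj2
    rw [h1, shown_congr (hloc _ h2)]
  have hrd : ∀ j, 1 ≤ j → j ≤ Nat.log 2 m → ∀ n,
      (hasB (pre D s) (Nat.log 2 m) n j ↔ (rd D (Nat.log 2 m) n j).isSome) ∧
      (hasB (pre D s) (Nat.log 2 m) n j →
        (rd D (Nat.log 2 m) n j).getD 0 = valB (pre D s) (Nat.log 2 m) n j) := by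
    intro j hj1 hj2 n
    have hiff : hasB (pre D s) (Nat.log 2 m) n j ↔
        ∃ v, v ≤ vis D j (Nat.log 2 m) - 1 ∧ shown D j (Nat.log 2 m)
          (vis D j (Nat.log 2 m) - 1) n v := by
      unfold hasB
      constructor
      · rintro ⟨v, hv1, hv2⟩
        rw [hsh j hj1 hj2] at hv2
        rw [(hvis j hj1 hj2).1] at hv1
        exact ⟨v, by omega, hv2⟩
      · rintro ⟨v, hv1, hv2⟩
        refine ⟨v, ?_, ?_⟩
        · rw [(hvis j hj1 hj2).1]; omega
        · rw [hsh j hj1 hj2]; exact hv2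
    constructor
    · rw [hiff]
      unfold rd
      by_cases h : ∃ v, v ≤ vis D j (Nat.log 2 m) - 1 ∧ shown D j (Nat.log 2 m)
          (vis D j (Nat.log 2 m) - 1) n v
      · rw [dif_pos h]; simp [h]
      · rw [dif_neg h]; simp only [h, Option.isSome_none, Bool.false_eq_true]
    · intro h
      rw [hiff] at h
      unfold rd
      rw [dif_pos h, Option.getD_some]
      symm
      have hspec := Nat.find_spec h
      apply mn_eq
      · rw [hsh j hj1 hj2]
        exact hspec.2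
      · rw [(hvis j hj1 hj2).1]
        exact hspec.1
      · intro z hz h2
        rw [hsh j hj1 hj2] at h2
        exact Nat.find_min h hz ⟨by omega, h2⟩
  unfold decB dec
  by_cases h : ∃ j, 1 ≤ j ∧ j ≤ Nat.log 2 m ∧
      (rd D (Nat.log 2 m) (m - 2 ^ Nat.log 2 m) j).isSome
  · rw [dif_pos h]
    have hspec := Nat.find_spec h
    have hb : hasB (pre D s) (Nat.log 2 m) (m - 2 ^ Nat.log 2 m) (Nat.find h) :=
      (hrd _ hspec.1 hspec.2.1 _).1.mpr hspec.2.2
    rw [if_pos ⟨Nat.find h, by omega, hspec.1, hb⟩]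
    rw [(hrd _ hspec.1 hspec.2.1 _).2 hb]
    congr 1
    apply mn_eq
    · exact ⟨hspec.1, hb⟩
    · exact hspec.2.1
    · rintro z hz ⟨hz1, hz2⟩
      have hzk : z ≤ Nat.log 2 m := by omega
      exact Nat.find_min h hz ⟨hz1, hzk, (hrd z hz1 hzk _).1.mp hz2⟩
  · rw [dif_neg h, if_neg]
    rintro ⟨j, hj1, hj2, hj3⟩
    exact h ⟨j, hj2, by omega, (hrd j hj2 (by omega) _).1.mp hj3⟩

lemma exists_ok {D : ℕ → ℕ} (hD : ∀ j k, ∃ i, 1 ≤ i ∧ low D j k i) (m : ℕ) :
    ∃ s, okB (pre D s) m := by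
  choose i hi1 hi2 using hD
  set k := Nat.log 2 m with hk
  refine ⟨∑ j ∈ Finset.range (k + 1), (hi (Nat.pair k (i j k)) + i j k + 1), ?_⟩
  intro j hj1 hj2
  have hle : hi (Nat.pair k (i j k)) + i j k + 1 ≤
      ∑ j ∈ Finset.range (k + 1), (hi (Nat.pair k (i j k)) + i j k + 1) :=
    Finset.single_le_sum (f := fun j => hi (Nat.pair k (i j k)) + i j k + 1)
      (fun _ _ => Nat.zero_le _) (Finset.mem_range.mpr hj1)
  rw [← hk]
  refine ⟨i j k, ?_, hi1 j k, ?_, ?_⟩
  · rw [pre_length]; omega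
  · rw [pre_length]; omega
  · rw [low_congr (D' := D) (fun x hx => pre_getD D _ x (by omega))]
    exact hi2 j k

end R624FS.YD

namespace R624FS

open Primrec YC YD

theorem s_deccomp : S_deccomp := by
  classical
  refine ⟨fun σ m => if okB σ m then some (decB σ m) else none, ?_, ?_⟩
  · apply Primrec₂.to_comp
    exact Primrec.ite p_ok (option_some.comp p_dec) (const none)
  · intro D hD m
    have hex := exists_ok hD m
    refine ⟨Nat.find hex, ?_, ?_⟩
    · beta_reduce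
      rw [if_pos (Nat.find_spec hex), main (Nat.find_spec hex)]
    · intro s' hs'
      beta_reduce
      rw [if_neg (Nat.find_min hex hs')]

end R624FS
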