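import Pool.Agent.R624.FS.YStmts

/-!
`s_vis` and `s_decdz`: decoding is correct on a set of density one.
-/

open Finset

namespace R624FS

/-! ### arithmetic of the intervals -/

lemma lo_pos (s : ℕ) : 0 < lo s := by unfold lo; positivity

lemma lo_mul (s : ℕ) : 16 * lo s ≤ hi s := by
  unfold lo hi
  have h1 : 4 * (s + 1) ^ 2 = 4 * s ^ 2 + (8 * s + 4) := by ring
  rw [h1, pow_add, mul_comm]
  refine Nat.mul_le_mul_left _ ?_
  calc 16 = 2 ^ 4 := by norm_num
    _ ≤ 2 ^ (8 * s + 4) := Nat.pow_le_pow_right (by norm_num) (by omega)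

lemma hi_le (s : ℕ) : hi s ≤ 2 * (hi s - lo s) := by
  have := lo_mul s; omega

lemma len_pos (s : ℕ) : 0 < hi s - lo s := by
  have := lo_mul s; have := lo_pos s; omega

lemma le_hi (s : ℕ) : s ≤ hi s := by
  unfold hi
  have h1 : s ≤ 4 * (s + 1) ^ 2 := by nlinarith
  exact h1.trans (Nat.lt_two_pow_self).le

lemma scl_eq {s x : ℕ} (h1 : lo s ≤ x) (h2 : x < hi s) : scl x = s := by
  unfold scl
  have hx : x ≠ 0 := by have := lo_pos s; omega
  have a1 : 4 * s ^ 2 ≤ Nat.log 2 x := Nat.le_log_of_pow_le (by norm_num) h1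
  have a2 : Nat.log 2 x < 4 * (s + 1) ^ 2 := Nat.log_lt_of_lt_pow hx h2
  have b1 : s ^ 2 ≤ Nat.log 2 x / 4 := by omega
  have b2 : Nat.log 2 x / 4 < (s + 1) ^ 2 := by omega
  refine le_antisymm ?_ (Nat.le_sqrt'.mpr b1)
  exact Nat.lt_succ_iff.mp (Nat.sqrt_lt'.mpr b2)

/-! ### flipping a bit -/

/-- flip bit `w` -/
def flp (w x : ℕ) : ℕ := x ^^^ 2 ^ w

lemma flp_flp (w x : ℕ) : flp w (flp w x) = x := by
  simp [flp]

lemma testBit_flp (w x w' : ℕ) : (flp w x).testBit w' = (x.testBit w' ^^ decide (w = w')) := by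
  simp [flp, Nat.testBit_xor, Nat.testBit_two_pow]

lemma testBit_flp_ne {w x w' : ℕ} (h : w ≠ w') : (flp w x).testBit w' = x.testBit w' := by
  simp [testBit_flp, h]

lemma testBit_flp_self (w x : ℕ) : (flp w x).testBit w = !x.testBit w := by
  simp [testBit_flp]

lemma flp_div {w e : ℕ} (h : w < e) (x : ℕ) : flp w x / 2 ^ e = x / 2 ^ e := by
  apply Nat.eq_of_testBit_eq
  intro i
  rw [Nat.testBit_div_two_pow, Nat.testBit_div_two_pow, testBit_flp_ne (by omega)]

lemma odd_iff (x : ℕ) : x % 2 = 1 ↔ x.testBit 0 = true := by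
  rw [Nat.testBit_zero]; simp

lemma even_iff (x : ℕ) : x % 2 = 0 ↔ x.testBit 0 = false := by
  rw [Nat.testBit_zero]; simp

lemma half (I : Finset ℕ) (w : ℕ) (hI : ∀ x ∈ I, flp w x ∈ I) (p : ℕ → Prop) [DecidablePred p]
    (hp : ∀ x ∈ I, p x → p (flp w x)) (b : Bool) :
    2 * (I.filter fun x => p x ∧ x.testBit w = b).card = (I.filter p).card := by
  have h1 : (I.filter fun x => p x ∧ x.testBit w = b).card =
      (I.filter fun x => p x ∧ ¬ x.testBit w = b).card := by
    refine Finset.card_nbij' (flp w) (flp w) ?_ ?_ ?_ ?_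
    · intro x hx
      simp only [coe_filter, Set.mem_ofPred_eq] at hx ⊢
      refine ⟨hI x hx.1, hp x hx.1 hx.2.1, ?_⟩
      rw [testBit_flp_self, hx.2.2]
      simp
    · intro x hx
      simp only [coe_filter, Set.mem_ofPred_eq] at hx ⊢
      refine ⟨hI x hx.1, hp x hx.1 hx.2.1, ?_⟩
      rw [testBit_flp_self]
      have := hx.2.2
      revert this
      cases x.testBit w <;> cases b <;> simp
    · intro x _; exact flp_flp w x
    · intro x _; exact flp_flp w x
  have h2 : (I.filter p).card = (I.filter fun x => p x ∧ x.testBit w = b).card +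
      (I.filter fun x => p x ∧ ¬ x.testBit w = b).card := by
    rw [← Finset.filter_filter, ← Finset.filter_filter,
      Finset.card_filter_add_card_filter_not]
  omega

lemma card_or (I : Finset ℕ) (P₁ P₂ P₃ : ℕ → Prop) [DecidablePred P₁] [DecidablePred P₂]
    [DecidablePred P₃] (h : ∀ x ∈ I, P₁ x → P₂ x ∨ P₃ x) :
    (I.filter P₁).card ≤ (I.filter P₂).card + (I.filter P₃).card := by
  classical
  refine le_trans (Finset.card_le_card ?_) (Finset.card_union_le _ _)
  intro x hx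
  rw [mem_filter] at hx
  rw [mem_union, mem_filter, mem_filter]
  rcases h x hx.1 hx.2 with h | h
  · exact Or.inl ⟨hx.1, h⟩
  · exact Or.inr ⟨hx.1, h⟩

lemma card_digits {A B T M : ℕ} (hT : 0 < T) (hM : 0 < M) (C : Finset ℕ) (hC : ∀ c ∈ C, c < T) :
    ((Ico (A * (T * M)) (B * (T * M))).filter fun x => x / M % T ∈ C).card =
      C.card * (M * (B - A)) := by
  have h : ((Ico (A * (T * M)) (B * (T * M))).filter fun x => x / M % T ∈ C).card =
      (C ×ˢ (range M ×ˢ Ico A B)).card := by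
    refine Finset.card_nbij' (fun x => (x / M % T, (x % M, x / M / T)))
      (fun p => (p.2.2 * T + p.1) * M + p.2.1) ?_ ?_ ?_ ?_
    · intro x hx
      simp only [coe_filter, Set.mem_ofPred_eq, mem_Ico] at hx
      simp only [coe_product, Set.mem_prod, mem_coe, mem_range, mem_Ico]
      refine ⟨hx.2, Nat.mod_lt _ hM, ?_, ?_⟩
      · rw [Nat.le_div_iff_mul_le hT, Nat.le_div_iff_mul_le hM, mul_assoc]
        exact hx.1.1
      · rw [Nat.div_lt_iff_lt_mul hT, Nat.div_lt_iff_lt_mul hM, mul_assoc]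
        exact hx.1.2
    · rintro ⟨c, z, u⟩ hp
      simp only [coe_product, Set.mem_prod, mem_coe, mem_range, mem_Ico] at hp
      obtain ⟨hc, hz, hu1, hu2⟩ := hp
      have hcT := hC c hc
      simp only [coe_filter, Set.mem_ofPred_eq, mem_Ico]
      have e1 : ((u * T + c) * M + z) / M = u * T + c := by
        rw [Nat.mul_comm, Nat.mul_add_div hM, Nat.div_eq_of_lt hz, add_zero]
      have e2 : (u * T + c) % T = c := by
        rw [Nat.mul_comm, Nat.mul_add_mod, Nat.mod_eq_of_lt hcT]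
      refine ⟨⟨?_, ?_⟩, ?_⟩
      · calc A * (T * M) ≤ u * (T * M) := Nat.mul_le_mul_right _ hu1
          _ = (u * T) * M := by ring
          _ ≤ (u * T + c) * M := Nat.mul_le_mul_right _ (by omega)
          _ ≤ (u * T + c) * M + z := by omega
      · calc (u * T + c) * M + z < (u * T + c) * M + M := by omega
          _ = (u * T + c + 1) * M := by ring
          _ ≤ (u * T + T) * M := Nat.mul_le_mul_right _ (by omega)
          _ = (u + 1) * (T * M) := by ring
          _ ≤ B * (T * M) := Nat.mul_le_mul_right _ (by omega)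
      · rw [e1, e2]; exact hc
    · intro x _
      simp only
      rw [Nat.mul_comm (x / M / T) T, Nat.div_add_mod, Nat.mul_comm, Nat.div_add_mod]
    · rintro ⟨c, z, u⟩ hp
      simp only [coe_product, Set.mem_prod, mem_coe, mem_range, mem_Ico] at hp
      obtain ⟨hc, hz, hu1, hu2⟩ := hp
      have hcT := hC c hc
      have e1 : ((u * T + c) * M + z) / M = u * T + c := by
        rw [Nat.mul_comm, Nat.mul_add_div hM, Nat.div_eq_of_lt hz, add_zero]
      have e2 : (u * T + c) % T = c := by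
        rw [Nat.mul_comm, Nat.mul_add_mod, Nat.mod_eq_of_lt hcT]
      have e3 : ((u * T + c) * M + z) % M = z := by
        rw [Nat.mul_comm, Nat.mul_add_mod, Nat.mod_eq_of_lt hz]
      have e4 : (u * T + c) / T = u := by
        rw [Nat.mul_comm, Nat.mul_add_div hT, Nat.div_eq_of_lt hcT, add_zero]
      simp only
      rw [e1, e2, e3, e4]
  rw [h, card_product, card_product, card_range, Nat.card_Ico]

/-! ### the true counts -/

/-- the interval of scale `s` -/
def II (s : ℕ) : Finset ℕ := Ico (lo s) (hi s)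

lemma exists_AB {s k : ℕ} (hk : k ≤ s) (hs : 2 ≤ s) : ∃ A B : ℕ,
    lo s = A * (2 ^ k * 2 ^ k * 2 ^ (s + 2)) ∧ hi s = B * (2 ^ k * 2 ^ k * 2 ^ (s + 2)) := by
  have e1 : k + k + (s + 2) ≤ 4 * s ^ 2 := by nlinarith
  have e2 : k + k + (s + 2) ≤ 4 * (s + 1) ^ 2 := by nlinarith
  refine ⟨2 ^ (4 * s ^ 2 - (k + k + (s + 2))), 2 ^ (4 * (s + 1) ^ 2 - (k + k + (s + 2))), ?_, ?_⟩
  · unfold lo
    rw [← pow_add, ← pow_add, ← pow_add]
    congr 1; omega
  · unfold hi
    rw [← pow_add, ← pow_add, ← pow_add]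
    congr 1; omega

lemma flp_mem {s w : ℕ} (hs : 2 ≤ s) (hw : w < s + 2) : ∀ x ∈ II s, flp w x ∈ II s := by
  obtain ⟨A, B, hA, hB⟩ := exists_AB (Nat.zero_le s) hs
  intro x hx
  unfold II at hx ⊢
  rw [mem_Ico, hA, hB] at *
  simp only [pow_zero, one_mul] at *
  have hM : 0 < 2 ^ (s + 2) := by positivity
  rw [← Nat.le_div_iff_mul_le hM, ← Nat.div_lt_iff_lt_mul hM] at *
  rw [flp_div hw]
  exact hx

lemma ly_eq (s k x : ℕ) :
    x / 2 ^ (s + 2 + k) % 2 ^ k = x / 2 ^ (s + 2) % (2 ^ k * 2 ^ k) / 2 ^ k := by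
  rw [pow_add 2 (s + 2) k, ← Nat.div_div_eq_div_mul, Nat.mod_mul_right_div_self]

lemma fd_eq (s k x : ℕ) :
    x / 2 ^ (s + 2) % 2 ^ k = x / 2 ^ (s + 2) % (2 ^ k * 2 ^ k) % 2 ^ k := by
  rw [Nat.mod_mul_right_mod]

lemma act_le (g : ℕ → ℕ) (k i : ℕ) : act g k i ≤ 2 ^ k := by
  unfold act
  exact (card_filter_le _ _).trans (card_range _).le

section counts

variable {g : ℕ → ℕ} {k i : ℕ}

lemma enc_II {x : ℕ} (hx : x ∈ II (Nat.pair k i)) : enc g x =
    if x / 2 ^ (Nat.pair k i + 2 + k) % 2 ^ k < act g k i then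
      if x % 2 = 0 then 1
      else if g (2 ^ k + x / 2 ^ (Nat.pair k i + 2) % 2 ^ k) ≤ i ∧
          x.testBit (g (2 ^ k + x / 2 ^ (Nat.pair k i + 2) % 2 ^ k) + 1) = true then 1
      else 0
    else 0 := by
  unfold II at hx
  rw [mem_Ico] at hx
  unfold enc
  rw [scl_eq hx.1 hx.2]
  simp only [Nat.unpair_pair]

lemma enc_even {x : ℕ} (hx : x ∈ II (Nat.pair k i)) (he : x % 2 = 0) : enc g x = 1 ↔
    x / 2 ^ (Nat.pair k i + 2 + k) % 2 ^ k < act g k i := by
  rw [enc_II hx, if_pos he]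
  split_ifs with h
  · simp [h]
  · simp [h]

lemma enc_odd {x : ℕ} (hx : x ∈ II (Nat.pair k i)) (he : x % 2 = 1) : enc g x = 1 ↔
    x / 2 ^ (Nat.pair k i + 2 + k) % 2 ^ k < act g k i ∧
      g (2 ^ k + x / 2 ^ (Nat.pair k i + 2) % 2 ^ k) ≤ i ∧
          x.testBit (g (2 ^ k + x / 2 ^ (Nat.pair k i + 2) % 2 ^ k) + 1) = true := by
  rw [enc_II hx, if_neg (by omega : ¬ x % 2 = 0)]
  split_ifs with h h2
  · simp only [true_iff]
    exact ⟨h, h2⟩
  · simp only [zero_ne_one, false_iff, not_and]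
    intro _ h3 h4
    exact h2 ⟨h3, h4⟩
  · simp only [zero_ne_one, false_iff, not_and]
    intro h3
    exact absurd h3 h

lemma countB (hs : 2 ≤ Nat.pair k i) : 2 ^ (k + 1) * ones (enc g) (Nat.pair k i) =
    (hi (Nat.pair k i) - lo (Nat.pair k i)) * act g k i := by
  set s := Nat.pair k i with hsdef
  set a := act g k i with ha
  have hks : k ≤ s := Nat.left_le_pair k i
  have ha2 : a ≤ 2 ^ k := act_le g k i
  obtain ⟨A, B, hA, hB⟩ := exists_AB hks hs
  have hk0 : 0 < 2 ^ k := by positivity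
  have e1 : ones (enc g) s = ((II s).filter fun x =>
      (x / 2 ^ (s + 2) % (2 ^ k * 2 ^ k) ∈ range (a * 2 ^ k)) ∧ x.testBit 0 = false).card := by
    unfold ones
    congr 1
    refine filter_congr fun x hx => ?_
    have hx' : x ∈ II (Nat.pair k i) := hx
    rw [← even_iff, mem_range]
    constructor
    · rintro ⟨h1, h2⟩
      rw [enc_even hx' h1, ← hsdef, ly_eq, Nat.div_lt_iff_lt_mul hk0] at h2
      exact ⟨h2, h1⟩
    · rintro ⟨h1, h2⟩
      refine ⟨h2, ?_⟩
      rw [enc_even hx' h2, ← hsdef, ly_eq, Nat.div_lt_iff_lt_mul hk0]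
      exact h1
  have e2 := half (II s) 0 (flp_mem hs (by omega))
    (fun x => x / 2 ^ (s + 2) % (2 ^ k * 2 ^ k) ∈ range (a * 2 ^ k))
    (fun x _ h => by rw [flp_div (by omega)]; exact h) false
  have e3 := card_digits (A := A) (B := B) (T := 2 ^ k * 2 ^ k) (M := 2 ^ (s + 2)) (by positivity)
    (by positivity) (range (a * 2 ^ k)) (by
      intro c hc
      rw [mem_range] at hc
      exact hc.trans_le (Nat.mul_le_mul_right _ ha2))
  rw [← hA, ← hB, card_range] at e3
  have e4 : 2 * ones (enc g) s = a * 2 ^ k * (2 ^ (s + 2) * (B - A)) := by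
    rw [e1, e2, ← e3]
    rfl
  have e5 : hi s - lo s = (B - A) * (2 ^ k * 2 ^ k * 2 ^ (s + 2)) := by
    rw [hA, hB, Nat.sub_mul]
  rw [e5]
  calc 2 ^ (k + 1) * ones (enc g) s = 2 ^ k * (2 * ones (enc g) s) := by rw [pow_succ]; ring
    _ = (B - A) * (2 ^ k * 2 ^ k * 2 ^ (s + 2)) * a := by rw [e4]; ring

lemma countC (hs : 2 ≤ Nat.pair k i) {n : ℕ} (hn : n < 2 ^ k) (hv : g (2 ^ k + n) ≤ i) :
    4 * (2 ^ k * 2 ^ k) * sco (enc g) k (Nat.pair k i) n (g (2 ^ k + n)) true =
    (hi (Nat.pair k i) - lo (Nat.pair k i)) * act g k i := by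
  set s := Nat.pair k i with hsdef
  set a := act g k i with ha
  set v := g (2 ^ k + n) with hvdef
  have hks : k ≤ s := Nat.left_le_pair k i
  have his : i ≤ s := Nat.right_le_pair k i
  have ha2 : a ≤ 2 ^ k := act_le g k i
  obtain ⟨A, B, hA, hB⟩ := exists_AB hks hs
  have hk0 : 0 < 2 ^ k := by positivity
  set C : Finset ℕ := (range a).image (fun l => l * 2 ^ k + n) with hC
  have hCcard : C.card = a := by
    rw [hC, card_image_of_injective, card_range]
    intro l l' hl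
    have hl' : l * 2 ^ k + n = l' * 2 ^ k + n := hl
    exact Nat.eq_of_mul_eq_mul_right hk0 (by omega)
  have hCmem : ∀ c, c ∈ C ↔ c % 2 ^ k = n ∧ c / 2 ^ k < a := by
    intro c
    rw [hC, mem_image]
    constructor
    · rintro ⟨l, hl, rfl⟩
      rw [mem_range] at hl
      refine ⟨?_, ?_⟩
      · rw [Nat.mul_comm, Nat.mul_add_mod, Nat.mod_eq_of_lt hn]
      · rw [Nat.mul_comm, Nat.mul_add_div hk0, Nat.div_eq_of_lt hn]; simpa using hl
    · rintro ⟨h1, h2⟩
      refine ⟨c / 2 ^ k, mem_range.mpr h2, ?_⟩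
      rw [← h1]
      exact Nat.div_add_mod' c (2 ^ k)
  have e1 : sco (enc g) k s n v true = ((II s).filter fun x =>
      (x / 2 ^ (s + 2) % (2 ^ k * 2 ^ k) ∈ C ∧ x.testBit 0 = true) ∧
        x.testBit (v + 1) = true).card := by
    unfold sco
    congr 1
    refine filter_congr fun x hx => ?_
    have hx' : x ∈ II (Nat.pair k i) := hx
    rw [← odd_iff, hCmem, ← fd_eq, ← ly_eq]
    constructor
    · rintro ⟨h1, h2, h3, h4⟩
      rw [enc_odd hx' h1, ← hsdef, h2] at h3
      exact ⟨⟨⟨h2, h3.1⟩, h1⟩, h4⟩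
    · rintro ⟨⟨⟨h2, h3⟩, h1⟩, h4⟩
      refine ⟨h1, h2, ?_, h4⟩
      rw [enc_odd hx' h1, ← hsdef, h2]
      exact ⟨h3, hv, h4⟩
  have e2 := half (II s) (v + 1) (flp_mem hs (by omega))
    (fun x => x / 2 ^ (s + 2) % (2 ^ k * 2 ^ k) ∈ C ∧ x.testBit 0 = true)
    (fun x _ h => by rw [flp_div (by omega), testBit_flp_ne (by omega)]; exact h) true
  have e2' := half (II s) 0 (flp_mem hs (by omega))
    (fun x => x / 2 ^ (s + 2) % (2 ^ k * 2 ^ k) ∈ C)
    (fun x _ h => by rw [flp_div (by omega)]; exact h) true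
  have e3 := card_digits (A := A) (B := B) (T := 2 ^ k * 2 ^ k) (M := 2 ^ (s + 2)) (by positivity)
    (by positivity) C (by
      intro c hc
      rw [hCmem] at hc
      rw [← Nat.div_lt_iff_lt_mul hk0]
      exact hc.2.trans_le ha2)
  rw [← hA, ← hB, hCcard] at e3
  have e4 : 4 * sco (enc g) k s n v true = a * (2 ^ (s + 2) * (B - A)) := by
    have : 4 * sco (enc g) k s n v true = 2 * (2 * sco (enc g) k s n v true) := by ring
    rw [this, e1, e2, e2', ← e3]
    rfl
  have e5 : hi s - lo s = (B - A) * (2 ^ k * 2 ^ k * 2 ^ (s + 2)) := by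
    rw [hA, hB, Nat.sub_mul]
  rw [e5]
  calc 4 * (2 ^ k * 2 ^ k) * sco (enc g) k s n v true =
      (2 ^ k * 2 ^ k) * (4 * sco (enc g) k s n v true) := by ring
    _ = (B - A) * (2 ^ k * 2 ^ k * 2 ^ (s + 2)) * a := by rw [e4]; ring

lemma countC0 {n : ℕ} : sco (enc g) k (Nat.pair k i) n (g (2 ^ k + n)) false = 0 := by
  unfold sco
  rw [card_eq_zero, filter_eq_empty_iff]
  rintro x hx ⟨h1, h2, h3, h4⟩
  have hx' : x ∈ II (Nat.pair k i) := hx
  rw [enc_odd hx' h1, h2] at h3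
  rw [h3.2.2] at h4
  exact absurd h4 (by simp)

lemma countC2 (hs : 2 ≤ Nat.pair k i) {n v : ℕ} (hvi : v ≤ i)
    (hv : v ≠ g (2 ^ k + n)) :
    sco (enc g) k (Nat.pair k i) n v true = sco (enc g) k (Nat.pair k i) n v false := by
  set s := Nat.pair k i with hsdef
  have his : i ≤ s := Nat.right_le_pair k i
  have key : ∀ b, 2 * sco (enc g) k s n v b = ((II s).filter fun x =>
      x % 2 = 1 ∧ x / 2 ^ (s + 2) % 2 ^ k = n ∧ enc g x = 1).card := by
    intro b
    rw [← half (II s) (v + 1) (flp_mem hs (by omega))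
      (fun x => x % 2 = 1 ∧ x / 2 ^ (s + 2) % 2 ^ k = n ∧ enc g x = 1) ?_ b]
    · unfold sco
      congr 2
      refine filter_congr fun x _ => ?_
      tauto
    · rintro x hx ⟨h1, h2, h3⟩
      have h1' : flp (v + 1) x % 2 = 1 := by
        rw [odd_iff, testBit_flp_ne (by omega), ← odd_iff]; exact h1
      have hx2 : flp (v + 1) x ∈ II (Nat.pair k i) := flp_mem hs (by omega) x hx
      refine ⟨h1', by rw [flp_div (by omega)]; exact h2, ?_⟩
      rw [enc_odd (k := k) (i := i) hx h1, ← hsdef, h2] at h3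
      rw [enc_odd hx2 h1', ← hsdef, flp_div (by omega), flp_div (by omega), h2]
      refine ⟨h3.1, h3.2.1, ?_⟩
      rw [testBit_flp_ne (by omega)]
      exact h3.2.2
  have h1 := key true
  have h2 := key false
  omega

end counts

/-! ### errors -/

/-- number of errors in the interval -/
def errs (g D : ℕ → ℕ) (s : ℕ) : ℕ := ((II s).filter fun x => D x ≠ enc g x).card

/-- number of errors in a field -/
def ferr (g D : ℕ → ℕ) (k s n : ℕ) : ℕ :=
  ((II s).filter fun x => x / 2 ^ (s + 2) % 2 ^ k = n ∧ D x ≠ enc g x).card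

lemma sum_ferr (g D : ℕ → ℕ) (k s : ℕ) :
    ∑ n ∈ range (2 ^ k), ferr g D k s n = errs g D s := by
  unfold errs ferr
  rw [card_eq_sum_card_fiberwise (f := fun x => x / 2 ^ (s + 2) % 2 ^ k) (t := range (2 ^ k))]
  · refine sum_congr rfl fun n _ => ?_
    rw [filter_filter]
    congr 1
    refine filter_congr fun x _ => ?_
    tauto
  · intro x _
    simp only [coe_range, Set.mem_Iio]
    exact Nat.mod_lt _ (by positivity)

lemma errs_small {g D : ℕ → ℕ} (h : Dz {x | D x ≠ enc g x}) (M : ℕ) :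
    ∃ s₀, ∀ s ≥ s₀, M * errs g D s ≤ hi s - lo s := by
  obtain ⟨t₀, ht₀⟩ := h (2 * M)
  refine ⟨t₀, fun s hs => ?_⟩
  have h1 := ht₀ (hi s) (hs.trans (le_hi s))
  have h2 : errs g D s ≤ ({x | D x ≠ enc g x} ∩ Set.Iio (hi s)).ncard := by
    unfold errs
    rw [← Set.ncard_coe_finset]
    refine Set.ncard_le_ncard ?_ ((Set.finite_Iio _).subset Set.inter_subset_right)
    intro x hx
    simp only [coe_filter, Set.mem_ofPred_eq] at hx
    have hx1 : x ∈ Ico (lo s) (hi s) := hx.1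
    exact ⟨hx.2, (mem_Ico.mp hx1).2⟩
  have h3 := hi_le s
  have h4 := Nat.mul_le_mul_left M h2
  have h5 : 2 * M * ({x | D x ≠ enc g x} ∩ Set.Iio (hi s)).ncard =
    2 * (M * ({x | D x ≠ enc g x} ∩ Set.Iio (hi s)).ncard) := by ring
  omega

lemma ones_le1 (g D : ℕ → ℕ) (s : ℕ) : ones D s ≤ ones (enc g) s + errs g D s := by
  unfold ones errs
  refine card_or _ _ _ _ fun x _ hx => ?_
  by_cases h : D x = enc g x
  · exact Or.inl ⟨hx.1, by rw [← h]; exact hx.2⟩
  · exact Or.inr h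

lemma ones_le2 (g D : ℕ → ℕ) (s : ℕ) : ones (enc g) s ≤ ones D s + errs g D s := by
  unfold ones errs
  refine card_or _ _ _ _ fun x _ hx => ?_
  by_cases h : D x = enc g x
  · exact Or.inl ⟨hx.1, by rw [h]; exact hx.2⟩
  · exact Or.inr h

theorem s_vis : S_vis := by
  intro g D h j k
  obtain ⟨s₀, hs₀⟩ := errs_small h (2 ^ (j + 2))
  set i := s₀ + 2 + ∑ n ∈ range (2 ^ k), g (2 ^ k + n) with hi_def
  have hik : i ≤ Nat.pair k i := Nat.right_le_pair k i
  have hact : act g k i = 0 := by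
    unfold act
    rw [card_eq_zero, filter_eq_empty_iff]
    intro n hn hle
    have : g (2 ^ k + n) ≤ ∑ n ∈ range (2 ^ k), g (2 ^ k + n) :=
      single_le_sum (f := fun n => g (2 ^ k + n)) (fun _ _ => Nat.zero_le _) hn
    omega
  refine ⟨i, by omega, ?_⟩
  have h1 := countB (g := g) (k := k) (i := i) (by omega)
  rw [hact, mul_zero] at h1
  have h2 : ones (enc g) (Nat.pair k i) = 0 := by
    rcases Nat.mul_eq_zero.mp h1 with h | h
    · exact absurd h (by positivity)
    · exact h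
  have h3 := ones_le1 g D (Nat.pair k i)
  rw [h2, zero_add] at h3
  have h4 := hs₀ (Nat.pair k i) (by omega)
  have h5 := len_pos (Nat.pair k i)
  unfold low
  have h6 : 2 ^ (j + 2) * errs g D (Nat.pair k i) = 2 * (2 ^ (j + 1) * errs g D (Nat.pair k i)) := by
    rw [pow_succ]; ring
  have h7 := Nat.mul_le_mul_left (2 ^ (j + 1)) h3
  omega

section bounds

variable {g D : ℕ → ℕ} {j k i : ℕ}

lemma low_bound (hs : 2 ≤ Nat.pair k i)
    (he : 2 ^ (j + 3) * errs g D (Nat.pair k i) ≤ hi (Nat.pair k i) - lo (Nat.pair k i))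
    (hlow : low D j k i) : 4 * 2 ^ j * act g k i ≤ 5 * 2 ^ k := by
  unfold low at hlow
  have h1 := countB (g := g) hs
  have h2 := ones_le2 g D (Nat.pair k i)
  have hlen := len_pos (Nat.pair k i)
  set len := hi (Nat.pair k i) - lo (Nat.pair k i) with hl
  set O := ones (enc g) (Nat.pair k i) with hO
  set E := errs g D (Nat.pair k i) with hE
  have h3 : 4 * (2 ^ (j + 1) * O) ≤ 5 * len := by
    have e1 := Nat.mul_le_mul_left (2 ^ (j + 1)) h2
    have e2 : 2 ^ (j + 3) * E = 4 * (2 ^ (j + 1) * E) := by rw [pow_add, pow_add]; ring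
    rw [Nat.mul_add] at e1
    omega
  have h4 : len * (4 * 2 ^ j * act g k i) ≤ len * (5 * 2 ^ k) := by
    calc len * (4 * 2 ^ j * act g k i) = 4 * 2 ^ j * (len * act g k i) := by ring
      _ = 4 * 2 ^ j * (2 ^ (k + 1) * O) := by rw [h1]
      _ = 2 ^ k * (4 * (2 ^ (j + 1) * O)) := by rw [pow_succ, pow_succ]; ring
      _ ≤ 2 ^ k * (5 * len) := Nat.mul_le_mul_left _ h3
      _ = len * (5 * 2 ^ k) := by ring
  exact Nat.le_of_mul_le_mul_left h4 hlen

lemma nlow_bound (hs : 2 ≤ Nat.pair k i)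
    (he : 2 ^ (j + 3) * errs g D (Nat.pair k i) ≤ hi (Nat.pair k i) - lo (Nat.pair k i))
    (hlow : ¬ low D j k i) : 3 * 2 ^ k ≤ 4 * 2 ^ j * act g k i := by
  unfold low at hlow
  have h1 := countB (g := g) hs
  have h2 := ones_le1 g D (Nat.pair k i)
  have hlen := len_pos (Nat.pair k i)
  set len := hi (Nat.pair k i) - lo (Nat.pair k i) with hl
  set O := ones (enc g) (Nat.pair k i) with hO
  set E := errs g D (Nat.pair k i) with hE
  have h3 : 3 * len ≤ 4 * (2 ^ (j + 1) * O) := by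
    have e1 := Nat.mul_le_mul_left (2 ^ (j + 1)) h2
    have e2 : 2 ^ (j + 3) * E = 4 * (2 ^ (j + 1) * E) := by rw [pow_add, pow_add]; ring
    rw [Nat.mul_add] at e1
    omega
  have h4 : len * (3 * 2 ^ k) ≤ len * (4 * 2 ^ j * act g k i) := by
    calc len * (3 * 2 ^ k) = 2 ^ k * (3 * len) := by ring
      _ ≤ 2 ^ k * (4 * (2 ^ (j + 1) * O)) := Nat.mul_le_mul_left _ h3
      _ = 4 * 2 ^ j * (2 ^ (k + 1) * O) := by rw [pow_succ, pow_succ]; ring
      _ = 4 * 2 ^ j * (len * act g k i) := by rw [h1]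
      _ = len * (4 * 2 ^ j * act g k i) := by ring
  exact Nat.le_of_mul_le_mul_left h4 hlen

lemma act_zero (g : ℕ → ℕ) (k : ℕ) : act g k 0 = 2 ^ k := by
  unfold act
  rw [filter_true_of_mem (fun _ _ => Nat.zero_le _), card_range]

lemma shown_iff {n v : ℕ} (hs : 2 ≤ Nat.pair k i) (hn : n < 2 ^ k)
    (hact : 3 * 2 ^ k ≤ 4 * 2 ^ j * act g k i)
    (hF : 2 ^ (k + j + 4) * ferr g D k (Nat.pair k i) n ≤ hi (Nat.pair k i) - lo (Nat.pair k i))
    (hv : v ≤ i) : shown D j k i n v ↔ v = g (2 ^ k + n) := by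
  set s := Nat.pair k i with hsdef
  have hlen := len_pos s
  set len := hi s - lo s with hl
  -- comparison of the scores
  have hfb : ((II s).filter fun x => (x / 2 ^ (s + 2) % 2 ^ k = n ∧ D x ≠ enc g x) ∧
        x.testBit (v + 1) = true).card +
      ((II s).filter fun x => (x / 2 ^ (s + 2) % 2 ^ k = n ∧ D x ≠ enc g x) ∧
        x.testBit (v + 1) = false).card = ferr g D k s n := by
    unfold ferr
    have h0 := Finset.card_filter_add_card_filter_not (s := (II s).filter fun x =>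
      x / 2 ^ (s + 2) % 2 ^ k = n ∧ D x ≠ enc g x) (fun x => x.testBit (v + 1) = true)
    rw [filter_filter, filter_filter] at h0
    rw [← h0]
    congr 2
    refine filter_congr fun x _ => ?_
    simp
  have c1 : ∀ b, sco D k s n v b ≤ sco (enc g) k s n v b +
      ((II s).filter fun x => (x / 2 ^ (s + 2) % 2 ^ k = n ∧ D x ≠ enc g x) ∧
        x.testBit (v + 1) = b).card := by
    intro b
    unfold sco
    refine card_or _ _ _ _ fun x _ hx => ?_
    by_cases h : D x = enc g x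
    · exact Or.inl ⟨hx.1, hx.2.1, by rw [← h]; exact hx.2.2.1, hx.2.2.2⟩
    · exact Or.inr ⟨⟨hx.2.1, h⟩, hx.2.2.2⟩
  have c2 : ∀ b, sco (enc g) k s n v b ≤ sco D k s n v b +
      ((II s).filter fun x => (x / 2 ^ (s + 2) % 2 ^ k = n ∧ D x ≠ enc g x) ∧
        x.testBit (v + 1) = b).card := by
    intro b
    unfold sco
    refine card_or _ _ _ _ fun x _ hx => ?_
    by_cases h : D x = enc g x
    · exact Or.inl ⟨hx.1, hx.2.1, by rw [h]; exact hx.2.2.1, hx.2.2.2⟩
    · exact Or.inr ⟨⟨hx.2.1, h⟩, hx.2.2.2⟩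
  have c1t := c1 true
  have c1f := c1 false
  have c2t := c2 true
  have c2f := c2 false
  set Ft := ((II s).filter fun x => (x / 2 ^ (s + 2) % 2 ^ k = n ∧ D x ≠ enc g x) ∧
        x.testBit (v + 1) = true).card with hFt
  set Ff := ((II s).filter fun x => (x / 2 ^ (s + 2) % 2 ^ k = n ∧ D x ≠ enc g x) ∧
        x.testBit (v + 1) = false).card with hFf
  set F := ferr g D k s n with hFdef
  set Δ := sco D k s n v true - sco D k s n v false with hΔ
  have hsh : shown D j k i n v ↔ len < 2 ^ (k + j + 4) * Δ := Iff.rfl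
  rw [hsh]
  constructor
  · intro hlt
    by_contra hne
    have h2 := countC2 (g := g) hs hv hne
    rw [← hsdef] at h2
    have h3 : Δ ≤ F := by omega
    have h4 := Nat.mul_le_mul_left (2 ^ (k + j + 4)) h3
    omega
  · intro hveq
    have hv' : g (2 ^ k + n) ≤ i := hveq ▸ hv
    have h1 := countC (g := g) hs hn hv'
    have h0 : sco (enc g) k s n v false = 0 := by
      rw [hveq]; exact countC0
    rw [← hveq, ← hsdef, ← hl] at h1
    have h3 : sco (enc g) k s n v true ≤ Δ + F := by omega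
    have h4 : 2 ^ k * (3 * len) ≤ 2 ^ k * (2 ^ (k + j + 4) * sco (enc g) k s n v true) := by
      calc 2 ^ k * (3 * len) = len * (3 * 2 ^ k) := by ring
        _ ≤ len * (4 * 2 ^ j * act g k i) := Nat.mul_le_mul_left _ hact
        _ = 4 * 2 ^ j * (len * act g k i) := by ring
        _ = 4 * 2 ^ j * (4 * (2 ^ k * 2 ^ k) * sco (enc g) k s n v true) := by rw [h1]
        _ = 2 ^ k * (2 ^ (k + j + 4) * sco (enc g) k s n v true) := by
          rw [pow_add, pow_add]; ring
    have h5 := Nat.le_of_mul_le_mul_left h4 (by positivity)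
    have h6 := Nat.mul_le_mul_left (2 ^ (k + j + 4)) h3
    rw [Nat.mul_add] at h6
    omega

open Classical in
lemma rd_eq {n : ℕ} (h : ∀ v ≤ vis D j k - 1, (shown D j k (vis D j k - 1) n v ↔
    v = g (2 ^ k + n))) :
    rd D k n j = if g (2 ^ k + n) ≤ vis D j k - 1 then some (g (2 ^ k + n)) else none := by
  unfold rd
  split_ifs with h1 h2 h2
  · have := Nat.find_spec h1
    rw [(h _ this.1).mp this.2]
  · exact absurd (by
      have := Nat.find_spec h1
      rw [← (h _ this.1).mp this.2]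
      exact this.1) h2
  · exact absurd ⟨_, h2, (h _ h2).mpr rfl⟩ h1
  · rfl

end bounds

/-- the bound on one block -/
lemma block {g D : ℕ → ℕ} (h : Dz {x | D x ≠ enc g x}) (K : ℕ) (hK : 0 < K) : ∃ k₀, ∀ k ≥ k₀,
    K * ((range (2 ^ k)).filter fun n => dec D (2 ^ k + n) ≠ g (2 ^ k + n)).card ≤ 2 ^ k := by
  classical
  set j₀ := 4 * K with hj₀
  have hj0 : 4 * K ≤ 2 ^ j₀ := (Nat.lt_two_pow_self).le
  obtain ⟨s₀, hs₀⟩ := errs_small h (2 ^ (j₀ + 6) * K * (j₀ + 1))
  refine ⟨s₀ + j₀ + 2, fun k hk => ?_⟩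
  have hsj : ∀ i, s₀ ≤ Nat.pair k i ∧ 2 ≤ Nat.pair k i := fun i => by
    have := Nat.left_le_pair k i
    constructor <;> omega
  -- errors
  have herr : ∀ i, 2 ^ (j₀ + 6) * K * (j₀ + 1) * errs g D (Nat.pair k i) ≤
      hi (Nat.pair k i) - lo (Nat.pair k i) := fun i => hs₀ _ (hsj i).1
  have herr2 : ∀ i j, j ≤ j₀ → 2 ^ (j + 3) * errs g D (Nat.pair k i) ≤
      hi (Nat.pair k i) - lo (Nat.pair k i) := by
    intro i j hj
    refine le_trans (Nat.mul_le_mul_right _ ?_) (herr i)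
    calc 2 ^ (j + 3) ≤ 2 ^ (j₀ + 6) := Nat.pow_le_pow_right (by norm_num) (by omega)
      _ ≤ 2 ^ (j₀ + 6) * K := Nat.le_mul_of_pos_right _ hK
      _ ≤ 2 ^ (j₀ + 6) * K * (j₀ + 1) := Nat.le_mul_of_pos_right _ (by omega)
  -- visits
  have hvis : ∀ j, 1 ≤ vis D j k ∧ low D j k (vis D j k) ∧
      ∀ i, 1 ≤ i → i < vis D j k → ¬ low D j k i := by
    intro j
    have hex := s_vis g D h j k
    have hv : vis D j k = Nat.find hex := by
      unfold vis
      rw [dif_pos hex]
    rw [hv]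
    refine ⟨(Nat.find_spec hex).1, (Nat.find_spec hex).2, fun i h1 h2 h3 => ?_⟩
    exact Nat.find_min hex h2 ⟨h1, h3⟩
  have hact : ∀ j ≤ j₀, 3 * 2 ^ k ≤ 4 * 2 ^ j * act g k (vis D j k - 1) := by
    intro j hj
    rcases Nat.eq_zero_or_pos (vis D j k - 1) with h0 | h0
    · rw [h0, act_zero]
      have : 1 ≤ 2 ^ j := Nat.one_le_two_pow
      nlinarith [Nat.one_le_two_pow (n := k)]
    · refine nlow_bound (hsj _).2 (herr2 _ j hj) ?_
      exact (hvis j).2.2 _ h0 (by omega)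
  -- bad fields
  set bad : ℕ → Finset ℕ := fun j => (range (2 ^ k)).filter fun n =>
    hi (Nat.pair k (vis D j k - 1)) - lo (Nat.pair k (vis D j k - 1)) <
      2 ^ (k + j + 4) * ferr g D k (Nat.pair k (vis D j k - 1)) n with hbad
  have hbadc : ∀ j ≤ j₀, 2 ^ (j₀ + 6) * K * (j₀ + 1) * (bad j).card ≤ 2 ^ (k + j₀ + 4) := by
    intro j hj
    set s := Nat.pair k (vis D j k - 1) with hs
    have hlen := len_pos s
    have h1 : (bad j).card * (hi s - lo s) ≤ 2 ^ (k + j + 4) * errs g D s := by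
      rw [← sum_ferr g D k s, mul_sum, ← smul_eq_mul, ← sum_const]
      refine le_trans (sum_le_sum fun n hn => ?_) (sum_le_sum_of_subset (filter_subset _ _))
      exact (mem_filter.mp hn).2.le
    have h2 : (hi s - lo s) * (2 ^ (j₀ + 6) * K * (j₀ + 1) * (bad j).card) ≤
        (hi s - lo s) * 2 ^ (k + j₀ + 4) := by
      calc (hi s - lo s) * (2 ^ (j₀ + 6) * K * (j₀ + 1) * (bad j).card) =
          2 ^ (j₀ + 6) * K * (j₀ + 1) * ((bad j).card * (hi s - lo s)) := by ring
        _ ≤ 2 ^ (j₀ + 6) * K * (j₀ + 1) * (2 ^ (k + j + 4) * errs g D s) :=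
          Nat.mul_le_mul_left _ h1
        _ = 2 ^ (k + j + 4) * (2 ^ (j₀ + 6) * K * (j₀ + 1) * errs g D s) := by ring
        _ ≤ 2 ^ (k + j + 4) * (hi s - lo s) := Nat.mul_le_mul_left _ (herr _)
        _ ≤ 2 ^ (k + j₀ + 4) * (hi s - lo s) :=
          Nat.mul_le_mul_right _ (Nat.pow_le_pow_right (by norm_num) (by omega))
        _ = (hi s - lo s) * 2 ^ (k + j₀ + 4) := by ring
    exact Nat.le_of_mul_le_mul_left h2 hlen
  -- wrong elements
  have hsub : ((range (2 ^ k)).filter fun n => dec D (2 ^ k + n) ≠ g (2 ^ k + n)) ⊆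
      ((Icc 1 j₀).biUnion bad) ∪
        ((range (2 ^ k)).filter fun n => vis D j₀ k ≤ g (2 ^ k + n)) := by
    intro n hn
    rw [mem_filter, mem_range] at hn
    rw [mem_union]
    by_contra hc
    push Not at hc
    obtain ⟨hc1, hc2⟩ := hc
    have hg : ∀ j, 1 ≤ j → j ≤ j₀ → rd D k n j =
        if g (2 ^ k + n) ≤ vis D j k - 1 then some (g (2 ^ k + n)) else none := by
      intro j hj1 hj2
      refine rd_eq fun v hv => shown_iff (hsj _).2 hn.1 (hact j hj2) ?_ hv
      by_contra hlt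
      push Not at hlt
      exact hc1 (mem_biUnion.mpr ⟨j, mem_Icc.mpr ⟨hj1, hj2⟩,
        mem_filter.mpr ⟨mem_range.mpr hn.1, hlt⟩⟩)
    have hv0 : g (2 ^ k + n) ≤ vis D j₀ k - 1 := by
      have : ¬ vis D j₀ k ≤ g (2 ^ k + n) := fun hle =>
        hc2 (mem_filter.mpr ⟨mem_range.mpr hn.1, hle⟩)
      omega
    apply hn.2
    have hlog : Nat.log 2 (2 ^ k + n) = k := by
      have h1 : Nat.log 2 (2 ^ k + n) < k + 1 :=
        Nat.log_lt_of_lt_pow (by have := Nat.one_le_two_pow (n := k); omega)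
          (by rw [pow_succ]; omega)
      have h2 : k ≤ Nat.log 2 (2 ^ k + n) := Nat.le_log_of_pow_le (by norm_num) (by omega)
      omega
    have hex : ∃ j, 1 ≤ j ∧ j ≤ k ∧ (rd D k n j).isSome := by
      refine ⟨j₀, by omega, by omega, ?_⟩
      rw [hg j₀ (by omega) le_rfl, if_pos hv0]
      rfl
    have hle : Nat.find hex ≤ j₀ := Nat.find_min' hex ⟨by omega, by omega, by
      rw [hg j₀ (by omega) le_rfl, if_pos hv0]
      rfl⟩
    have hsp := Nat.find_spec hex
    have hrd := hg (Nat.find hex) hsp.1 hle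
    have hval : rd D k n (Nat.find hex) = some (g (2 ^ k + n)) := by
      rw [hrd]
      rw [hrd] at hsp
      split_ifs with hif
      · rfl
      · rw [if_neg hif] at hsp
        exact absurd hsp.2.2 (by simp)
    unfold dec
    simp only [hlog, Nat.add_sub_cancel_left]
    rw [dif_pos hex, hval]
    rfl
  -- the count
  have hcard : ((range (2 ^ k)).filter fun n => dec D (2 ^ k + n) ≠ g (2 ^ k + n)).card ≤
      ∑ j ∈ Icc 1 j₀, (bad j).card + act g k (vis D j₀ k) := by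
    refine (card_le_card hsub).trans ((card_union_le _ _).trans ?_)
    exact Nat.add_le_add card_biUnion_le le_rfl
  have hlow := low_bound (g := g) (D := D) (j := j₀) (k := k) (i := vis D j₀ k) (hsj _).2
    (herr2 _ j₀ le_rfl) (hvis j₀).2.1
  have hsum : 4 * K * ∑ j ∈ Icc 1 j₀, (bad j).card ≤ 2 ^ k := by
    have h1 : 2 ^ (j₀ + 6) * K * (j₀ + 1) * ∑ j ∈ Icc 1 j₀, (bad j).card ≤
        j₀ * 2 ^ (k + j₀ + 4) := by
      rw [mul_sum]
      calc ∑ j ∈ Icc 1 j₀, 2 ^ (j₀ + 6) * K * (j₀ + 1) * (bad j).card ≤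
          ∑ j ∈ Icc 1 j₀, 2 ^ (k + j₀ + 4) :=
            sum_le_sum fun j hj => hbadc j (mem_Icc.mp hj).2
        _ = j₀ * 2 ^ (k + j₀ + 4) := by simp
    have h2 : (2 ^ (j₀ + 4) * (j₀ + 1)) * (4 * K * ∑ j ∈ Icc 1 j₀, (bad j).card) ≤
        (2 ^ (j₀ + 4) * (j₀ + 1)) * 2 ^ k := by
      calc (2 ^ (j₀ + 4) * (j₀ + 1)) * (4 * K * ∑ j ∈ Icc 1 j₀, (bad j).card) =
          2 ^ (j₀ + 6) * K * (j₀ + 1) * ∑ j ∈ Icc 1 j₀, (bad j).card := by
            rw [pow_add, pow_add]; ring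
        _ ≤ j₀ * 2 ^ (k + j₀ + 4) := h1
        _ ≤ (j₀ + 1) * 2 ^ (k + j₀ + 4) := Nat.mul_le_mul_right _ (by omega)
        _ = (2 ^ (j₀ + 4) * (j₀ + 1)) * 2 ^ k := by
            rw [pow_add, pow_add, pow_add]; ring
    exact Nat.le_of_mul_le_mul_left h2 (by positivity)
  have h16 : 16 * K * act g k (vis D j₀ k) ≤ 5 * 2 ^ k := by
    refine le_trans ?_ hlow
    refine Nat.mul_le_mul_right _ ?_
    omega
  have h1 := Nat.mul_le_mul_left K hcard
  rw [Nat.mul_add] at h1
  have e1 : 4 * K * ∑ j ∈ Icc 1 j₀, (bad j).card = 4 * (K * ∑ j ∈ Icc 1 j₀, (bad j).card) := by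
    ring
  have e2 : 16 * K * act g k (vis D j₀ k) = 16 * (K * act g k (vis D j₀ k)) := by ring
  omega

theorem s_decdz : S_decdz := by
  intro g D h K
  rcases Nat.eq_zero_or_pos K with hK0 | hK
  · exact ⟨0, fun t _ => by simp [hK0]⟩
  obtain ⟨k₀, hk₀⟩ := block h (4 * K) (by omega)
  classical
  set w : ℕ → ℕ := fun t => ((range t).filter fun m => dec D m ≠ g m).card with hw
  have hwm : ∀ a b, a ≤ b → w a ≤ w b := by
    intro a b hab
    refine card_le_card (filter_subset_filter _ ?_)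
    exact range_subset_range.mpr hab
  have hstep : ∀ k ≥ k₀, 4 * K * w (2 ^ k) ≤ 4 * K * 2 ^ k₀ + 2 ^ k := by
    intro k hk
    induction k, hk using Nat.le_induction with
    | base =>
      have : w (2 ^ k₀) ≤ 2 ^ k₀ := (card_filter_le _ _).trans (card_range _).le
      exact (Nat.mul_le_mul_left _ this).trans (by omega)
    | succ k hk ih =>
      have h1 : w (2 ^ (k + 1)) ≤ w (2 ^ k) +
          ((range (2 ^ k)).filter fun n => dec D (2 ^ k + n) ≠ g (2 ^ k + n)).card := by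
        have hsub : ((range (2 ^ (k + 1))).filter fun m => dec D m ≠ g m) ⊆
            ((range (2 ^ k)).filter fun m => dec D m ≠ g m) ∪
            (((range (2 ^ k)).filter fun n => dec D (2 ^ k + n) ≠ g (2 ^ k + n)).image
              fun n => 2 ^ k + n) := by
          intro m hm
          rw [mem_filter, mem_range, pow_succ] at hm
          rw [mem_union, mem_filter, mem_range, mem_image]
          by_cases hmk : m < 2 ^ k
          · exact Or.inl ⟨hmk, hm.2⟩
          · right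
            refine ⟨m - 2 ^ k, ?_, by omega⟩
            have e : 2 ^ k + (m - 2 ^ k) = m := by omega
            rw [mem_filter, mem_range, e]
            exact ⟨by omega, hm.2⟩
        refine (card_le_card hsub).trans ((card_union_le _ _).trans ?_)
        exact Nat.add_le_add le_rfl card_image_le
      have h2 := hk₀ k hk
      have h3 := Nat.mul_le_mul_left (4 * K) h1
      rw [Nat.mul_add] at h3
      have e4 : 2 ^ (k + 1) = 2 * 2 ^ k := by rw [pow_succ]; ring
      omega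
  refine ⟨2 * K * 2 ^ k₀ + 2 ^ k₀, fun t ht => ?_⟩
  have hcard : ({n | dec D n ≠ g n} ∩ Set.Iio t).ncard = w t := by
    rw [hw]
    simp only
    rw [← Set.ncard_coe_finset]
    congr 1
    ext m
    simp only [Set.mem_inter_iff, Set.mem_ofPred_eq, Set.mem_Iio, coe_filter, mem_range]
    tauto
  rw [hcard]
  have ht0 : t ≠ 0 := by
    have := Nat.one_le_two_pow (n := k₀)
    omega
  set k := Nat.log 2 t with hk
  have hk1 : 2 ^ k ≤ t := Nat.pow_log_le_self 2 ht0
  have hk2 : t < 2 ^ (k + 1) := Nat.lt_pow_succ_log_self (by norm_num) t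
  have hk3 : k₀ ≤ k := Nat.le_log_of_pow_le (by norm_num) (by omega)
  have h1 := hstep (k + 1) (by omega)
  have h2 := Nat.mul_le_mul_left (4 * K) (hwm _ _ hk2.le)
  have e1 : 4 * K * w t = 4 * (K * w t) := by ring
  have e2 : 4 * K * 2 ^ k₀ = 4 * (K * 2 ^ k₀) := by ring
  have e3 : 2 * K * 2 ^ k₀ = 2 * (K * 2 ^ k₀) := by ring
  have e4 : 2 ^ (k + 1) = 2 * 2 ^ k := by rw [pow_succ]; ring
  have e5 : 0 < 2 ^ k₀ := by positivity
  omega

end R624FS
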