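import Mathlib

/-!
Definitions for MP_106a28_lc: descriptions of functions and the eight reducibilities of
asymptotic computability.
-/

namespace R624FS

/-- `F` has density zero. -/
def Dz (F : Set ℕ) : Prop :=
  ∀ K : ℕ, ∃ t₀ : ℕ, ∀ t ≥ t₀, K * (F ∩ Set.Iio t).ncard ≤ t

/-- `d` is a coarse description of `g`. -/
def Coarse (g d : ℕ → ℕ) : Prop := Dz {n | d n ≠ g n}

/-- The partial function `d` (`none`: undefined) is a generic description of `g`. -/
def Generic (g : ℕ → ℕ) (d : ℕ → Option ℕ) : Prop :=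
  (∀ n v, d n = some v → v = g n) ∧ Dz {n | d n = none}

/-- The total function `d` (`none`: the square) is an effective dense description of `g`. -/
def EffDense (g : ℕ → ℕ) (d : ℕ → Option ℕ) : Prop :=
  (∀ n v, d n = some v → v = g n) ∧ Dz {n | d n = none}

/-- The partial function `d` (`none`: undefined) is a dense description of `g`. -/
def DenseD (g : ℕ → ℕ) (d : ℕ → Option ℕ) : Prop := Dz {n | d n ≠ some (g n)}

/-- initial segment of a total function -/
def pre {α : Type} (d : ℕ → α) (s : ℕ) : List α := (List.range s).map d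

/-- The Turing functional given by `φ` sends the total function `d` to the total function `h`:
the value at `n` is the first value which `φ` gives on initial segments of `d`. -/
def Turns {α β : Type} (φ : List α → ℕ → Option β) (d : ℕ → α) (h : ℕ → β) : Prop :=
  ∀ n, ∃ s, φ (pre d s) n = some (h n) ∧ ∀ s' < s, φ (pre d s') n = none

/-- graph of a partial function, as a set of natural numbers -/
def graph (d : ℕ → Option ℕ) : Set ℕ := {x | d x.unpair.1 = some x.unpair.2}

/-- The enumeration operator `W` (a set of pairs of a finite set, given as a list, and a number)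
sends the graph of `d` to the graph of `h`. -/
def Enum (W : List ℕ × ℕ → Prop) (d h : ℕ → Option ℕ) : Prop :=
  ∀ x, x ∈ graph h ↔ ∃ F : List ℕ, W (F, x) ∧ ∀ y ∈ F, y ∈ graph d

/-- nonuniform coarse reducibility -/
def NC (f g : ℕ → ℕ) : Prop :=
  ∀ d, Coarse g d → ∃ φ : List ℕ → ℕ → Option ℕ, Computable₂ φ ∧ ∃ h, Coarse f h ∧ Turns φ d h
/-- uniform coarse reducibility -/
def UC (f g : ℕ → ℕ) : Prop :=
  ∃ φ : List ℕ → ℕ → Option ℕ, Computable₂ φ ∧ ∀ d, Coarse g d → ∃ h, Coarse f h ∧ Turns φ d h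
/-- nonuniform effective dense reducibility -/
def NED (f g : ℕ → ℕ) : Prop :=
  ∀ d, EffDense g d → ∃ φ : List (Option ℕ) → ℕ → Option (Option ℕ), Computable₂ φ ∧
    ∃ h, EffDense f h ∧ Turns φ d h
/-- uniform effective dense reducibility -/
def UED (f g : ℕ → ℕ) : Prop :=
  ∃ φ : List (Option ℕ) → ℕ → Option (Option ℕ), Computable₂ φ ∧
    ∀ d, EffDense g d → ∃ h, EffDense f h ∧ Turns φ d h
/-- nonuniform generic reducibility -/
def NG (f g : ℕ → ℕ) : Prop :=
  ∀ d, Generic g d → ∃ W : List ℕ × ℕ → Prop, REPred W ∧ ∃ h, Generic f h ∧ Enum W d h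
/-- uniform generic reducibility -/
def UG (f g : ℕ → ℕ) : Prop :=
  ∃ W : List ℕ × ℕ → Prop, REPred W ∧ ∀ d, Generic g d → ∃ h, Generic f h ∧ Enum W d h
/-- nonuniform dense reducibility -/
def ND (f g : ℕ → ℕ) : Prop :=
  ∀ d, DenseD g d → ∃ W : List ℕ × ℕ → Prop, REPred W ∧ ∃ h, DenseD f h ∧ Enum W d h
/-- uniform dense reducibility -/
def UD (f g : ℕ → ℕ) : Prop :=
  ∃ W : List ℕ × ℕ → Prop, REPred W ∧ ∀ d, DenseD g d → ∃ h, DenseD f h ∧ Enum W d h

end R624FS
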