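import Pool.Agent.R624.FS.YStmts

/-!
Computability of the coding and of the decoder: a small library.
-/

namespace R624FS.YC

open Primrec R624FS

variable {α : Type} [Primcodable α]

lemma pw {f g : α → ℕ} (hf : Primrec f) (hg : Primrec g) : Primrec fun a => f a ^ g a :=
  (Primrec₂.unpaired'.1 Nat.Primrec.pow).comp hf hg

lemma ad {f g : α → ℕ} (hf : Primrec f) (hg : Primrec g) : Primrec fun a => f a + g a :=
  nat_add.comp hf hg

lemma sb {f g : α → ℕ} (hf : Primrec f) (hg : Primrec g) : Primrec fun a => f a - g a :=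
  nat_sub.comp hf hg

lemma ml {f g : α → ℕ} (hf : Primrec f) (hg : Primrec g) : Primrec fun a => f a * g a :=
  nat_mul.comp hf hg

lemma dv {f g : α → ℕ} (hf : Primrec f) (hg : Primrec g) : Primrec fun a => f a / g a :=
  nat_div.comp hf hg

lemma md {f g : α → ℕ} (hf : Primrec f) (hg : Primrec g) : Primrec fun a => f a % g a :=
  nat_mod.comp hf hg

lemma le' {f g : α → ℕ} (hf : Primrec f) (hg : Primrec g) : PrimrecPred fun a => f a ≤ g a :=
  nat_le.comp hf hg

lemma lt' {f g : α → ℕ} (hf : Primrec f) (hg : Primrec g) : PrimrecPred fun a => f a < g a :=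
  nat_lt.comp hf hg

lemma eq' {β : Type} [Primcodable β] [DecidableEq β] {f g : α → β} (hf : Primrec f)
    (hg : Primrec g) : PrimrecPred fun a => f a = g a :=
  Primrec.eq.comp hf hg

lemma bex {f : α → ℕ} {R : α → ℕ → Prop} (hf : Primrec f) (hR : PrimrecRel R) :
    PrimrecPred fun a => ∃ x < f a, R a x :=
  ((hR.swap.exists_mem_list).comp (list_range.comp hf) Primrec.id).of_eq
    (fun a => by simp [Function.swap])

lemma ball {f : α → ℕ} {R : α → ℕ → Prop} (hf : Primrec f) (hR : PrimrecRel R) :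
    PrimrecPred fun a => ∀ x < f a, R a x :=
  ((hR.swap.forall_mem_list).comp (list_range.comp hf) Primrec.id).of_eq
    (fun a => by simp [Function.swap])

lemma lg {f : α → ℕ} (hf : Primrec f) : Primrec fun a => Nat.log 2 (f a) := by
  refine (nat_findGreatest hf (p := fun a y => 2 ^ y ≤ f a)
    (le' (pw (const 2) snd) (hf.comp fst))).of_eq fun a => ?_
  rw [Nat.findGreatest_eq_iff]
  refine ⟨Nat.log_le_self 2 (f a), ?_, ?_⟩
  · intro h
    apply Nat.pow_log_le_self
    intro h0
    rw [h0] at h
    simp at h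
  · intro n h1 h2 h3
    have := Nat.le_log_of_pow_le (by norm_num) h3
    omega

lemma sq {f : α → ℕ} (hf : Primrec f) : Primrec fun a => Nat.sqrt (f a) := by
  refine (nat_findGreatest hf (p := fun a y => y * y ≤ f a)
    (le' (ml snd snd) (hf.comp fst))).of_eq fun a => ?_
  rw [Nat.findGreatest_eq_iff]
  refine ⟨Nat.sqrt_le_self (f a), fun _ => Nat.sqrt_le (f a), ?_⟩
  intro n h1 h2 h3
  have := Nat.le_sqrt.mpr h3
  omega

lemma cnt {f : α → ℕ} {p : α → ℕ → Prop} [∀ a, DecidablePred (p a)] (hf : Primrec f)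
    (hp : PrimrecRel p) : Primrec fun a => ((Finset.range (f a)).filter (p a)).card := by
  classical
  have h : Primrec fun a => Nat.rec (motive := fun _ => ℕ) 0
      (fun y IH => if p a y then IH + 1 else IH) (f a) := by
    refine nat_rec' (h := fun a (q : ℕ × ℕ) => if p a q.1 then q.2 + 1 else q.2) hf (const 0) ?_
    refine Primrec.ite (c := fun q : α × (ℕ × ℕ) => p q.1 q.2.1) ?_ ?_ ?_
    · exact hp.comp fst (fst.comp snd)
    · exact succ.comp (snd.comp snd)
    · exact snd.comp snd
  refine h.of_eq fun a => ?_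
  generalize f a = n
  induction n with
  | zero => simp
  | succ n ih =>
    rw [Finset.range_add_one, Finset.filter_insert]
    simp only
    by_cases hpn : p a n
    · rw [if_pos hpn, if_pos hpn, Finset.card_insert_of_notMem (by simp), ih]
    · rw [if_neg hpn, if_neg hpn, ih]

lemma tb {f g : α → ℕ} (hf : Primrec f) (hg : Primrec g) :
    Primrec fun a => (f a).testBit (g a) := by
  refine (PrimrecPred.decide (p := fun a => f a / 2 ^ g a % 2 = 1) ?_).of_eq fun a => ?_
  · exact eq' (md (dv hf (pw (const 2) hg)) (const 2)) (const 1)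
  · rw [Nat.testBit_eq_decide_div_mod_eq]

lemma gt {f : α → List ℕ} {g : α → ℕ} (hf : Primrec f) (hg : Primrec g) :
    Primrec fun a => (f a).getD (g a) 0 :=
  (list_getD 0).comp hf hg

lemma pr {f g : α → ℕ} (hf : Primrec f) (hg : Primrec g) : Primrec fun a => Nat.pair (f a) (g a) :=
  Primrec₂.natPair.comp hf hg

lemma p_scl {f : α → ℕ} (hf : Primrec f) : Primrec fun a => scl (f a) := by
  unfold scl
  exact sq (dv (lg hf) (const 4))

lemma p_lo {f : α → ℕ} (hf : Primrec f) : Primrec fun a => lo (f a) := by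
  unfold lo
  exact pw (const 2) (ml (const 4) (pw hf (const 2)))

lemma p_hi {f : α → ℕ} (hf : Primrec f) : Primrec fun a => hi (f a) := by
  unfold hi
  exact pw (const 2) (ml (const 4) (pw (succ.comp hf) (const 2)))

lemma p_act {σ : α → List ℕ} {k i : α → ℕ} (hσ : Primrec σ) (hk : Primrec k) (hi : Primrec i) :
    Primrec fun a => act (fun n => (σ a).getD n 0) (k a) (i a) := by
  unfold act
  refine cnt (p := fun a n => i a ≤ (σ a).getD (2 ^ k a + n) 0) (pw (const 2) hk) ?_
  exact le' (hi.comp fst) (gt (hσ.comp fst) (ad (pw (const 2) (hk.comp fst)) snd))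

lemma p_enc {σ : α → List ℕ} {x : α → ℕ} (hσ : Primrec σ) (hx : Primrec x) :
    Primrec fun a => enc (fun n => (σ a).getD n 0) (x a) := by
  have hs := p_scl hx
  have hk : Primrec fun a => (scl (x a)).unpair.1 := fst.comp (Primrec.unpair.comp hs)
  have hi : Primrec fun a => (scl (x a)).unpair.2 := snd.comp (Primrec.unpair.comp hs)
  have hv : Primrec fun a => (σ a).getD (2 ^ (scl (x a)).unpair.1 +
      x a / 2 ^ (scl (x a) + 2) % 2 ^ (scl (x a)).unpair.1) 0 :=
    gt hσ (ad (pw (const 2) hk) (md (dv hx (pw (const 2) (ad hs (const 2)))) (pw (const 2) hk)))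
  unfold enc
  refine Primrec.ite ?_ ?_ (const 0)
  · exact lt' (md (dv hx (pw (const 2) (ad (ad hs (const 2)) hk))) (pw (const 2) hk))
      (p_act hσ hk hi)
  · refine Primrec.ite (eq' (md hx (const 2)) (const 0)) (const 1) ?_
    refine Primrec.ite (PrimrecPred.and (le' hv hi) (eq' (tb hx (succ.comp hv)) (const true)))
      (const 1) (const 0)

lemma act_congr {g g' : ℕ → ℕ} {k : ℕ} (h : ∀ n < 2 ^ (k + 1), g n = g' n) (i : ℕ) :
    act g k i = act g' k i := by
  unfold act
  congr 1
  apply Finset.filter_congr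
  intro n hn
  rw [Finset.mem_range] at hn
  rw [h _ (by rw [pow_succ]; omega)]

lemma enc_congr {g g' : ℕ → ℕ} {x : ℕ} (h : ∀ n < 2 ^ ((scl x).unpair.1 + 1), g n = g' n) :
    enc g x = enc g' x := by
  have h1 := act_congr h (scl x).unpair.2
  have hpos : 0 < 2 ^ (scl x).unpair.1 := by positivity
  have h2 : g (2 ^ (scl x).unpair.1 + x / 2 ^ (scl x + 2) % 2 ^ (scl x).unpair.1) =
      g' (2 ^ (scl x).unpair.1 + x / 2 ^ (scl x + 2) % 2 ^ (scl x).unpair.1) := by
    apply h
    have := Nat.mod_lt (x / 2 ^ (scl x + 2)) hpos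
    rw [pow_succ]; omega
  unfold enc
  rw [h1, h2]

lemma pre_getD (d : ℕ → ℕ) (s n : ℕ) (h : n < s) : (pre d s).getD n 0 = d n := by
  unfold pre
  simp [List.getD, h]

lemma pre_length (d : ℕ → ℕ) (s : ℕ) : (pre d s).length = s := by
  unfold pre
  simp

end R624FS.YC

namespace R624FS

open Primrec YC

theorem s_enccomp : S_enccomp := by
  classical
  refine ⟨fun σ x => if 2 ^ ((scl x).unpair.1 + 1) ≤ σ.length then
    some (enc (fun n => σ.getD n 0) x) else none, ?_, ?_⟩
  · apply Primrec₂.to_comp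
    have hk : Primrec fun q : List ℕ × ℕ => (scl q.2).unpair.1 :=
      fst.comp (Primrec.unpair.comp (p_scl snd))
    exact Primrec.ite (le' (pw (const 2) (succ.comp hk)) (list_length.comp fst))
      (option_some.comp (p_enc fst snd)) (const none)
  · intro d x
    refine ⟨2 ^ ((scl x).unpair.1 + 1), ?_, ?_⟩
    · simp only [pre_length, le_refl, if_true]
      congr 1
      apply enc_congr
      intro n hn
      exact pre_getD d _ n hn
    · intro s' hs'
      simp only [pre_length]
      rw [if_neg (by omega)]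

end R624FS
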