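import Pool.Agent.R624.FS.YStmts

/-!
Piece encdz: the coding is continuous for the density.
-/

namespace R624FS

open Finset

theorem encdz_ncard (p : ℕ → Prop) [DecidablePred p] (t : ℕ) :
    ({x | p x} ∩ Set.Iio t).ncard = ((range t).filter p).card := by
  rw [← Set.ncard_coe_finset]
  congr 1
  ext x
  simp [and_comm]

theorem encdz_lo_succ (s : ℕ) : lo (s + 1) = hi s := rfl

theorem encdz_lo_hi (s : ℕ) : 2 * lo s ≤ hi s := by
  unfold lo hi
  rw [← pow_succ']
  apply Nat.pow_le_pow_right (by norm_num)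
  have h : (s + 1) ^ 2 = s ^ 2 + 2 * s + 1 := by ring
  rw [h]
  omega

theorem encdz_scl {s x : ℕ} (h1 : lo s ≤ x) (h2 : x < hi s) : scl x = s := by
  unfold scl
  unfold lo at h1
  unfold hi at h2
  have hx : x ≠ 0 := by
    rintro rfl
    have : 0 < 2 ^ (4 * s ^ 2) := by positivity
    omega
  have h3 : 4 * s ^ 2 ≤ Nat.log 2 x := (Nat.le_log_iff_pow_le (by norm_num) hx).2 h1
  have h4 : Nat.log 2 x < 4 * (s + 1) ^ 2 := (Nat.log_lt_iff_lt_pow (by norm_num) hx).2 h2
  have h5 : s * s ≤ Nat.log 2 x / 4 := by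
    rw [Nat.le_div_iff_mul_le (by norm_num)]
    nlinarith
  have h6 : Nat.log 2 x / 4 < (s + 1) * (s + 1) := by
    rw [Nat.div_lt_iff_lt_mul (by norm_num)]
    nlinarith
  apply le_antisymm
  · exact Nat.le_of_lt_succ (Nat.sqrt_lt.2 h6)
  · exact Nat.le_sqrt.2 h5

/-- counting the positions with given middle bits -/
theorem encdz_count (a k t : ℕ) (S : Finset ℕ) :
    ((range t).filter fun x => x / 2 ^ a % 2 ^ k ∈ S).card ≤
      (t / 2 ^ (a + k) + 1) * (2 ^ a * S.card) := by
  have h : ((range t).filter fun x => x / 2 ^ a % 2 ^ k ∈ S).card ≤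
      ((range (t / 2 ^ (a + k) + 1)) ×ˢ ((range (2 ^ a)) ×ˢ S)).card := by
    refine Finset.card_le_card_of_injOn
      (fun x => (x / 2 ^ (a + k), (x % 2 ^ a, x / 2 ^ a % 2 ^ k))) ?_ ?_
    · intro x hx
      simp only [Finset.coe_filter, Finset.mem_range, Set.mem_ofPred_eq] at hx
      simp only [Finset.coe_product, Set.mem_prod, Finset.mem_coe, Finset.mem_range]
      refine ⟨?_, Nat.mod_lt _ (by positivity), hx.2⟩
      exact Nat.lt_succ_of_le (Nat.div_le_div_right hx.1.le)
    · intro x _ y _ hxy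
      simp only [Prod.mk.injEq] at hxy
      obtain ⟨h1, h2, h3⟩ := hxy
      rw [pow_add, ← Nat.div_div_eq_div_mul, ← Nat.div_div_eq_div_mul] at h1
      have h4 : x / 2 ^ a = y / 2 ^ a := by
        rw [← Nat.div_add_mod (x / 2 ^ a) (2 ^ k), ← Nat.div_add_mod (y / 2 ^ a) (2 ^ k), h1, h3]
      rw [← Nat.div_add_mod x (2 ^ a), ← Nat.div_add_mod y (2 ^ a), h4, h2]
  refine h.trans (le_of_eq ?_)
  rw [Finset.card_product, Finset.card_product, Finset.card_range, Finset.card_range]

theorem encdz_count' (a k t c : ℕ) (S : Finset ℕ) (hS : c * S.card ≤ 2 ^ k)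
    (ht : 2 ^ (a + k) ≤ t) :
    c * ((range t).filter fun x => x / 2 ^ a % 2 ^ k ∈ S).card ≤ 2 * t := by
  calc c * ((range t).filter fun x => x / 2 ^ a % 2 ^ k ∈ S).card
      ≤ c * ((t / 2 ^ (a + k) + 1) * (2 ^ a * S.card)) :=
        Nat.mul_le_mul_left _ (encdz_count a k t S)
    _ = (t / 2 ^ (a + k) + 1) * (2 ^ a * (c * S.card)) := by ring
    _ ≤ (t / 2 ^ (a + k) + 1) * (2 ^ a * 2 ^ k) :=
        Nat.mul_le_mul_left _ (Nat.mul_le_mul_left _ hS)
    _ = t / 2 ^ (a + k) * 2 ^ (a + k) + 2 ^ (a + k) := by rw [← pow_add]; ring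
    _ ≤ t + t := Nat.add_le_add (Nat.div_mul_le_self _ _) ht
    _ = 2 * t := by ring

/-- the bad elements of the block -/
def encdz_bad (d g : ℕ → ℕ) (k : ℕ) : Finset ℕ :=
  (range (2 ^ k)).filter fun n => d (2 ^ k + n) ≠ g (2 ^ k + n)

theorem encdz_act (d g : ℕ → ℕ) (k i : ℕ) : act d k i ≤ act g k i + (encdz_bad d g k).card := by
  unfold act encdz_bad
  refine (Finset.card_le_card ?_).trans (Finset.card_union_le _ _)
  intro n hn
  simp only [mem_filter, mem_range, mem_union] at hn ⊢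
  by_cases h : d (2 ^ k + n) = g (2 ^ k + n)
  · left
    exact ⟨hn.1, by rw [← h]; exact hn.2⟩
  · right
    exact ⟨hn.1, h⟩

theorem encdz_bad_comm (d g : ℕ → ℕ) (k : ℕ) : encdz_bad d g k = encdz_bad g d k := by
  unfold encdz_bad
  refine Finset.filter_congr fun n _ => ?_
  exact ne_comm

/-- the layers between the two numbers of active layers -/
def encdz_lay (d g : ℕ → ℕ) (k i : ℕ) : Finset ℕ :=
  Ico (min (act d k i) (act g k i)) (max (act d k i) (act g k i))

theorem encdz_lay_card (d g : ℕ → ℕ) (k i : ℕ) :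
    (encdz_lay d g k i).card ≤ (encdz_bad d g k).card := by
  unfold encdz_lay
  rw [Nat.card_Ico]
  have h1 := encdz_act d g k i
  have h2 := encdz_act g d k i
  rw [← encdz_bad_comm] at h2
  rcases le_total (act d k i) (act g k i) with h | h
  · rw [min_eq_left h, max_eq_right h]; omega
  · rw [min_eq_right h, max_eq_left h]; omega

theorem encdz_diff {d g : ℕ → ℕ} {x s : ℕ} (hs : scl x = s) (hx : enc d x ≠ enc g x) :
    x / 2 ^ (s + 2 + s.unpair.1) % 2 ^ s.unpair.1 ∈ encdz_lay d g s.unpair.1 s.unpair.2 ∨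
      x / 2 ^ (s + 2) % 2 ^ s.unpair.1 ∈ encdz_bad d g s.unpair.1 := by
  by_contra hcon
  push Not at hcon
  obtain ⟨h1, h2⟩ := hcon
  apply hx
  have h3 : (x / 2 ^ (s + 2 + s.unpair.1) % 2 ^ s.unpair.1 < act d s.unpair.1 s.unpair.2) ↔
      (x / 2 ^ (s + 2 + s.unpair.1) % 2 ^ s.unpair.1 < act g s.unpair.1 s.unpair.2) := by
    unfold encdz_lay at h1
    rw [Finset.mem_Ico] at h1
    rcases le_total (act d s.unpair.1 s.unpair.2) (act g s.unpair.1 s.unpair.2) with h | h
    · rw [min_eq_left h, max_eq_right h] at h1; omega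
    · rw [min_eq_right h, max_eq_left h] at h1; omega
  have h4 : d (2 ^ s.unpair.1 + x / 2 ^ (s + 2) % 2 ^ s.unpair.1) =
      g (2 ^ s.unpair.1 + x / 2 ^ (s + 2) % 2 ^ s.unpair.1) := by
    unfold encdz_bad at h2
    rw [mem_filter, mem_range] at h2
    by_contra h5
    exact h2 ⟨Nat.mod_lt _ (by positivity), h5⟩
  unfold enc
  rw [hs, h4]
  simp only [h3]

/-- the number of errors of one scale -/
theorem encdz_scale {d g : ℕ → ℕ} {s t c : ℕ} (hs : 2 ≤ s) (ht : lo s ≤ t) (ht' : t ≤ hi s)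
    (hc : c * (encdz_bad d g s.unpair.1).card ≤ 2 ^ s.unpair.1) :
    c * ((Ico (lo s) t).filter fun x => enc d x ≠ enc g x).card ≤ 4 * t := by
  set k := s.unpair.1 with hk
  have hks : k ≤ s := Nat.unpair_left_le s
  have h1 : (Ico (lo s) t).filter (fun x => enc d x ≠ enc g x) ⊆
      ((range t).filter fun x => x / 2 ^ (s + 2 + k) % 2 ^ k ∈ encdz_lay d g k s.unpair.2) ∪
      ((range t).filter fun x => x / 2 ^ (s + 2) % 2 ^ k ∈ encdz_bad d g k) := by
    intro x hx
    rw [mem_filter, mem_Ico] at hx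
    rw [mem_union, mem_filter, mem_filter, mem_range]
    have hs' : scl x = s := encdz_scl hx.1.1 (hx.1.2.trans_le ht')
    rcases encdz_diff hs' hx.2 with h | h
    · exact Or.inl ⟨hx.1.2, h⟩
    · exact Or.inr ⟨hx.1.2, h⟩
  have h2 := (Finset.card_le_card h1).trans (Finset.card_union_le _ _)
  have h5 : 2 ^ (s + 2 + k + k) ≤ t := by
    refine le_trans ?_ ht
    unfold lo
    apply Nat.pow_le_pow_right (by norm_num)
    nlinarith
  have h6 : 2 ^ (s + 2 + k) ≤ t :=
    (Nat.pow_le_pow_right (by norm_num) (Nat.le_add_right _ _)).trans h5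
  have h3 := encdz_count' (s + 2 + k) k t c (encdz_lay d g k s.unpair.2)
    ((Nat.mul_le_mul_left _ (encdz_lay_card d g k _)).trans hc) h5
  have h4 := encdz_count' (s + 2) k t c (encdz_bad d g k) hc h6
  calc c * ((Ico (lo s) t).filter fun x => enc d x ≠ enc g x).card
      ≤ c * (_ + _) := Nat.mul_le_mul_left _ h2
    _ = c * _ + c * _ := Nat.mul_add _ _ _
    _ ≤ 2 * t + 2 * t := Nat.add_le_add h3 h4
    _ = 4 * t := by ring

theorem encdz_none {d g : ℕ → ℕ} {k M : ℕ} (hM : ∀ n < 2 ^ k, d (2 ^ k + n) < M ∧ g (2 ^ k + n) < M)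
    {s x : ℕ} (hs : scl x = s) (hk : s.unpair.1 = k) (hi : M ≤ s.unpair.2) :
    enc d x = enc g x := by
  have h1 : act d k s.unpair.2 = 0 := by
    unfold act
    rw [card_eq_zero, filter_eq_empty_iff]
    intro n hn h
    have := (hM n (mem_range.1 hn)).1
    omega
  have h2 : act g k s.unpair.2 = 0 := by
    unfold act
    rw [card_eq_zero, filter_eq_empty_iff]
    intro n hn h
    have := (hM n (mem_range.1 hn)).2
    omega
  unfold enc
  rw [hs, hk, h1, h2]
  simp

theorem s_encdz : S_encdz := by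
  classical
  intro g d hE K
  -- the blocks
  obtain ⟨t0, ht0⟩ := hE (48 * (K + 1))
  have hbad : ∀ k, t0 ≤ 2 ^ (k + 1) → 24 * (K + 1) * (encdz_bad d g k).card ≤ 2 ^ k := by
    intro k hk
    have h1 := ht0 _ hk
    rw [encdz_ncard] at h1
    have h2 : (encdz_bad d g k).card ≤ ((range (2 ^ (k + 1))).filter fun n => d n ≠ g n).card := by
      refine Finset.card_le_card_of_injOn (fun n => 2 ^ k + n) ?_ ?_
      · intro n hn
        unfold encdz_bad at hn
        simp only [Finset.coe_filter, Finset.mem_range, Set.mem_ofPred_eq] at hn ⊢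
        refine ⟨?_, hn.2⟩
        rw [pow_succ]
        omega
      · intro a _ b _ hab
        simpa using hab
    have h3 : 48 * (K + 1) * (encdz_bad d g k).card ≤ 2 ^ (k + 1) :=
      (Nat.mul_le_mul_left _ h2).trans h1
    rw [pow_succ] at h3
    nlinarith
  -- the first scale
  obtain ⟨s1, hs1, hbound⟩ : ∃ s1, 2 ≤ s1 ∧ ∀ s ≥ s1, ∀ t, lo s ≤ t → t ≤ hi s →
      24 * (K + 1) * ((Ico (lo s) t).filter fun x => enc d x ≠ enc g x).card ≤ 4 * t := by
    -- `k0`
    have hk0 : ∀ k, t0 ≤ k → t0 ≤ 2 ^ (k + 1) := fun k hk =>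
      hk.trans ((Nat.lt_two_pow_self).le.trans (Nat.pow_le_pow_right (by norm_num) (Nat.le_succ k)))
    have hMex : ∃ M, ∀ k < t0, ∀ n < 2 ^ k, d (2 ^ k + n) < M ∧ g (2 ^ k + n) < M := by
      refine ⟨(∑ k ∈ range t0, ∑ n ∈ range (2 ^ k), (d (2 ^ k + n) + g (2 ^ k + n))) + 1, ?_⟩
      intro k hk n hn
      have h1 : ∑ n ∈ range (2 ^ k), (d (2 ^ k + n) + g (2 ^ k + n)) ≤
          ∑ k ∈ range t0, ∑ n ∈ range (2 ^ k), (d (2 ^ k + n) + g (2 ^ k + n)) :=
        Finset.single_le_sum (f := fun k => ∑ n ∈ range (2 ^ k), (d (2 ^ k + n) + g (2 ^ k + n)))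
          (fun _ _ => Nat.zero_le _) (mem_range.2 hk)
      have h2 : d (2 ^ k + n) + g (2 ^ k + n) ≤
          ∑ n ∈ range (2 ^ k), (d (2 ^ k + n) + g (2 ^ k + n)) :=
        Finset.single_le_sum (f := fun n => d (2 ^ k + n) + g (2 ^ k + n))
          (fun _ _ => Nat.zero_le _) (mem_range.2 hn)
      omega
    obtain ⟨M, hM⟩ := hMex
    -- beyond `s1` the visits of the blocks `k < t0` are late
    refine ⟨(t0 + M + 2) ^ 2 + 2, by omega, fun s hs t h1 h2 => ?_⟩
    have hs2 : 2 ≤ s := by omega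
    by_cases hk : t0 ≤ s.unpair.1
    · exact encdz_scale hs2 h1 h2 (hbad _ (hk0 _ hk))
    · push Not at hk
      have hM' : M ≤ s.unpair.2 := by
        by_contra hcon
        push Not at hcon
        have h3 : s = Nat.pair s.unpair.1 s.unpair.2 := (Nat.pair_unpair s).symm
        have h4 : Nat.pair s.unpair.1 s.unpair.2 < (max s.unpair.1 s.unpair.2 + 1) ^ 2 :=
          Nat.pair_lt_max_add_one_sq _ _
        rw [← h3] at h4
        have h5 : max s.unpair.1 s.unpair.2 + 1 ≤ t0 + M + 2 := by omega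
        have h6 := Nat.pow_le_pow_left h5 2
        omega
      have h3 : (Ico (lo s) t).filter (fun x => enc d x ≠ enc g x) = ∅ := by
        rw [filter_eq_empty_iff]
        intro x hx h
        rw [mem_Ico] at hx
        exact h (encdz_none (hM _ hk) (encdz_scl hx.1 (hx.2.trans_le h2)) rfl hM')
      rw [h3]
      simp
  -- induction on the scale
  set c := 24 * (K + 1) with hc
  have hsplit : ∀ a b : ℕ, a ≤ b → ((range b).filter fun x => enc d x ≠ enc g x).card ≤
      ((range a).filter fun x => enc d x ≠ enc g x).card +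
        ((Ico a b).filter fun x => enc d x ≠ enc g x).card := by
    intro a b hab
    rw [range_eq_Ico, range_eq_Ico, ← Finset.Ico_union_Ico_eq_Ico (Nat.zero_le a) hab,
      Finset.filter_union]
    exact Finset.card_union_le _ _
  have hind : ∀ s, s1 ≤ s → c * ((range (lo s)).filter fun x => enc d x ≠ enc g x).card ≤
      c * lo s1 + 8 * lo s := by
    intro s hs
    induction s, hs using Nat.le_induction with
    | base =>
      have h1 : ((range (lo s1)).filter fun x => enc d x ≠ enc g x).card ≤ lo s1 := by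
        refine (Finset.card_filter_le _ _).trans ?_
        rw [card_range]
      exact (Nat.mul_le_mul_left _ h1).trans (Nat.le_add_right _ _)
    | succ s hs ih =>
      rw [encdz_lo_succ]
      have h1 := hsplit (lo s) (hi s) (by have := encdz_lo_hi s; omega)
      have h2 := hbound s hs (hi s) (by have := encdz_lo_hi s; omega) le_rfl
      have h3 := Nat.mul_le_mul_left c h1
      rw [Nat.mul_add] at h3
      have h4 := encdz_lo_hi s
      omega
  refine ⟨2 * (K + 1) * lo s1 + lo s1, fun t ht => ?_⟩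
  rw [encdz_ncard]
  -- the scale of `t`
  have hlt : lo s1 ≤ t := by omega
  obtain ⟨S, hS1, hS2, hS3⟩ : ∃ S, s1 ≤ S ∧ lo S ≤ t ∧ t ≤ hi S := by
    have hex : ∃ S, t < lo S := by
      refine ⟨t, ?_⟩
      unfold lo
      refine Nat.lt_two_pow_self.trans_le (Nat.pow_le_pow_right (by norm_num) ?_)
      nlinarith
    have h1 : t < lo (Nat.find hex) := Nat.find_spec hex
    have h2 : s1 < Nat.find hex := by
      by_contra hcon
      push Not at hcon
      have h3 : lo (Nat.find hex) ≤ lo s1 := by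
        unfold lo
        apply Nat.pow_le_pow_right (by norm_num)
        exact Nat.mul_le_mul_left 4 (Nat.pow_le_pow_left hcon 2)
      exact absurd (hlt.trans_lt (h1.trans_le h3)) (lt_irrefl _)
    obtain ⟨m, hm⟩ := Nat.exists_eq_succ_of_ne_zero (show Nat.find hex ≠ 0 by omega)
    refine ⟨m, by omega, ?_, ?_⟩
    · have := Nat.find_min hex (m := m) (by omega)
      omega
    · rw [hm] at h1
      exact h1.le
  have h1 := hsplit (lo S) t hS2
  have h2 := hbound S hS1 t hS2 hS3
  have h3 := hind S hS1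
  have h4 := Nat.mul_le_mul_left c h1
  rw [Nat.mul_add] at h4
  have h5 : c * ((range t).filter fun x => enc d x ≠ enc g x).card ≤ c * lo s1 + 12 * t := by
    omega
  have h6 : c * lo s1 ≤ 12 * t := by
    rw [hc]
    nlinarith
  have h7 : c * ((range t).filter fun x => enc d x ≠ enc g x).card ≤ 24 * t := by omega
  have h8 : (K + 1) * ((range t).filter fun x => enc d x ≠ enc g x).card ≤ t := by
    rw [hc] at h7
    nlinarith
  exact (Nat.mul_le_mul_right _ (Nat.le_succ K)).trans h8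

end R624FS
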