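import Pool.Agent.R624.FS.NDefs

/-!
Fusion piece of the project FS (MP_106a28_lc), helper608.
-/

namespace R624FS

namespace Fusion

lemma Dz_mono {F G : Set ℕ} (h : F ⊆ G) (hG : Dz G) : Dz F := by
  intro K
  obtain ⟨t₀, ht⟩ := hG K
  refine ⟨t₀, fun t htt => le_trans (Nat.mul_le_mul_left _ ?_) (ht t htt)⟩
  exact Set.ncard_le_ncard (Set.inter_subset_inter_left _ h)
    ((Set.finite_Iio t).subset Set.inter_subset_right)

lemma Alw_mono {k m : ℕ} {S : Finset ℕ} (h : Alw (2 * k) m S) : Alw k m S := by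
  refine ⟨h.1, fun t => ?_⟩
  have := h.2 t
  nlinarith

lemma pre_congr {X Y : ℕ → Option ℕ} {s : ℕ} (h : ∀ i < s, X i = Y i) : pre X s = pre Y s := by
  unfold pre
  apply List.map_congr_left
  intro i hi
  exact h i (List.mem_range.mp hi)

lemma Rel_congr {R : Op} {X : ℕ → Option ℕ} {x y : ℕ} (h : Rel R X x y) :
    ∃ u, ∀ Y : ℕ → Option ℕ, (∀ i < u, Y i = X i) → Rel R Y x y := by
  obtain ⟨s, hs⟩ := h
  refine ⟨s, fun Y hY => ⟨s, ?_⟩⟩
  rw [pre_congr hY]
  exact hs

lemma Qb_congr {Q : List (ℕ × ℕ) → Prop} {R : Op} {X : ℕ → Option ℕ} (h : Qb Q (Rel R X)) :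
    ∃ u, ∀ Y : ℕ → Option ℕ, (∀ i < u, Y i = X i) → Qb Q (Rel R Y) := by
  obtain ⟨l, hl, hp⟩ := h
  have key : ∀ l' : List (ℕ × ℕ), (∀ p ∈ l', Rel R X p.1 p.2) →
      ∃ u, ∀ Y : ℕ → Option ℕ, (∀ i < u, Y i = X i) → ∀ p ∈ l', Rel R Y p.1 p.2 := by
    intro l'
    induction l' with
    | nil => intro _; exact ⟨0, fun Y _ p hp => by simp at hp⟩
    | cons a l' ih =>
      intro h
      obtain ⟨u1, h1⟩ := Rel_congr (h a (by simp))
      obtain ⟨u2, h2⟩ := ih fun p hp => h p (by simp [hp])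
      refine ⟨max u1 u2, fun Y hY p hp => ?_⟩
      rcases List.mem_cons.mp hp with rfl | hp
      · exact h1 Y fun i hi => hY i (lt_of_lt_of_le hi (le_max_left _ _))
      · exact h2 Y (fun i hi => hY i (lt_of_lt_of_le hi (le_max_right _ _))) p hp
  obtain ⟨u, hu⟩ := key l hp
  exact ⟨u, fun Y hY => ⟨l, hl, hu Y hY⟩⟩

lemma erase_congr {g : ℕ → ℕ} {F G : Set ℕ} {i : ℕ} (h : i ∈ F ↔ i ∈ G) :
    erase g F i = erase g G i := by
  unfold erase
  by_cases h1 : i ∈ F
  · rw [if_pos h1, if_pos (h.mp h1)]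
  · rw [if_neg h1, if_neg fun h2 => h1 (h.mpr h2)]

open Classical in
/-- the elements below `t` of the sets `S i`, `e ≤ i` -/
noncomputable def TS (S : ℕ → Finset ℕ) (e t : ℕ) : Finset ℕ :=
  (Finset.range t).filter fun n => ∃ i, e ≤ i ∧ n ∈ S i

open Classical in
/-- the elements below `t` of the sets `S i`, `e ≤ i < e + N` -/
noncomputable def TN (S : ℕ → Finset ℕ) (e t N : ℕ) : Finset ℕ :=
  (Finset.range t).filter fun n => ∃ i, e ≤ i ∧ i < e + N ∧ n ∈ S i

lemma TN_card (S : ℕ → Finset ℕ) (hS : ∀ i t, 4 ^ i * ((S i).filter (· < t)).card ≤ t) (t N : ℕ) :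
    ∀ e, 3 * (4 ^ e * (TN S e t N).card) ≤ 4 * t := by
  induction N with
  | zero =>
    intro e
    have : TN S e t 0 = ∅ := by
      rw [Finset.eq_empty_iff_forall_notMem]
      intro n hn
      simp only [TN, Finset.mem_filter] at hn
      obtain ⟨-, i, h1, h2, -⟩ := hn
      omega
    rw [this]
    simp
  | succ N ih =>
    intro e
    have h1 : TN S e t (N + 1) ⊆ (S e).filter (· < t) ∪ TN S (e + 1) t N := by
      intro n hn
      simp only [TN, Finset.mem_filter, Finset.mem_range, Finset.mem_union] at hn ⊢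
      obtain ⟨hn, i, h1, h2, h3⟩ := hn
      rcases Nat.eq_or_lt_of_le h1 with rfl | h4
      · exact Or.inl ⟨h3, hn⟩
      · exact Or.inr ⟨hn, i, h4, by omega, h3⟩
    have h2 := (Finset.card_le_card h1).trans (Finset.card_union_le _ _)
    have h3 := hS e t
    have h4 := ih (e + 1)
    have h5 : 4 ^ e * (TN S e t (N + 1)).card ≤
        4 ^ e * ((S e).filter (· < t)).card + 4 ^ e * (TN S (e + 1) t N).card := by
      rw [← Nat.mul_add]
      exact Nat.mul_le_mul_left _ h2
    have h6 : 4 ^ (e + 1) * (TN S (e + 1) t N).card = 4 * (4 ^ e * (TN S (e + 1) t N).card) := by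
      ring
    omega

lemma TS_card (S : ℕ → Finset ℕ) (hS : ∀ i t, 4 ^ i * ((S i).filter (· < t)).card ≤ t) (e t : ℕ) :
    3 * (4 ^ e * (TS S e t).card) ≤ 4 * t := by
  refine le_trans ?_ (TN_card S hS t t e)
  refine Nat.mul_le_mul_left _ (Nat.mul_le_mul_left _ (Finset.card_le_card ?_))
  intro n hn
  simp only [TN, TS, Finset.mem_filter, Finset.mem_range] at hn ⊢
  obtain ⟨hn, i, h1, h2⟩ := hn
  refine ⟨hn, i, h1, ?_, h2⟩
  by_contra hc
  have h3 := hS i t
  have h4 : 1 ≤ ((S i).filter (· < t)).card :=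
    Finset.card_pos.mpr ⟨n, Finset.mem_filter.mpr ⟨h2, hn⟩⟩
  have h5 : i < 4 ^ i := Nat.lt_pow_self (by norm_num)
  have h6 : 4 ^ i * 1 ≤ 4 ^ i * ((S i).filter (· < t)).card := Nat.mul_le_mul_left _ h4
  omega

end Fusion

open Fusion in
theorem s_fusion : S_fusion := by
  intro fam g A Q hyp
  by_contra hcon
  have hstep : ∀ (e : ℕ) (B : Finset ℕ) (m : ℕ), ∃ (S : Finset ℕ) (u : ℕ), Alw (4 ^ e) m S ∧
      ((∀ X : ℕ → Option ℕ, (∀ i < u, X i = erase g ↑(B ∪ S) i) → Qb Q (Rel (fam e) X)) ∨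
      (Alw (2 * 4 ^ e) m S ∧ ¬ Dz {x | ¬ ∃ S' : Finset ℕ, S ⊆ S' ∧ Alw (4 ^ e) m S' ∧
        Rel (fam e) (erase g ↑(B ∪ S')) x (A x)})) := by
    intro e B m
    by_contra hc
    apply hcon
    refine ⟨e, B, m, 4 ^ e, Nat.one_le_pow _ _ (by norm_num), ?_, ?_⟩
    · intro S hS hQ
      obtain ⟨u, hu⟩ := Qb_congr hQ
      exact hc ⟨S, u, hS, Or.inl hu⟩
    · intro S hS
      by_contra hD
      exact hc ⟨S, 0, Alw_mono hS, Or.inr ⟨hS, hD⟩⟩
  choose SS uu hS1 hS2 using hstep
  let st : ℕ → Finset ℕ × ℕ := fun e => Nat.rec (∅, 0)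
    (fun e p => (p.1 ∪ SS e p.1 p.2, max p.2 (uu e p.1 p.2))) e
  have hst0 : st 0 = (∅, 0) := rfl
  have hstS : ∀ e, st (e + 1) = ((st e).1 ∪ SS e (st e).1 (st e).2,
    max (st e).2 (uu e (st e).1 (st e).2)) := fun e => rfl
  generalize st = st at hst0 hstS
  obtain ⟨S, hSdef⟩ : ∃ S : ℕ → Finset ℕ, ∀ e, S e = SS e (st e).1 (st e).2 := ⟨_, fun e => rfl⟩
  have hB : ∀ e n, n ∈ (st e).1 ↔ ∃ i, i < e ∧ n ∈ S i := by
    intro e
    induction e with
    | zero => intro n; rw [hst0]; simp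
    | succ e ih =>
      intro n
      rw [hstS]
      simp only [Finset.mem_union, ih]
      constructor
      · rintro (⟨i, h1, h2⟩ | h)
        · exact ⟨i, by omega, h2⟩
        · exact ⟨e, by omega, by rw [hSdef]; exact h⟩
      · rintro ⟨i, h1, h2⟩
        rcases Nat.lt_succ_iff_lt_or_eq.mp h1 with h3 | rfl
        · exact Or.inl ⟨i, h3, h2⟩
        · exact Or.inr (by rw [← hSdef]; exact h2)
  have hm : Monotone fun e => (st e).2 := by
    apply monotone_nat_of_le_succ
    intro e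
    rw [hstS]
    exact le_max_left _ _
  have hA : ∀ e, Alw (4 ^ e) (st e).2 (S e) := by
    intro e
    rw [hSdef]
    exact hS1 _ _ _
  have hcard : ∀ i t, 4 ^ i * ((S i).filter (· < t)).card ≤ t := fun i t => (hA i).2 t
  set E : Set ℕ := {n | ∃ i, n ∈ S i} with hE
  have hDz : Dz E := by
    intro K
    refine ⟨2 * (K * (st (K + 1)).1.card), fun t ht => ?_⟩
    have h1 : E ∩ Set.Iio t ⊆ ↑((st (K + 1)).1 ∪ TS S (K + 1) t) := by
      rintro n ⟨⟨i, hi⟩, hn⟩
      simp only [Finset.coe_union, Set.mem_union, Finset.mem_coe]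
      by_cases h : i < K + 1
      · exact Or.inl ((hB _ _).mpr ⟨i, h, hi⟩)
      · right
        simp only [TS, Finset.mem_filter, Finset.mem_range]
        exact ⟨hn, i, by omega, hi⟩
    have h2 : (E ∩ Set.Iio t).ncard ≤ (st (K + 1)).1.card + (TS S (K + 1) t).card := by
      refine (Set.ncard_le_ncard h1 (Finset.finite_toSet _)).trans ?_
      rw [Set.ncard_coe_finset]
      exact Finset.card_union_le _ _
    have h3 := TS_card S hcard (K + 1) t
    have h4 : K < 4 ^ K := Nat.lt_pow_self (by norm_num)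
    have h5 : 4 * (K * (TS S (K + 1) t).card) ≤ 4 ^ (K + 1) * (TS S (K + 1) t).card := by
      rw [← mul_assoc]
      apply Nat.mul_le_mul_right
      rw [pow_succ]
      omega
    have h6 : K * (E ∩ Set.Iio t).ncard ≤
        K * (st (K + 1)).1.card + K * (TS S (K + 1) t).card := by
      rw [← Nat.mul_add]
      exact Nat.mul_le_mul_left _ h2
    omega
  obtain ⟨e, he1, he2⟩ := hyp E hDz
  rcases hS2 e (st e).1 (st e).2 with h | ⟨h1, h2⟩
  · apply he1
    apply h
    intro i hi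
    have h3 : i ∈ E ↔ i ∈ (↑((st e).1 ∪ SS e (st e).1 (st e).2) : Set ℕ) := by
      rw [← hSdef]
      simp only [Finset.coe_union, Set.mem_union, Finset.mem_coe, hB]
      constructor
      · rintro ⟨j, hj⟩
        rcases Nat.lt_trichotomy j e with h4 | rfl | h4
        · exact Or.inl ⟨j, h4, hj⟩
        · exact Or.inr hj
        · exfalso
          have h5 := (hA j).1 i hj
          have h6 : (st (e + 1)).2 ≤ (st j).2 := hm h4
          rw [hstS] at h6
          have h7 := le_max_right (st e).2 (uu e (st e).1 (st e).2)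
          simp only at h6
          omega
      · rintro (⟨j, -, hj⟩ | hj)
        · exact ⟨j, hj⟩
        · exact ⟨e, hj⟩
    exact erase_congr h3
  · apply h2
    refine Dz_mono ?_ he2
    intro x hx hR
    apply hx
    obtain ⟨s, hs⟩ := hR
    rw [← hSdef] at h1 ⊢
    refine ⟨S e ∪ TS S (e + 1) s, Finset.subset_union_left, ⟨?_, ?_⟩, s, ?_⟩
    · intro n hn
      rcases Finset.mem_union.mp hn with hn | hn
      · exact h1.1 n hn
      · simp only [TS, Finset.mem_filter, Finset.mem_range] at hn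
        obtain ⟨-, i, hi, hn⟩ := hn
        have h3 := (hA i).1 n hn
        have h4 : (st e).2 ≤ (st i).2 := hm (by omega)
        exact h4.trans h3
    · intro t
      have h3 := h1.2 t
      have h4 := TS_card S hcard (e + 1) t
      have h5 : ((S e ∪ TS S (e + 1) s).filter (· < t)).card ≤
          ((S e).filter (· < t)).card + (TS S (e + 1) t).card := by
        refine le_trans (Finset.card_le_card ?_) (Finset.card_union_le _ _)
        intro n hn
        simp only [TS, Finset.mem_filter, Finset.mem_range, Finset.mem_union] at hn ⊢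
        obtain ⟨hn | hn, hnt⟩ := hn
        · exact Or.inl ⟨hn, hnt⟩
        · exact Or.inr ⟨hnt, hn.2⟩
      have h6 : 4 ^ e * ((S e ∪ TS S (e + 1) s).filter (· < t)).card ≤
          4 ^ e * ((S e).filter (· < t)).card + 4 ^ e * (TS S (e + 1) t).card := by
        rw [← Nat.mul_add]
        exact Nat.mul_le_mul_left _ h5
      have h7 : 4 ^ (e + 1) * (TS S (e + 1) t).card = 4 * (4 ^ e * (TS S (e + 1) t).card) := by
        ring
      have h8 : 2 * 4 ^ e * ((S e).filter (· < t)).card =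
          2 * (4 ^ e * ((S e).filter (· < t)).card) := by ring
      omega
    · have h3 : pre (erase g ↑((st e).1 ∪ (S e ∪ TS S (e + 1) s))) s = pre (erase g E) s := by
        apply pre_congr
        intro i hi
        have h4 : i ∈ (↑((st e).1 ∪ (S e ∪ TS S (e + 1) s)) : Set ℕ) ↔ i ∈ E := by
          simp only [Finset.coe_union, Set.mem_union, Finset.mem_coe, hB, TS, Finset.mem_filter,
            Finset.mem_range]
          constructor
          · rintro (⟨j, -, hj⟩ | hj | ⟨-, j, -, hj⟩)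
            · exact ⟨j, hj⟩
            · exact ⟨e, hj⟩
            · exact ⟨j, hj⟩
          · rintro ⟨j, hj⟩
            rcases Nat.lt_trichotomy j e with h5 | rfl | h5
            · exact Or.inl ⟨j, h5, hj⟩
            · exact Or.inr (Or.inl hj)
            · exact Or.inr (Or.inr ⟨hi, j, h5, hj⟩)
        exact erase_congr h4
      rw [h3]
      exact hs

end R624FS
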