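import Pool.Agent.R624.FS.NDefs

/-!
`s_gen` (Baire category lemma).
-/

open Filter Topology Set

namespace R624FS

/-- overwrite the first values -/
def ovw (w : List ℕ) (g : ℕ → ℕ) (i : ℕ) : ℕ := w.getD i (g i)

lemma ovw_lt {w : List ℕ} {i : ℕ} (hi : i < w.length) (g g' : ℕ → ℕ) :
    ovw w g i = ovw w g' i := by
  simp [ovw, List.getD, List.getElem?_eq_getElem hi]

lemma ovw_ge {w : List ℕ} {i : ℕ} (hi : w.length ≤ i) (g : ℕ → ℕ) : ovw w g i = g i := by
  simp [ovw, List.getD, List.getElem?_eq_none hi]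

lemma continuous_ovw (w : List ℕ) : Continuous (ovw w) := by
  refine continuous_pi fun i => ?_
  by_cases hi : i < w.length
  · have : (fun g : ℕ → ℕ => ovw w g i) = fun _ => ovw w (fun _ => 0) i := by
      funext g
      exact ovw_lt hi g _
    rw [this]
    exact continuous_const
  · have : (fun g : ℕ → ℕ => ovw w g i) = fun g => g i := by
      funext g
      exact ovw_ge (not_lt.mp hi) g
    rw [this]
    exact continuous_apply i

lemma isOpenMap_ovw (w : List ℕ) : IsOpenMap (ovw w) := by
  intro U hU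
  rw [isOpen_iff_mem_nhds]
  rintro _ ⟨g, hg, rfl⟩
  -- the continuous map replacing the first values by those of `g`
  set w' : List ℕ := (List.range w.length).map g with hw'
  have hlen : w'.length = w.length := by simp [hw']
  have h1 : ∀ i < w.length, ∀ h : ℕ → ℕ, ovw w' h i = g i := by
    intro i hi h
    have : i < w'.length := by omega
    simp [ovw, List.getD, hw', hi]
  have h2 : ovw w' (ovw w g) = g := by
    funext i
    by_cases hi : i < w.length
    · exact h1 i hi _
    · rw [ovw_ge (by omega), ovw_ge (by omega)]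
  have h3 : ovw w' ⁻¹' U ∈ 𝓝 (ovw w g) := by
    refine (hU.preimage (continuous_ovw w')).mem_nhds ?_
    rw [mem_preimage, h2]
    exact hg
  have h4 : {h : ℕ → ℕ | ∀ i ∈ Finset.range w.length, h i = ovw w g i} ∈ 𝓝 (ovw w g) := by
    have hopen : IsOpen {h : ℕ → ℕ | ∀ i ∈ Finset.range w.length, h i = ovw w g i} := by
      have : {h : ℕ → ℕ | ∀ i ∈ Finset.range w.length, h i = ovw w g i} =
          ⋂ i ∈ Finset.range w.length, {h : ℕ → ℕ | h i = ovw w g i} := by
        ext h; simp
      rw [this]
      refine isOpen_biInter_finset fun i _ => ?_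
      have hc : Continuous fun h : ℕ → ℕ => h i := continuous_apply i
      exact IsOpen.preimage hc (isOpen_discrete {ovw w g i})
    exact hopen.mem_nhds (by intro i _; rfl)
  filter_upwards [h3, h4] with h hh3 hh4
  refine ⟨ovw w' h, hh3, ?_⟩
  funext i
  by_cases hi : i < w.length
  · rw [hh4 i (Finset.mem_range.mpr hi)]
    exact ovw_lt hi _ _
  · rw [ovw_ge (by omega), ovw_ge (by omega)]

theorem s_gen : S_gen := by
  intro X hX
  choose U hUo hU using fun p => (hX p).residualEq_isOpen
  have h1 : ∀ (w : List ℕ) (p : ℕ), ∀ᶠ g in residual (ℕ → ℕ), (X p (ovw w g) = U p (ovw w g)) :=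
    fun w p => (tendsto_residual_of_isOpenMap (continuous_ovw w) (isOpenMap_ovw w)).eventually (hU p)
  have h2 : ∀ᶠ g in residual (ℕ → ℕ), ∀ (w : List ℕ) (p : ℕ), (X p (ovw w g) = U p (ovw w g)) := by
    rw [eventually_countable_forall]
    intro w
    rw [eventually_countable_forall]
    exact h1 w
  obtain ⟨g, hg⟩ := (dense_of_mem_residual h2).nonempty
  refine ⟨g, fun p hp => ?_⟩
  have hg' : ∀ (w : List ℕ) (p : ℕ), (ovw w g ∈ X p ↔ ovw w g ∈ U p) := by
    intro w p
    exact iff_of_eq (hg w p)
  have e0 : ovw [] g = g := by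
    funext i
    exact ovw_ge (by simp) g
  have hgU : g ∈ U p := by
    have := (hg' [] p).mp (by rw [e0]; exact hp)
    rwa [e0] at this
  obtain ⟨I, u, hu, hsub⟩ := isOpen_pi_iff.mp (hUo p) g hgU
  refine ⟨I.sup id + 1, fun g' hL hM => ?_⟩
  obtain ⟨M, hM⟩ := hM
  have hg'U : g' ∈ U p := by
    refine hsub ?_
    intro a ha
    have ha' : a ≤ I.sup id := Finset.le_sup (f := id) ha
    rw [hL a (by omega)]
    exact (hu a ha).2
  have e1 : ovw ((List.range M).map g') g = g' := by
    funext i
    by_cases hi : i < M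
    · simp [ovw, List.getD, hi]
    · rw [ovw_ge (by simp; omega), hM i (by omega)]
  have := (hg' ((List.range M).map g') p).mpr (by rw [e1]; exact hg'U)
  rwa [e1] at this

end R624FS
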