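import Pool.Agent.R624.FS.NDefs

/-!
The negative answers for the six reducibilities from the general theorems.
-/

namespace R624FS

/-! ### density zero -/

theorem Dz.mono {F G : Set ℕ} (h : Dz G) (hFG : F ⊆ G) : Dz F := by
  intro K
  obtain ⟨t₀, h0⟩ := h K
  refine ⟨t₀, fun t ht => le_trans (Nat.mul_le_mul_left _ ?_) (h0 t ht)⟩
  exact Set.ncard_le_ncard (Set.inter_subset_inter_left _ hFG)
    ((Set.finite_Iio t).subset Set.inter_subset_right)

theorem Dz.union {F G : Set ℕ} (hF : Dz F) (hG : Dz G) : Dz (F ∪ G) := by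
  intro K
  obtain ⟨t₁, h1⟩ := hF (2 * K)
  obtain ⟨t₂, h2⟩ := hG (2 * K)
  refine ⟨max t₁ t₂, fun t ht => ?_⟩
  have h3 := h1 t (le_trans (le_max_left _ _) ht)
  have h4 := h2 t (le_trans (le_max_right _ _) ht)
  have h5 : ((F ∪ G) ∩ Set.Iio t).ncard ≤ (F ∩ Set.Iio t).ncard + (G ∩ Set.Iio t).ncard := by
    rw [Set.union_inter_distrib_right]
    exact Set.ncard_union_le _ _
  have h6 : 2 * K * ((F ∪ G) ∩ Set.Iio t).ncard ≤ 2 * t := by
    calc 2 * K * ((F ∪ G) ∩ Set.Iio t).ncard ≤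
          2 * K * ((F ∩ Set.Iio t).ncard + (G ∩ Set.Iio t).ncard) := Nat.mul_le_mul_left _ h5
      _ = 2 * K * (F ∩ Set.Iio t).ncard + 2 * K * (G ∩ Set.Iio t).ncard := by ring
      _ ≤ 2 * t := by omega
  have h7 : 2 * (K * ((F ∪ G) ∩ Set.Iio t).ncard) ≤ 2 * t := by
    rw [← mul_assoc]; exact h6
  omega

/-! ### countability -/

theorem countable_comp {α β γ : Type} [Primcodable α] [Primcodable β] [Primcodable γ] :
    {φ : α → β → γ | Computable₂ φ}.Countable := by
  rw [← Set.countable_coe_iff]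
  have hex : ∀ φ : {φ : α → β → γ | Computable₂ φ}, ∃ c : Nat.Partrec.Code,
      Nat.Partrec.Code.eval c = fun n => Part.bind (Part.ofOption (Encodable.decode (α := α × β) n))
        fun a => (Part.some (φ.1 a.1 a.2)).map Encodable.encode := by
    intro φ
    have h : Computable fun p : α × β => φ.1 p.1 p.2 := φ.2
    exact Nat.Partrec.Code.exists_code.1 h
  choose c hc using hex
  apply Function.Injective.countable (f := c)
  intro φ ψ h
  apply Subtype.ext
  funext a b
  have h1 := congrFun (hc φ) (Encodable.encode (a, b))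
  have h2 := congrFun (hc ψ) (Encodable.encode (a, b))
  rw [h, h2] at h1
  simp only [Encodable.encodek, Part.coe_some, Part.ofOption, Part.bind_some, Part.map_some] at h1
  have h3 := Part.some_inj.1 h1
  exact (Encodable.encode_injective h3).symm

theorem countable_re {α : Type} [Primcodable α] : {W : α → Prop | REPred W}.Countable := by
  rw [← Set.countable_coe_iff]
  have hex : ∀ W : {W : α → Prop | REPred W}, ∃ c : Nat.Partrec.Code,
      Nat.Partrec.Code.eval c = fun n => Part.bind (Part.ofOption (Encodable.decode (α := α) n))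
        fun a => (Part.assert (W.1 a) fun _ => Part.some ()).map Encodable.encode := by
    intro W
    have h : Partrec fun a => Part.assert (W.1 a) fun _ => Part.some () := W.2
    exact Nat.Partrec.Code.exists_code.1 h
  choose c hc using hex
  apply Function.Injective.countable (f := c)
  intro V W h
  apply Subtype.ext
  funext a
  have h1 := congrFun (hc V) (Encodable.encode a)
  have h2 := congrFun (hc W) (Encodable.encode a)
  rw [h, h2] at h1
  simp only [Encodable.encodek, Part.ofOption, Part.bind_some] at h1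
  have h3 := congrArg Part.Dom h1
  have h4 : (W.1 a) = (V.1 a) := by
    have e1 : ∀ P : Prop, ((Part.assert P fun _ => Part.some ()).map
        (Encodable.encode : Unit → ℕ)).Dom = P := by
      intro P
      simp [Part.map, Part.assert, Part.some]
    rw [e1, e1] at h3
    exact h3
  exact h4.symm

/-! ### operators -/

def OpT (φ : List (Option ℕ) → ℕ → Option (Option ℕ)) : Op :=
  {p | φ p.1 p.2.1 = some (some p.2.2) ∧ ∀ s' < p.1.length, φ (p.1.take s') p.2.1 = none}

def OpE (W : List ℕ × ℕ → Prop) : Op :=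
  {p | ∃ F : List ℕ, W (F, Nat.pair p.2.1 p.2.2) ∧
    ∀ z ∈ F, p.1[z.unpair.1]? = some (some z.unpair.2)}

theorem len_pre {α : Type} (d : ℕ → α) (s : ℕ) : (pre d s).length = s := by
  simp [pre]

theorem take_pre {α : Type} (d : ℕ → α) {s t : ℕ} (h : t ≤ s) : (pre d s).take t = pre d t := by
  unfold pre
  rw [← List.map_take, List.take_range, Nat.min_eq_left h]

theorem get_pre {α : Type} (d : ℕ → α) (s i : ℕ) :
    (pre d s)[i]? = if i < s then some (d i) else none := by
  unfold pre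
  by_cases h : i < s
  · simp [h]
  · simp [h]

theorem rel_OpT {φ : List (Option ℕ) → ℕ → Option (Option ℕ)} {d h : ℕ → Option ℕ}
    (ht : Turns φ d h) (x y : ℕ) : Rel (OpT φ) d x y ↔ h x = some y := by
  obtain ⟨s₀, h1, h2⟩ := ht x
  constructor
  · rintro ⟨s, hs, hs'⟩
    simp only [len_pre] at hs hs'
    have : s = s₀ := by
      rcases lt_trichotomy s s₀ with h | h | h
      · rw [h2 s h] at hs
        simp at hs
      · exact h
      · have h3 := hs' s₀ h
        rw [take_pre d h.le, h1] at h3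
        simp at h3
    subst this
    rw [h1] at hs
    simpa using hs
  · intro hx
    refine ⟨s₀, ?_, ?_⟩
    · simp only
      rw [h1, hx]
    · intro s' hs'
      simp only [len_pre] at hs' ⊢
      rw [take_pre d hs'.le]
      exact h2 s' hs'

theorem rel_OpE {W : List ℕ × ℕ → Prop} {d h : ℕ → Option ℕ}
    (ht : Enum W d h) (x y : ℕ) : Rel (OpE W) d x y ↔ h x = some y := by
  have h0 : h x = some y ↔ Nat.pair x y ∈ graph h := by
    simp [graph]
  rw [h0, ht]
  constructor
  · rintro ⟨s, F, hF, hz⟩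
    refine ⟨F, hF, fun z hzF => ?_⟩
    have h1 := hz z hzF
    simp only [get_pre] at h1
    split_ifs at h1 with h2
    · simpa [graph] using h1
  · rintro ⟨F, hF, hz⟩
    have : ∃ s, ∀ z ∈ F, z.unpair.1 < s := by
      clear hF hz
      induction F with
      | nil => exact ⟨0, by simp⟩
      | cons a l ih =>
        obtain ⟨s, hs⟩ := ih
        refine ⟨max s (a.unpair.1 + 1), ?_⟩
        intro z hz
        rcases List.mem_cons.1 hz with rfl | hz
        · exact lt_of_lt_of_le (Nat.lt_succ_self _) (le_max_right _ _)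
        · exact lt_of_lt_of_le (hs z hz) (le_max_left _ _)
    obtain ⟨s, hs⟩ := this
    refine ⟨s, F, hF, fun z hzF => ?_⟩
    simp only [get_pre]
    rw [if_pos (hs z hzF)]
    have h1 := hz z hzF
    simp only [graph, Set.mem_setOf_eq] at h1
    rw [h1]

theorem OpE_mono (W : List ℕ × ℕ → Prop) {X X' : ℕ → Option ℕ}
    (h : ∀ i v, X i = some v → X' i = some v) {x y : ℕ} (hr : Rel (OpE W) X x y) :
    Rel (OpE W) X' x y := by
  obtain ⟨s, F, hF, hz⟩ := hr
  refine ⟨s, F, hF, fun z hzF => ?_⟩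
  have h1 := hz z hzF
  simp only [get_pre] at h1 ⊢
  split_ifs at h1 ⊢ with h2
  simp only [Option.some.injEq] at h1 ⊢
  exact h _ _ h1

/-! ### erased functions -/

theorem erase_some {g : ℕ → ℕ} {E : Set ℕ} {n v : ℕ} (h : erase g E n = some v) :
    n ∉ E ∧ v = g n := by
  unfold erase at h
  split_ifs at h with h1
  simp only [Option.some.injEq] at h
  exact ⟨h1, h.symm⟩

theorem erase_none {g : ℕ → ℕ} {E : Set ℕ} {n : ℕ} : erase g E n = none ↔ n ∈ E := by
  unfold erase
  split_ifs with h1 <;> simp [h1]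

theorem erase_mono {g : ℕ → ℕ} {E F : Set ℕ} (h : E ⊆ F) {i v : ℕ} (hv : erase g F i = some v) :
    erase g E i = some v := by
  obtain ⟨h1, h2⟩ := erase_some hv
  unfold erase
  rw [if_neg (fun h' => h1 (h h')), h2]

theorem generic_erase {g : ℕ → ℕ} {E : Set ℕ} (h : Dz E) : Generic g (erase g E) := by
  refine ⟨fun n v hv => (erase_some hv).2, h.mono ?_⟩
  intro n hn
  exact erase_none.1 hn

theorem dense_of_generic {g : ℕ → ℕ} {d : ℕ → Option ℕ} (h : Generic g d) : DenseD g d := by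
  refine h.2.mono ?_
  intro n hn
  simp only [Set.mem_setOf_eq] at hn ⊢
  rcases hd : d n with _ | v
  · rfl
  · exact absurd (by rw [hd, h.1 n v hd]) hn

theorem Alw_empty (k m : ℕ) : Alw k m ∅ := ⟨by simp, by simp⟩

/-! ### the generic mode -/

theorem mode_generic (hf : S_fusion) {fam : ℕ → Op} {g : ℕ → ℕ} (hc : Core fam g)
    (F : ℕ → Op) (hF : ∀ i, ∃ e, fam e = F i) {A : ℕ → ℕ} (hA : ∀ n, A n ≤ 1)
    (h1 : ∀ E, Dz E → ∃ i, (∀ x y, Rel (F i) (erase g E) x y → y = A x) ∧
      Dz {x | ¬ Rel (F i) (erase g E) x (A x)})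
    (h2 : ∀ C, Generic A C → ∃ i, (∀ n y, Rel (F i) C n y → y = g n) ∧
      Dz {n | ¬ Rel (F i) C n (g n)}) : False := by
  obtain ⟨i, B, m, k, hk, hα, hβ⟩ := hf F g A (fun l => ∃ x y, l = [(x, y)] ∧ y ≠ A x) (by
    intro E hE
    obtain ⟨i, hi, hi'⟩ := h1 E hE
    refine ⟨i, ?_, hi'⟩
    rintro ⟨l, ⟨x, y, rfl, hy⟩, hl⟩
    exact hy (hi x y (hl (x, y) (by simp))))
  obtain ⟨e, he⟩ := hF i
  have hval : ∀ S' : Finset ℕ, Alw k m S' → ∀ x b, Rel (F i) (erase g ↑(B ∪ S')) x b → b = A x := by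
    intro S' hS' x b hr
    by_contra hne
    exact hα S' hS' ⟨[(x, b)], ⟨x, b, rfl, hne⟩, by simpa using hr⟩
  obtain ⟨C, hC1, hC2, hC3⟩ := hc e B m k hk (by
    intro S hS
    refine (hβ S hS).mono ?_
    intro x hx
    simp only [Set.mem_setOf_eq] at hx ⊢
    rintro ⟨S', h3, h4, h5⟩
    exact hx (A x) ⟨hA x, S', h3, h4, by rw [he]; exact h5⟩)
  have hgen : Generic A C := by
    refine ⟨fun n v hv => ?_, hC2⟩
    obtain ⟨_, S', _, h4, h5⟩ := hC1 n v hv
    rw [he] at h5
    exact hval S' h4 n v h5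
  obtain ⟨i', h3, h4⟩ := h2 C hgen
  obtain ⟨e', he'⟩ := hF i'
  apply hC3 e'
  rw [he']
  exact ⟨fun x y y' hy hy' => (h3 x y hy).trans (h3 x y' hy').symm, h4⟩

/-! ### the dense mode -/

theorem mode_dense (hf : S_fusion) {fam : ℕ → Op} {g : ℕ → ℕ} (hc : Core fam g)
    (F : ℕ → Op) (hF : ∀ i, ∃ e, fam e = F i)
    (hmono : ∀ i, ∀ X X' : ℕ → Option ℕ, (∀ i v, X i = some v → X' i = some v) → ∀ x y,
      Rel (F i) X x y → Rel (F i) X' x y) {A : ℕ → ℕ} (hA : ∀ n, A n ≤ 1)
    (h1 : ∀ E, Dz E → ∃ i, SV (F i) (erase g E) ∧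
      Dz {x | ¬ Rel (F i) (erase g E) x (A x)})
    (h2 : ∀ C, DenseD A C → ∃ i, SV (F i) C ∧
      Dz {n | ¬ Rel (F i) C n (g n)}) : False := by
  obtain ⟨i, B, m, k, hk, hα, hβ⟩ := hf F g A
    (fun l => ∃ x y y', l = [(x, y), (x, y')] ∧ y ≠ y') (by
    intro E hE
    obtain ⟨i, hi, hi'⟩ := h1 E hE
    refine ⟨i, ?_, hi'⟩
    rintro ⟨l, ⟨x, y, y', rfl, hy⟩, hl⟩
    exact hy (hi x y y' (hl (x, y) (by simp)) (hl (x, y') (by simp))))
  obtain ⟨e, he⟩ := hF i
  have hsv : ∀ x y y', Rel (F i) (erase g ↑B) x y → Rel (F i) (erase g ↑B) x y' → y = y' := by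
    intro x y y' hy hy'
    by_contra hne
    refine hα ∅ (Alw_empty k m) ⟨[(x, y), (x, y')], ⟨x, y, y', rfl, hne⟩, ?_⟩
    intro p hp
    rw [Finset.union_empty]
    simp only [List.mem_cons, List.not_mem_nil, or_false] at hp
    rcases hp with rfl | rfl
    · exact hy
    · exact hy'
  have hB : ∀ S' : Finset ℕ, ∀ x b, Rel (F i) (erase g ↑(B ∪ S')) x b →
      Rel (F i) (erase g ↑B) x b := by
    intro S' x b hr
    refine hmono i _ _ ?_ x b hr
    intro j v hv
    exact erase_mono (by simp) hv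
  obtain ⟨C, hC1, hC2, hC3⟩ := hc e B m k hk (by
    intro S hS
    refine (hβ S hS).mono ?_
    intro x hx
    simp only [Set.mem_setOf_eq] at hx ⊢
    rintro ⟨S', h3, h4, h5⟩
    exact hx (A x) ⟨hA x, S', h3, h4, by rw [he]; exact h5⟩)
  have hgen : DenseD A C := by
    refine (hC2.union (hβ ∅ (Alw_empty _ m))).mono ?_
    intro n hn
    simp only [Set.mem_setOf_eq, Set.mem_union] at hn ⊢
    by_contra hcon
    push Not at hcon
    obtain ⟨h3, S', _, _, h4⟩ := hcon
    rcases hv : C n with _ | v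
    · exact h3 hv
    · obtain ⟨_, S'', _, _, h5⟩ := hC1 n v hv
      rw [he] at h5
      have h6 := hsv n v (A n) (hB S'' n v h5) (hB S' n (A n) h4)
      rw [hv, h6] at hn
      exact hn rfl
  obtain ⟨i', h3, h4⟩ := h2 C hgen
  obtain ⟨e', he'⟩ := hF i'
  apply hC3 e'
  rw [he']
  exact ⟨h3, h4⟩

theorem s_inst : S_inst := by
  intro hcore hf
  -- the families
  obtain ⟨F1, hF1⟩ : ∃ F1 : ℕ → Op, (insert ∅ (OpT '' {φ | Computable₂ φ}) : Set Op) =
      Set.range F1 :=
    Set.Countable.exists_eq_range ((countable_comp.image _).insert _) (Set.insert_nonempty _ _)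
  obtain ⟨F2, hF2⟩ : ∃ F2 : ℕ → Op, (insert ∅ (OpE '' {W | REPred W}) : Set Op) =
      Set.range F2 :=
    Set.Countable.exists_eq_range ((countable_re.image _).insert _) (Set.insert_nonempty _ _)
  have hT : ∀ φ, Computable₂ φ → ∃ i, F1 i = OpT φ := by
    intro φ hφ
    have : OpT φ ∈ Set.range F1 := by
      rw [← hF1]
      exact Set.mem_insert_of_mem _ ⟨φ, hφ, rfl⟩
    exact this
  have hE : ∀ W, REPred W → ∃ i, F2 i = OpE W := by
    intro W hW
    have : OpE W ∈ Set.range F2 := by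
      rw [← hF2]
      exact Set.mem_insert_of_mem _ ⟨W, hW, rfl⟩
    exact this
  have hmono : ∀ i, ∀ X X' : ℕ → Option ℕ, (∀ i v, X i = some v → X' i = some v) → ∀ x y,
      Rel (F2 i) X x y → Rel (F2 i) X' x y := by
    intro i X X' hX x y hr
    have hi : F2 i ∈ (insert ∅ (OpE '' {W | REPred W}) : Set Op) := by
      rw [hF2]
      exact ⟨i, rfl⟩
    rcases hi with hi | ⟨W, _, hW⟩
    · rw [hi] at hr
      obtain ⟨s, hs⟩ := hr
      exact absurd hs (Set.notMem_empty _)
    · rw [← hW] at hr ⊢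
      exact OpE_mono W hX hr
  obtain ⟨g, hg⟩ := hcore (fun n => if n % 2 = 0 then F1 (n / 2) else F2 (n / 2))
  have hfam1 : ∀ i, ∃ e, (fun n => if n % 2 = 0 then F1 (n / 2) else F2 (n / 2)) e = F1 i := by
    intro i
    refine ⟨2 * i, ?_⟩
    have h1 : 2 * i % 2 = 0 := by omega
    have h2 : 2 * i / 2 = i := by omega
    simp only [h1, h2, if_true]
  have hfam2 : ∀ i, ∃ e, (fun n => if n % 2 = 0 then F1 (n / 2) else F2 (n / 2)) e = F2 i := by
    intro i
    refine ⟨2 * i + 1, ?_⟩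
    have h1 : ¬ (2 * i + 1) % 2 = 0 := by omega
    have h2 : (2 * i + 1) / 2 = i := by omega
    simp only [h1, h2, if_false]
  refine ⟨g, fun A hA => ?_⟩
  -- effective dense
  have hned : ¬ (NED A g ∧ NED g A) := by
    rintro ⟨h1, h2⟩
    refine mode_generic hf hg F1 hfam1 hA ?_ ?_
    · intro E hE'
      obtain ⟨φ, hφ, h, hh, ht⟩ := h1 (erase g E) (generic_erase hE')
      obtain ⟨i, hi⟩ := hT φ hφ
      refine ⟨i, ?_, ?_⟩
      · intro x y hr
        rw [hi, rel_OpT ht] at hr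
        exact hh.1 x y hr
      · refine hh.2.mono ?_
        intro x hx
        simp only [Set.mem_setOf_eq] at hx ⊢
        rw [hi, rel_OpT ht] at hx
        rcases hv : h x with _ | v
        · rfl
        · exact absurd (by rw [hv, hh.1 x v hv]) hx
    · intro C hC
      obtain ⟨φ, hφ, h, hh, ht⟩ := h2 C hC
      obtain ⟨i, hi⟩ := hT φ hφ
      refine ⟨i, ?_, ?_⟩
      · intro x y hr
        rw [hi, rel_OpT ht] at hr
        exact hh.1 x y hr
      · refine hh.2.mono ?_
        intro x hx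
        simp only [Set.mem_setOf_eq] at hx ⊢
        rw [hi, rel_OpT ht] at hx
        rcases hv : h x with _ | v
        · rfl
        · exact absurd (by rw [hv, hh.1 x v hv]) hx
  have hng : ¬ (NG A g ∧ NG g A) := by
    rintro ⟨h1, h2⟩
    refine mode_generic hf hg F2 hfam2 hA ?_ ?_
    · intro E hE'
      obtain ⟨W, hW, h, hh, ht⟩ := h1 (erase g E) (generic_erase hE')
      obtain ⟨i, hi⟩ := hE W hW
      refine ⟨i, ?_, ?_⟩
      · intro x y hr
        rw [hi, rel_OpE ht] at hr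
        exact hh.1 x y hr
      · refine hh.2.mono ?_
        intro x hx
        simp only [Set.mem_setOf_eq] at hx ⊢
        rw [hi, rel_OpE ht] at hx
        rcases hv : h x with _ | v
        · rfl
        · exact absurd (by rw [hv, hh.1 x v hv]) hx
    · intro C hC
      obtain ⟨W, hW, h, hh, ht⟩ := h2 C hC
      obtain ⟨i, hi⟩ := hE W hW
      refine ⟨i, ?_, ?_⟩
      · intro x y hr
        rw [hi, rel_OpE ht] at hr
        exact hh.1 x y hr
      · refine hh.2.mono ?_
        intro x hx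
        simp only [Set.mem_setOf_eq] at hx ⊢
        rw [hi, rel_OpE ht] at hx
        rcases hv : h x with _ | v
        · rfl
        · exact absurd (by rw [hv, hh.1 x v hv]) hx
  have hnd : ¬ (ND A g ∧ ND g A) := by
    rintro ⟨h1, h2⟩
    refine mode_dense hf hg F2 hfam2 hmono hA ?_ ?_
    · intro E hE'
      obtain ⟨W, hW, h, hh, ht⟩ := h1 (erase g E) (dense_of_generic (generic_erase hE'))
      obtain ⟨i, hi⟩ := hE W hW
      refine ⟨i, ?_, ?_⟩
      · intro x y y' hr hr'
        rw [hi, rel_OpE ht] at hr hr'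
        rw [hr] at hr'
        exact Option.some.inj hr'
      · refine Dz.mono hh ?_
        intro x hx
        simp only [Set.mem_setOf_eq] at hx ⊢
        rwa [hi, rel_OpE ht] at hx
    · intro C hC
      obtain ⟨W, hW, h, hh, ht⟩ := h2 C hC
      obtain ⟨i, hi⟩ := hE W hW
      refine ⟨i, ?_, ?_⟩
      · intro x y y' hr hr'
        rw [hi, rel_OpE ht] at hr hr'
        rw [hr] at hr'
        exact Option.some.inj hr'
      · refine Dz.mono hh ?_
        intro x hx
        simp only [Set.mem_setOf_eq] at hx ⊢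
        rwa [hi, rel_OpE ht] at hx
  have uned : ∀ a b : ℕ → ℕ, UED a b → NED a b := fun a b ⟨φ, hφ, h⟩ d hd => ⟨φ, hφ, h d hd⟩
  have ung : ∀ a b : ℕ → ℕ, UG a b → NG a b := fun a b ⟨φ, hφ, h⟩ d hd => ⟨φ, hφ, h d hd⟩
  have und : ∀ a b : ℕ → ℕ, UD a b → ND a b := fun a b ⟨φ, hφ, h⟩ d hd => ⟨φ, hφ, h d hd⟩
  exact ⟨hned, fun h => hned ⟨uned _ _ h.1, uned _ _ h.2⟩, hng,
    fun h => hng ⟨ung _ _ h.1, ung _ _ h.2⟩, hnd, fun h => hnd ⟨und _ _ h.1, und _ _ h.2⟩⟩

end R624FS
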