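import Pool.Agent.R624.FS.NDefs

/-!
`s_meas` (measurability).
-/

open Set

namespace R624FS

/-- predicates depending on finitely many values are measurable -/
lemma meas_fin {Q : (ℕ → ℕ) → Prop} (s : ℕ)
    (h : ∀ g g' : ℕ → ℕ, (∀ i < s, g i = g' i) → (Q g → Q g')) : Measurable fun g => Q g := by
  rw [← measurableSet_setOfPred]
  let res : (ℕ → ℕ) → (Fin s → ℕ) := fun g i => g i
  have hres : Measurable res := measurable_pi_lambda _ fun i => measurable_pi_apply _
  have e : {g : ℕ → ℕ | Q g} =
      res ⁻¹' {u : Fin s → ℕ | Q fun i => if hi : i < s then u ⟨i, hi⟩ else 0} := by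
    ext g
    have h1 : ∀ i < s, g i = (fun i => if hi : i < s then res g ⟨i, hi⟩ else 0) i := by
      intro i hi
      simp [res, hi]
    constructor
    · intro hg
      exact h g _ h1 hg
    · intro hg
      exact h _ g (fun i hi => (h1 i hi).symm) hg
  rw [e]
  exact hres (Set.to_countable _).measurableSet

lemma erase_congr {g g' : ℕ → ℕ} {F : Set ℕ} {i : ℕ} (h : g i = g' i) :
    erase g F i = erase g' F i := by
  simp [erase, h]

lemma meas_Rel (R : Op) (F : Set ℕ) (x y : ℕ) : Measurable fun g : ℕ → ℕ => Rel R (erase g F) x y := by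
  unfold Rel
  refine Measurable.exists fun s => meas_fin s fun g g' hgg' hg => ?_
  have : pre (erase g F) s = pre (erase g' F) s := by
    unfold pre
    refine List.map_congr_left fun i hi => ?_
    exact erase_congr (hgg' i (List.mem_range.mp hi))
  rwa [this] at hg

lemma meas_DD (R : Op) (B : Finset ℕ) (m k : ℕ) (S : Finset ℕ) (x b : ℕ) :
    Measurable fun g : ℕ → ℕ => DD R B m k g S x b := by
  unfold DD
  refine measurable_const.and (Measurable.exists fun S' => ?_)
  exact measurable_const.and (measurable_const.and (meas_Rel R _ x b))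

lemma meas_Bad (R : Op) (B : Finset ℕ) (m k : ℕ) (S : Finset ℕ) (s : ℕ) (τ : List (Option ℕ))
    (x : ℕ) : Measurable fun g : ℕ → ℕ => Bad R B m k g S s τ x := by
  unfold Bad
  exact measurable_const.or (measurable_const.and
    (Measurable.forall fun b => (meas_DD R B m k S x b).not))

lemma meas_TT (R : Op) (B : Finset ℕ) (m k : ℕ) (S : Finset ℕ) (s r : ℕ) (τ : List (Option ℕ)) :
    Measurable fun g : ℕ → ℕ => TT R B m k g S s r τ := by
  unfold TT
  refine (Measurable.forall fun i => Measurable.forall fun b =>
    measurable_const.imp (meas_DD R B m k S _ b)).and ?_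
  refine Measurable.forall fun t => Measurable.forall fun F => ?_
  refine Measurable.imp (Measurable.forall fun x => ?_) measurable_const
  refine measurable_const.imp (measurable_const.and (measurable_const.and ?_))
  exact meas_Bad R B m k S s τ x

lemma meas_split {P : (ℕ → ℕ) → ℕ → Prop} (n : ℕ) (h : ∀ v, Measurable fun g => P g v) :
    Measurable fun g : ℕ → ℕ => P g (g n) := by
  have e : (fun g : ℕ → ℕ => P g (g n)) = fun g => ∃ v, g n = v ∧ P g v := by
    funext g
    simp
  rw [e]
  refine Measurable.exists fun v => Measurable.and ?_ (h v)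
  exact meas_fin (n + 1) fun g g' hgg' hg => by rw [← hgg' n (by omega)]; exact hg

lemma meas_Gd (R' R : Op) (B : Finset ℕ) (m k : ℕ) (S : Finset ℕ) (s r : ℕ) (T : Finset ℕ)
    (τ : List (Option ℕ)) : Measurable fun g : ℕ → ℕ => Gd R' R B m k g S s r T τ := by
  unfold Gd
  refine Measurable.forall fun κ => measurable_const.imp (measurable_const.imp ?_)
  refine Measurable.forall fun n => measurable_const.imp (Measurable.or ?_ ?_)
  · refine meas_split (P := fun g v => ∃ y, y ≠ v ∧ RelL R' (κ ++ τ) n y) n fun v => ?_
    exact measurable_const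
  · refine Measurable.forall fun τ' => measurable_const.imp ((meas_TT R B m k S s r τ').imp ?_)
    refine meas_split (P := fun g v => ¬ RelL R' (κ ++ τ') n v) n fun v => ?_
    exact measurable_const

theorem s_meas : S_meas := by
  intro R' R B m k S N r
  have h1 : Measurable fun g : ℕ → ℕ => Prem R B m k S N r g := by
    unfold Prem
    refine Measurable.forall fun q => measurable_const.imp (Measurable.exists fun s => ?_)
    exact measurable_const.and (meas_TT R B m k _ s r [])
  have h2 : Measurable fun g : ℕ → ℕ => Concl R' R B m k S N r g := by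
    unfold Concl
    refine Measurable.exists fun q => measurable_const.and (Measurable.exists fun s => ?_)
    refine measurable_const.and (Measurable.exists fun τ => ?_)
    exact (meas_TT R B m k _ s r τ).and (meas_Gd R' R B m k _ s r _ τ)
  rw [measurableSet_setOfPred]
  exact h1.and h2.not

end R624FS
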