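import Pool.Agent.R624.FS.Defs

/-!
Definitions for the negative part: operators given by prefix axioms.
-/

namespace R624FS

/-- operators: sets of axioms (initial segment of the input, argument, value) -/
abbrev Op := Set (List (Option ℕ) × ℕ × ℕ)

/-- the operator gives the value `y` at `x` on the (total) input `X` -/
def Rel (R : Op) (X : ℕ → Option ℕ) (x y : ℕ) : Prop := ∃ s, (pre X s, x, y) ∈ R

/-- the operator gives the value `y` at `x` using only an initial segment of the list `l` -/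
def RelL (R : Op) (l : List (Option ℕ)) (x y : ℕ) : Prop := ∃ σ, σ <+: l ∧ (σ, x, y) ∈ R

/-- single-valued output -/
def SV (R : Op) (X : ℕ → Option ℕ) : Prop := ∀ x y y', Rel R X x y → Rel R X x y' → y = y'

open Classical in
/-- the function `g` with the values on `F` erased -/
noncomputable def erase (g : ℕ → ℕ) (F : Set ℕ) (n : ℕ) : Option ℕ :=
  if n ∈ F then none else some (g n)

/-- allowed finite sets -/
def Alw (k m : ℕ) (S : Finset ℕ) : Prop :=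
  (∀ n ∈ S, m ≤ n) ∧ ∀ t, k * (S.filter (· < t)).card ≤ t

/-- outputs `0` or `1` of `R` on `g` with `B` and an allowed set containing `S` erased -/
def DD (R : Op) (B : Finset ℕ) (m k : ℕ) (g : ℕ → ℕ) (S : Finset ℕ) (x b : ℕ) : Prop :=
  b ≤ 1 ∧ ∃ S' : Finset ℕ, S ⊆ S' ∧ Alw k m S' ∧ Rel R (erase g ↑(B ∪ S')) x b

/-- the position `x ≥ s` is not filled: by the list `τ` placed at `s`, and beyond the list by
`DD` -/
def Bad (R : Op) (B : Finset ℕ) (m k : ℕ) (g : ℕ → ℕ) (S : Finset ℕ) (s : ℕ)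
    (τ : List (Option ℕ)) (x : ℕ) : Prop :=
  τ[x - s]? = some none ∨ (s + τ.length ≤ x ∧ ∀ b, ¬ DD R B m k g S x b)

/-- lists of values from position `s` on, with few positions not filled -/
def TT (R : Op) (B : Finset ℕ) (m k : ℕ) (g : ℕ → ℕ) (S : Finset ℕ) (s r : ℕ)
    (τ : List (Option ℕ)) : Prop :=
  (∀ i b, τ[i]? = some (some b) → DD R B m k g S (s + i) b) ∧
    ∀ t, ∀ F : Finset ℕ, (∀ x ∈ F, s ≤ x ∧ x < t ∧ Bad R B m k g S s τ x) → r * F.card ≤ t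

/-- the segment used at parameter `q` -/
def Seg (k q : ℕ) : Finset ℕ := Finset.Ico (4 * k * q) ((4 * k + 1) * q)

/-- every `n ∈ T` has been dealt with -/
def Gd (R' R : Op) (B : Finset ℕ) (m k : ℕ) (g : ℕ → ℕ) (S : Finset ℕ) (s r : ℕ)
    (T : Finset ℕ) (τ : List (Option ℕ)) : Prop :=
  ∀ κ : List (Option ℕ), κ.length = s → (∀ a ∈ κ, a = none ∨ a = some 0 ∨ a = some 1) →
    ∀ n ∈ T, (∃ y, y ≠ g n ∧ RelL R' (κ ++ τ) n y) ∨
      ∀ τ', τ <+: τ' → TT R B m k g S s r τ' → ¬ RelL R' (κ ++ τ') n (g n)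

def Prem (R : Op) (B : Finset ℕ) (m k : ℕ) (S : Finset ℕ) (N r : ℕ) (g : ℕ → ℕ) : Prop :=
  ∀ q ≥ N, ∃ s ≥ N, TT R B m k g (S ∪ Seg k q) s r []

def Concl (R' R : Op) (B : Finset ℕ) (m k : ℕ) (S : Finset ℕ) (N r : ℕ) (g : ℕ → ℕ) : Prop :=
  ∃ q ≥ N, ∃ s ≥ N, ∃ τ, TT R B m k g (S ∪ Seg k q) s r τ ∧
    Gd R' R B m k g (S ∪ Seg k q) s r (Seg k q) τ

/-- the stage property of a generic function -/
def Stage (fam : ℕ → Op) (g : ℕ → ℕ) : Prop :=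
  ∀ (e : ℕ) (B : Finset ℕ) (m k : ℕ) (S : Finset ℕ) (e' N r : ℕ), 1 ≤ k →
    Prem (fam e) B m k S N r g → Concl (fam e') (fam e) B m k S N r g

/-- the property of `g` which gives the negative answers -/
def Core (fam : ℕ → Op) (g : ℕ → ℕ) : Prop :=
  ∀ (e : ℕ) (B : Finset ℕ) (m k : ℕ), 1 ≤ k →
    (∀ S, Alw (2 * k) m S → Dz {x | ∀ b, ¬ DD (fam e) B m k g S x b}) →
    ∃ C : ℕ → Option ℕ, (∀ x b, C x = some b → DD (fam e) B m k g ∅ x b) ∧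
      Dz {x | C x = none} ∧ ∀ e', ¬ (SV (fam e') C ∧ Dz {n | ¬ Rel (fam e') C n (g n)})

/-- a finitary monotone property of output relations -/
def Qb (Q : List (ℕ × ℕ) → Prop) (P : ℕ → ℕ → Prop) : Prop := ∃ l, Q l ∧ ∀ p ∈ l, P p.1 p.2

/-! ### statements -/

def S_gen : Prop := ∀ X : ℕ → Set (ℕ → ℕ), (∀ p, MeasurableSet (X p)) → ∃ g : ℕ → ℕ, ∀ p, g ∈ X p →
  ∃ L, ∀ g' : ℕ → ℕ, (∀ i < L, g' i = g i) → (∃ M, ∀ i ≥ M, g' i = g i) → g' ∈ X p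

def S_meas : Prop := ∀ (R' R : Op) (B : Finset ℕ) (m k : ℕ) (S : Finset ℕ) (N r : ℕ),
  MeasurableSet {g : ℕ → ℕ | Prem R B m k S N r g ∧ ¬ Concl R' R B m k S N r g}

def S_comb : Prop := ∀ (R' R : Op) (B : Finset ℕ) (m k : ℕ) (S : Finset ℕ) (N r : ℕ) (g : ℕ → ℕ)
  (L : ℕ), 1 ≤ k → Prem R B m k S N r g →
  ∃ g' : ℕ → ℕ, (∀ i < L, g' i = g i) ∧ (∃ M, ∀ i ≥ M, g' i = g i) ∧
    Concl R' R B m k S N r g'

def S_con : Prop := ∀ (fam : ℕ → Op) (g : ℕ → ℕ), Stage fam g → Core fam g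

def S_fusion : Prop := ∀ (fam : ℕ → Op) (g A : ℕ → ℕ) (Q : List (ℕ × ℕ) → Prop),
  (∀ E, Dz E → ∃ e, ¬ Qb Q (Rel (fam e) (erase g E)) ∧
    Dz {x | ¬ Rel (fam e) (erase g E) x (A x)}) →
  ∃ (e : ℕ) (B : Finset ℕ) (m k : ℕ), 1 ≤ k ∧
    (∀ S : Finset ℕ, Alw k m S → ¬ Qb Q (Rel (fam e) (erase g ↑(B ∪ S)))) ∧
    ∀ S : Finset ℕ, Alw (2 * k) m S → Dz {x | ¬ ∃ S' : Finset ℕ, S ⊆ S' ∧ Alw k m S' ∧
      Rel (fam e) (erase g ↑(B ∪ S')) x (A x)}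

/-- the negative answers from the two general theorems -/
def S_inst : Prop := (∀ fam : ℕ → Op, ∃ g, Core fam g) → S_fusion →
  ∃ g : ℕ → ℕ, ∀ A : ℕ → ℕ, (∀ n, A n ≤ 1) →
    ¬ (NED A g ∧ NED g A) ∧ ¬ (UED A g ∧ UED g A) ∧ ¬ (NG A g ∧ NG g A) ∧ ¬ (UG A g ∧ UG g A) ∧
    ¬ (ND A g ∧ ND g A) ∧ ¬ (UD A g ∧ UD g A)

end R624FS
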