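import Pool.Agent.R624.FS.Comb
import Pool.Agent.R624.FS.Gen
import Pool.Agent.R624.FS.Meas
import Pool.Agent.R624.FS.Fusion
import Pool.Agent.R624.FS.Constr
import Pool.Agent.R624.FS.Inst

/-!
Assembly of the negative part.
-/

namespace R624FS

theorem stage_exists (fam : ℕ → Op) : ∃ g, Stage fam g := by
  -- all parameters
  let P := ℕ × Finset ℕ × ℕ × ℕ × Finset ℕ × ℕ × ℕ × ℕ
  obtain ⟨p, hp⟩ := exists_surjective_nat P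
  obtain ⟨g, hg⟩ := s_gen
    (fun i => {g | Prem (fam (p i).1) (p i).2.1 (p i).2.2.1 (p i).2.2.2.1 (p i).2.2.2.2.1
        (p i).2.2.2.2.2.2.1 (p i).2.2.2.2.2.2.2 g ∧
      ¬ Concl (fam (p i).2.2.2.2.2.1) (fam (p i).1) (p i).2.1 (p i).2.2.1 (p i).2.2.2.1
        (p i).2.2.2.2.1 (p i).2.2.2.2.2.2.1 (p i).2.2.2.2.2.2.2 g})
    (fun i => s_meas _ _ _ _ _ _ _ _)
  refine ⟨g, ?_⟩
  intro e B m k S e' N r hk hprem
  by_contra hcon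
  obtain ⟨i, hi⟩ := hp (e, B, m, k, S, e', N, r)
  have h1 := hg i
  rw [hi] at h1
  obtain ⟨L, hL⟩ := h1 ⟨hprem, hcon⟩
  obtain ⟨g', h2, h3, h4⟩ := s_comb (fam e') (fam e) B m k S N r g L hk hprem
  exact (hL g' h2 h3).2 h4

theorem neg : ∃ g : ℕ → ℕ, ∀ A : ℕ → ℕ, (∀ n, A n ≤ 1) →
    ¬ (NED A g ∧ NED g A) ∧ ¬ (UED A g ∧ UED g A) ∧ ¬ (NG A g ∧ NG g A) ∧ ¬ (UG A g ∧ UG g A) ∧
    ¬ (ND A g ∧ ND g A) ∧ ¬ (UD A g ∧ UD g A) :=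
  s_inst (fun fam => by
    obtain ⟨g, hg⟩ := stage_exists fam
    exact ⟨g, s_con fam g hg⟩) s_fusion

end R624FS
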