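import Pool.Agent.R624.FS.Defs

/-!
The coding used for the positive part (coarse reducibility): `enc` and `dec`.
-/

namespace R624FS

/-- the scale of a position: `scl x = s` iff `lo s ≤ x < hi s` (for `s ≥ 1`) -/
def scl (x : ℕ) : ℕ := Nat.sqrt (Nat.log 2 x / 4)
def lo (s : ℕ) : ℕ := 2 ^ (4 * s ^ 2)
def hi (s : ℕ) : ℕ := 2 ^ (4 * (s + 1) ^ 2)

/-- number of elements of the block `[2^k, 2^(k+1))` where `g` is at least `i` -/
def act (g : ℕ → ℕ) (k i : ℕ) : ℕ := ((Finset.range (2 ^ k)).filter fun n => i ≤ g (2 ^ k + n)).card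

/-- the coded set -/
def enc (g : ℕ → ℕ) (x : ℕ) : ℕ :=
  if x / 2 ^ (scl x + 2 + (scl x).unpair.1) % 2 ^ (scl x).unpair.1 <
      act g (scl x).unpair.1 (scl x).unpair.2 then
    if x % 2 = 0 then 1
    else if g (2 ^ (scl x).unpair.1 + x / 2 ^ (scl x + 2) % 2 ^ (scl x).unpair.1) ≤
          (scl x).unpair.2 ∧
        x.testBit (g (2 ^ (scl x).unpair.1 + x / 2 ^ (scl x + 2) % 2 ^ (scl x).unpair.1) + 1) =
          true then 1
    else 0
  else 0

/-- number of ones at even positions of scale `s` -/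
def ones (D : ℕ → ℕ) (s : ℕ) : ℕ :=
  ((Finset.Ico (lo s) (hi s)).filter fun x => x % 2 = 0 ∧ D x = 1).card

/-- few active layers are shown at visit `i` of block `k` -/
def low (D : ℕ → ℕ) (j k i : ℕ) : Prop :=
  2 ^ (j + 1) * ones D (Nat.pair k i) < hi (Nat.pair k i) - lo (Nat.pair k i)

open Classical in
/-- first visit `i ≥ 1` of block `k` with few active layers -/
noncomputable def vis (D : ℕ → ℕ) (j k : ℕ) : ℕ :=
  if h : ∃ i, 1 ≤ i ∧ low D j k i then Nat.find h else 0

/-- ones in the field of the `n`-th element of the block, at positions with bit `v + 1` equal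
to `b` -/
def sco (D : ℕ → ℕ) (k s n v : ℕ) (b : Bool) : ℕ :=
  ((Finset.Ico (lo s) (hi s)).filter fun x =>
    x % 2 = 1 ∧ x / 2 ^ (s + 2) % 2 ^ k = n ∧ D x = 1 ∧ x.testBit (v + 1) = b).card

/-- the value `v` is shown for the `n`-th element of block `k`, at level `j`, visit `i` -/
def shown (D : ℕ → ℕ) (j k i n v : ℕ) : Prop :=
  hi (Nat.pair k i) - lo (Nat.pair k i) <
    2 ^ (k + j + 4) * (sco D k (Nat.pair k i) n v true - sco D k (Nat.pair k i) n v false)

open Classical in
/-- value read at level `j` (`none`: nothing shown) -/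
noncomputable def rd (D : ℕ → ℕ) (k n j : ℕ) : Option ℕ :=
  if h : ∃ v, v ≤ vis D j k - 1 ∧ shown D j k (vis D j k - 1) n v then some (Nat.find h) else none

open Classical in
/-- the decoder: the value read at the smallest level `1 ≤ j ≤ k` showing one, `0` otherwise -/
noncomputable def dec (D : ℕ → ℕ) (m : ℕ) : ℕ :=
  if h : ∃ j, 1 ≤ j ∧ j ≤ Nat.log 2 m ∧ (rd D (Nat.log 2 m) (m - 2 ^ Nat.log 2 m) j).isSome then
    (rd D (Nat.log 2 m) (m - 2 ^ Nat.log 2 m) (Nat.find h)).getD 0
  else 0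

end R624FS
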