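import Pool.Agent.R624.FS.YDefs

/-!
Statements of the pieces of the positive part.
-/

namespace R624FS

def S_encdz : Prop := ∀ g d : ℕ → ℕ, Dz {n | d n ≠ g n} → Dz {x | enc d x ≠ enc g x}

def S_vis : Prop := ∀ g D : ℕ → ℕ, Dz {x | D x ≠ enc g x} → ∀ j k, ∃ i, 1 ≤ i ∧ low D j k i

def S_decdz : Prop := ∀ g D : ℕ → ℕ, Dz {x | D x ≠ enc g x} → Dz {n | dec D n ≠ g n}

def S_enccomp : Prop := ∃ φ : List ℕ → ℕ → Option ℕ, Computable₂ φ ∧ ∀ d : ℕ → ℕ, Turns φ d (enc d)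

def S_deccomp : Prop := ∃ φ : List ℕ → ℕ → Option ℕ, Computable₂ φ ∧
  ∀ D : ℕ → ℕ, (∀ j k, ∃ i, 1 ≤ i ∧ low D j k i) → Turns φ D (dec D)

end R624FS
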